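import Pool.Agent.Lib.MP_b9166b_al.Ks.AltCore
import Pool.Agent.Lib.MP_b9166b_al.Comb

/-!
# The theorem for alternating covers
-/

set_option autoImplicit false

namespace Pool.Agent.Lib.MP_b9166b_al.Ks

open scoped commutatorElement

open Equiv Filter

theorem sc_minimalPeriod {n : ℕ} {u : Perm (Fin n)} {z z' : Fin n} (h : u.SameCycle z z') :
    Function.minimalPeriod u z' = Function.minimalPeriod u z := by
  obtain ⟨i, hi⟩ := h.exists_nat_pow_eq
  rw [← hi, ← Perm.iterate_eq_pow]
  apply Function.minimalPeriod_apply_iterate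
  refine ⟨orderOf u, orderOf_pos u, ?_⟩
  unfold Function.IsPeriodicPt Function.IsFixedPt
  rw [Perm.iterate_eq_pow, pow_orderOf_eq_one, Perm.one_apply]

theorem sc_commute {n : ℕ} {u y : Perm (Fin n)} (h : Commute y u) {z z' : Fin n}
    (hz : u.SameCycle z z') : u.SameCycle (y z) (y z') := by
  obtain ⟨k, rfl⟩ := hz
  refine ⟨k, ?_⟩
  have h1 := (h.zpow_right k).eq
  calc (u ^ k) (y z) = (u ^ k * y) z := rfl
    _ = (y * u ^ k) z := by rw [h1]
    _ = y ((u ^ k) z) := rfl

theorem card_le_of_sameCycle {n m : ℕ} (hm : 0 < m) {u : Perm (Fin n)} (hu : u ^ m = 1) (y : Fin n)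
    (A : Finset (Fin n)) (hA : ∀ x ∈ A, u.SameCycle y x) : A.card ≤ m := by
  classical
  calc A.card ≤ ((Finset.range m).image fun k => (u ^ k) y).card := by
        apply Finset.card_le_card
        intro x hx
        obtain ⟨k, hk⟩ := hA x hx
        rw [Finset.mem_image]
        refine ⟨(k % m).toNat, ?_, ?_⟩
        · rw [Finset.mem_range]
          have h2 := Int.emod_lt_of_pos k (by exact_mod_cast hm : (0 : ℤ) < m)
          have h3 := Int.emod_nonneg k (by exact_mod_cast hm.ne' : (m : ℤ) ≠ 0)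
          omega
        · rw [← hk]
          have h3 := Int.emod_nonneg k (by exact_mod_cast hm.ne' : (m : ℤ) ≠ 0)
          have h4 : u ^ ((k % m).toNat) = u ^ (k % (m : ℤ)) := by
            rw [← zpow_natCast, Int.toNat_of_nonneg h3]
          have h5 : u ^ (m : ℤ) = 1 := by rw [zpow_natCast, hu]
          have h6 : u ^ k = u ^ (k % (m : ℤ)) := by
            conv_lhs => rw [← Int.emod_add_mul_ediv k m]
            rw [zpow_add, zpow_mul, h5, one_zpow, mul_one]
          change (u ^ ((k % m).toNat)) y = (u ^ k) y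
          rw [h4, h6]
    _ ≤ m := by
        refine Finset.card_image_le.trans ?_
        rw [Finset.card_range]

/-- the number of points in cycles moved by y -/
theorem card_moved_le {n m B : ℕ} (hm : 0 < m) {u y : Perm (Fin n)} (hu : u ^ m = 1)
    (h : Commute y u)
    (hB : ∀ l, 0 < l → ∀ Z : Finset (Fin n), (∀ z ∈ Z, Function.minimalPeriod u z = l) →
      (∀ z ∈ Z, ∀ z' ∈ Z, u.SameCycle z z' → z = z') → (∀ z ∈ Z, ¬ u.SameCycle z (y z)) → Z.card ≤ B)
    (M : Finset (Fin n)) (hM : ∀ z ∈ M, ¬ u.SameCycle z (y z)) : M.card ≤ m * B * m := by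
  classical
  set s : Setoid (Fin n) := Perm.SameCycle.setoid u with hs
  have hper : ∀ x : Fin n, Function.IsPeriodicPt u m x := by
    intro x
    unfold Function.IsPeriodicPt Function.IsFixedPt
    rw [Perm.iterate_eq_pow, hu, Perm.one_apply]
  have h1 : ∀ l, 0 < l → (M.filter fun z => Function.minimalPeriod u z = l).card ≤ m * B := by
    intro l hl
    set Ml := M.filter fun z => Function.minimalPeriod u z = l with hMl
    have h2 := Finset.card_le_mul_card_image (f := fun x : Fin n => Quotient.mk s x) Ml m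
      (by
        intro q _
        obtain ⟨z, rfl⟩ := Quotient.exists_rep q
        refine card_le_of_sameCycle hm hu z _ fun x hx => ?_
        rw [Finset.mem_filter] at hx
        exact (Quotient.exact hx.2).symm)
    refine h2.trans (Nat.mul_le_mul_left m ?_)
    have h3 : ((Ml.image fun x : Fin n => Quotient.mk s x).image Quotient.out).card =
        (Ml.image fun x : Fin n => Quotient.mk s x).card :=
      Finset.card_image_of_injective _ Quotient.out_injective
    rw [← h3]
    have h4 : ∀ z ∈ ((Ml.image fun x : Fin n => Quotient.mk s x).image Quotient.out),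
        ∃ w ∈ Ml, u.SameCycle z w ∧ z = (Quotient.mk s w).out := by
      intro z hz
      rw [Finset.mem_image] at hz
      obtain ⟨q, hq, rfl⟩ := hz
      rw [Finset.mem_image] at hq
      obtain ⟨w, hw, rfl⟩ := hq
      exact ⟨w, hw, Quotient.mk_out (s := s) w, rfl⟩
    refine hB l hl _ ?_ ?_ ?_
    · intro z hz
      obtain ⟨w, hw, hzw, -⟩ := h4 z hz
      rw [hMl, Finset.mem_filter] at hw
      rw [← hw.2, sc_minimalPeriod hzw]
    · intro z hz z' hz' hzz
      obtain ⟨w, hw, hzw, e⟩ := h4 z hz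
      obtain ⟨w', hw', hzw', e'⟩ := h4 z' hz'
      rw [e, e']
      congr 1
      exact Quotient.sound (hzw.symm.trans (hzz.trans hzw'))
    · intro z hz hc
      obtain ⟨w, hw, hzw, -⟩ := h4 z hz
      rw [hMl, Finset.mem_filter] at hw
      exact hM w hw.1 (hzw.symm.trans (hc.trans (sc_commute h hzw)))
  have h2 := Finset.card_le_mul_card_image (f := fun z : Fin n => Function.minimalPeriod u z) M
    (m * B) (by
      intro l hl
      rw [Finset.mem_image] at hl
      obtain ⟨z, _, rfl⟩ := hl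
      exact h1 _ ((hper z).minimalPeriod_pos hm))
  refine h2.trans (Nat.mul_le_mul_left _ ?_)
  have h3 : (M.image fun z : Fin n => Function.minimalPeriod u z) ⊆ Finset.Icc 1 m := by
    intro l hl
    rw [Finset.mem_image] at hl
    obtain ⟨z, _, rfl⟩ := hl
    rw [Finset.mem_Icc]
    exact ⟨(hper z).minimalPeriod_pos hm, (hper z).minimalPeriod_le hm⟩
  refine (Finset.card_le_card h3).trans ?_
  rw [Nat.card_Icc]
  omega

/-- The support of a commutator of two permutations which commute with u and move few cycles of u: outside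
the cycles moved by y1 or y2 both are powers of u on every cycle. The points in cycles moved by y: at most
Σ_{l ∣ m} l (6 r²) ≤ m * m * B. -/
theorem card_support_comm_le {n m B : ℕ} (hm : 0 < m) {u y1 y2 : Perm (Fin n)} (hu : u ^ m = 1)
    (h1 : Commute y1 u) (h2 : Commute y2 u)
    (hB1 : ∀ l, 0 < l → ∀ Z : Finset (Fin n), (∀ z ∈ Z, Function.minimalPeriod u z = l) →
      (∀ z ∈ Z, ∀ z' ∈ Z, u.SameCycle z z' → z = z') → (∀ z ∈ Z, ¬ u.SameCycle z (y1 z)) → Z.card ≤ B)
    (hB2 : ∀ l, 0 < l → ∀ Z : Finset (Fin n), (∀ z ∈ Z, Function.minimalPeriod u z = l) →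
      (∀ z ∈ Z, ∀ z' ∈ Z, u.SameCycle z z' → z = z') → (∀ z ∈ Z, ¬ u.SameCycle z (y2 z)) → Z.card ≤ B) :
    (⁅y1, y2⁆ : Perm (Fin n)).support.card ≤ 8 * m * m * B := by
  classical
  set M1 := Finset.univ.filter fun z : Fin n => ¬ u.SameCycle z (y1 z) with hM1
  set M2 := Finset.univ.filter fun z : Fin n => ¬ u.SameCycle z (y2 z) with hM2
  have hsub : (⁅y1, y2⁆ : Perm (Fin n)).support ⊆ (M1 ∪ M2).image (y2 * y1) := by
    intro w hw
    rw [Perm.mem_support] at hw
    rw [Finset.mem_image]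
    obtain ⟨z, hz⟩ : ∃ z, y2 (y1 z) = w := ⟨y1.symm (y2.symm w), by simp⟩
    refine ⟨z, ?_, hz⟩
    by_contra hc
    rw [Finset.mem_union, not_or, hM1, hM2, Finset.mem_filter, Finset.mem_filter] at hc
    have hc1 : u.SameCycle z (y1 z) := by
      by_contra h'
      exact hc.1 ⟨Finset.mem_univ z, h'⟩
    have hc2 : u.SameCycle z (y2 z) := by
      by_contra h'
      exact hc.2 ⟨Finset.mem_univ z, h'⟩
    obtain ⟨a, ha⟩ := hc1
    obtain ⟨b, hb⟩ := hc2
    apply hw
    have e1 : y1 (y2 z) = (u ^ b) ((u ^ a) z) := by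
      rw [← hb, ha]
      have h3 := (h1.zpow_right b).eq
      calc y1 ((u ^ b) z) = (y1 * u ^ b) z := rfl
        _ = (u ^ b * y1) z := by rw [h3]
        _ = (u ^ b) (y1 z) := rfl
    have e2 : y2 (y1 z) = (u ^ a) ((u ^ b) z) := by
      rw [← ha, hb]
      have h3 := (h2.zpow_right a).eq
      calc y2 ((u ^ a) z) = (y2 * u ^ a) z := rfl
        _ = (u ^ a * y2) z := by rw [h3]
        _ = (u ^ a) (y2 z) := rfl
    have e3 : (u ^ b) ((u ^ a) z) = (u ^ a) ((u ^ b) z) := by
      have h3 : u ^ b * u ^ a = u ^ a * u ^ b := by rw [← zpow_add, ← zpow_add, add_comm]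
      calc (u ^ b) ((u ^ a) z) = (u ^ b * u ^ a) z := rfl
        _ = (u ^ a * u ^ b) z := by rw [h3]
        _ = (u ^ a) ((u ^ b) z) := rfl
    rw [commutatorElement_def, ← hz]
    have e4 : (y1 * y2 * y1⁻¹ * y2⁻¹) (y2 (y1 z)) = y1 (y2 z) := by simp
    rw [e4, e1, e3, e2]
  have h3 := card_moved_le hm hu h1 hB1 M1 fun z hz => (Finset.mem_filter.1 hz).2
  have h4 := card_moved_le hm hu h2 hB2 M2 fun z hz => (Finset.mem_filter.1 hz).2
  refine (Finset.card_le_card hsub).trans (Finset.card_image_le.trans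
    ((Finset.card_union_le _ _).trans ((Nat.add_le_add h3 h4).trans ?_)))
  have e : 8 * m * m * B = 8 * (m * B * m) := by ring
  rw [e]
  omega

variable {G : Type} [Group G] {x : G} {S : Finset G}

theorem ACov.a_one (c : ACov x S) : c.a 1 = 1 := by
  have h := c.mul 1 c.H.one_mem 1 c.H.one_mem
  rw [mul_one] at h
  exact left_eq_mul.1 h

theorem ACov.a_pow (c : ACov x S) {g : G} (hg : g ∈ c.H) (k : ℕ) : c.a (g ^ k) = c.a g ^ k := by
  induction k with
  | zero => rw [pow_zero, pow_zero, c.a_one]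
  | succ k ih => rw [pow_succ, pow_succ, c.mul _ (c.H.pow_mem hg k) _ hg, ih]

theorem ACov.a_inv (c : ACov x S) {g : G} (hg : g ∈ c.H) : c.a g⁻¹ = (c.a g)⁻¹ := by
  rw [eq_inv_iff_mul_eq_one, ← c.mul _ (c.H.inv_mem hg) _ hg, inv_mul_cancel, c.a_one]

/-- Large degree: noncommuting elements of the centralizer of x (theta of Comb.lean). -/
theorem alt_exists (c : ACov x S) (hx : 0 < orderOf x) (hn : 4 * orderOf x * orderOf x < c.n) :
    ∃ g1 g2 : G, Commute g1 x ∧ Commute g2 x ∧ ⁅g1, g2⁆ ≠ 1 := by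
  have hu : c.a x ^ orderOf x = 1 := by
    rw [← c.a_pow c.hx, pow_orderOf_eq_one, c.a_one]
  obtain ⟨l, ω, hl0, hl, hω⟩ := exists_five hx hn hu
  have : NeZero l := ⟨hl0.ne'⟩
  have key : ∀ π ∈ alternatingGroup (Fin 5), ∃ h ∈ c.H, Commute h x ∧ c.a h = theta hl hω π :=
    fun π hπ => c.lift ((alternatingGroup (Fin 5)).map (theta hl hω))
      (by rw [← Subgroup.map_commutator, commutator_alternatingGroup_eq_self (by simp)])
      (by
        rintro _ ⟨σ, _, rfl⟩
        exact theta_comm hl hω σ) _ (Subgroup.mem_map_of_mem _ hπ)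
  obtain ⟨g1, hg1, h1, e1⟩ := key (swap 0 1 * swap 1 2) (by
    rw [Equiv.Perm.mem_alternatingGroup]; decide)
  obtain ⟨g2, hg2, h2, e2⟩ := key (swap 1 2 * swap 2 3) (by
    rw [Equiv.Perm.mem_alternatingGroup]; decide)
  refine ⟨g1, g2, h1, h2, fun h => ?_⟩
  have h3 : g1 * g2 = g2 * g1 := commutatorElement_eq_one_iff_mul_comm.1 h
  have h4 : theta hl hω ((swap 0 1 * swap 1 2) * (swap 1 2 * swap 2 3)) =
      theta hl hω ((swap 1 2 * swap 2 3) * (swap 0 1 * swap 1 2)) := by
    rw [map_mul, map_mul (theta hl hω) (swap 1 2 * swap 2 3), ← e1, ← e2, ← c.mul _ hg1 _ hg2,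
      ← c.mul _ hg2 _ hg1, h3]
  exact absurd (theta_inj hl hω h4) (by decide)

/-- a large prime which is not zero in K -/
theorem exists_prime_ne (K : Type) [Field K] (d : ℕ) :
    ∃ r : ℕ, r.Prime ∧ (r : K) ≠ 0 ∧ 3 * d < r := by
  obtain ⟨p, hp1, hp2⟩ := Nat.exists_infinite_primes (3 * d + 1)
  by_cases h : (p : K) = 0
  · obtain ⟨q, hq1, hq2⟩ := Nat.exists_infinite_primes (p + 1)
    refine ⟨q, hq2, fun hq => ?_, by omega⟩
    have hcop : Nat.Coprime p q := (Nat.coprime_primes hp2 hq2).2 (by omega)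
    have h1 := Nat.gcd_eq_gcd_ab p q
    have h2 : ((Nat.gcd p q : ℤ) : K) = ((p : ℤ) * Nat.gcdA p q + (q : ℤ) * Nat.gcdB p q : ℤ) := by
      rw [h1]
    rw [Nat.coprime_iff_gcd_eq_one.1 hcop] at h2
    push_cast at h2
    rw [h, hq, zero_mul, zero_mul, add_zero] at h2
    exact one_ne_zero h2
  · exact ⟨p, hp2, h, by omega⟩

/-- Both cases (degrees bounded or not) end in finPerm_of_family (Germ.lean) over an ultrafilter on
Finset G. -/
theorem finPerm_of_acov (hs : IsSimpleGroup G) (hx : 0 < orderOf x)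
    (h : ∀ S : Finset G, (∃ s ∈ S, s ≠ 1) → Nonempty (ACov x S))
    (hc : FinLin (Subgroup.centralizer ({x} : Set G))) : FinPerm G := by
  classical
  have := hs.toNontrivial
  obtain ⟨y0, hy0⟩ := exists_ne (1 : G)
  have hcov : ∀ T : Finset G, Nonempty (ACov x (insert y0 T)) := fun T =>
    h _ ⟨y0, Finset.mem_insert_self _ _, hy0⟩
  set c : ∀ T : Finset G, ACov x (insert y0 T) := fun T => (hcov T).some with hcdef
  have hH : ∀ T g, g ∈ T → g ∈ (c T).H := fun T g hg => (c T).hS g (Finset.mem_insert_of_mem hg)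
  have hend : ∀ U : Ultrafilter (Finset G), (U : Filter (Finset G)) ≤ atTop →
      (∀ g, ∃ B : ℕ, ∀ᶠ T in (U : Filter (Finset G)), ((c T).a g).support.card ≤ B) →
      FinPerm G := by
    intro U hU hb
    have hmem : ∀ g : G, ∀ᶠ T in (U : Filter (Finset G)), g ∈ T := by
      intro g
      refine hU ?_
      filter_upwards [Filter.eventually_ge_atTop ({g} : Finset G)] with T hT
      exact hT (Finset.mem_singleton_self g)
    refine finPerm_of_family U
      (fun T g => Perm.viaEmbeddingHom Fin.valEmbedding ((c T).a g)) ?_ ?_ ?_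
    · intro a b
      filter_upwards [hmem a, hmem b] with T h3 h4
      rw [(c T).mul _ (hH T a h3) _ (hH T b h4), map_mul]
    · intro g hg
      filter_upwards [hmem g] with T h3 h4
      apply (c T).sep g (Finset.mem_insert_of_mem h3) hg
      apply Perm.viaEmbeddingHom_injective Fin.valEmbedding
      rw [h4, map_one]
    · intro g
      obtain ⟨A, hA⟩ := hb g
      refine ⟨A, ?_⟩
      filter_upwards [hA] with T h1
      refine ⟨((c T).a g).support.map Fin.valEmbedding, ?_, fun k hk => ?_⟩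
      · rw [Finset.card_map]
        exact h1
      · rw [Perm.viaEmbeddingHom_apply]
        by_cases hkr : k ∈ Set.range (Fin.valEmbedding : Fin (c T).n ↪ ℕ)
        · obtain ⟨a, rfl⟩ := hkr
          rw [Perm.viaEmbedding_apply]
          have h2 : a ∉ ((c T).a g).support := fun h3 =>
            hk (Finset.mem_map_of_mem _ h3)
          rw [Perm.notMem_support.1 h2]
        · exact Perm.viaEmbedding_apply_of_notMem _ _ _ hkr
  by_cases hbd : ∃ N : ℕ, ∃ᶠ T in (atTop : Filter (Finset G)), (c T).n ≤ N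
  · obtain ⟨N, hfreq⟩ := hbd
    have hne : NeBot ((atTop : Filter (Finset G)) ⊓ 𝓟 {T | (c T).n ≤ N}) :=
      Filter.frequently_mem_iff_neBot.1 hfreq
    have hU1 : (Ultrafilter.of ((atTop : Filter (Finset G)) ⊓ 𝓟 {T | (c T).n ≤ N}) :
        Filter (Finset G)) ≤ atTop := (Ultrafilter.of_le _).trans inf_le_left
    have hU2 : ∀ᶠ T in (Ultrafilter.of ((atTop : Filter (Finset G)) ⊓ 𝓟 {T | (c T).n ≤ N}) :
        Filter (Finset G)), (c T).n ≤ N :=
      ((Ultrafilter.of_le _).trans inf_le_right) (Filter.mem_principal_self _)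
    refine hend _ hU1 fun g => ⟨N, ?_⟩
    filter_upwards [hU2] with T hT
    refine (Finset.card_le_univ _).trans ?_
    rw [Fintype.card_fin]
    exact hT
  · have hlarge : ∀ N : ℕ, ∀ᶠ T in (atTop : Filter (Finset G)), N < (c T).n := by
      intro N
      have h1 : ¬ ∃ᶠ T in (atTop : Filter (Finset G)), (c T).n ≤ N := fun h' => hbd ⟨N, h'⟩
      rw [Filter.not_frequently] at h1
      filter_upwards [h1] with T hT
      exact not_le.1 hT
    obtain ⟨T0, hT0⟩ := (hlarge (4 * orderOf x * orderOf x)).exists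
    obtain ⟨g1, g2, hg1, hg2, hg12⟩ := alt_exists (c T0) hx hT0
    obtain ⟨K, _, VK, _, _, -, ρ, hρ, hfin⟩ := hc
    have hbound : ∀ g : G, Commute g x → ∃ B : ℕ, ∀ T, g ∈ (c T).H → ∀ l, 0 < l →
        ∀ Z : Finset (Fin (c T).n), (∀ z ∈ Z, Function.minimalPeriod ((c T).a x) z = l) →
        (∀ z ∈ Z, ∀ z' ∈ Z, ((c T).a x).SameCycle z z' → z = z') →
        (∀ z ∈ Z, ¬ ((c T).a x).SameCycle z ((c T).a g z)) → Z.card ≤ B := by
      intro g hg
      have hgC : g ∈ Subgroup.centralizer ({x} : Set G) := by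
        rw [Subgroup.mem_centralizer_singleton_iff]
        exact hg
      obtain ⟨r, hr1, hr2, hr3⟩ := exists_prime_ne K
        (Module.finrank K (LinearMap.range (1 - (ρ ⟨g, hgC⟩).val)))
      have : Fact r.Prime := ⟨hr1⟩
      refine ⟨6 * r ^ 2, fun T hT l hl Z hZ1 hZ2 hZ3 => ?_⟩
      exact alt_core (c T) ρ hρ (y := ⟨g, hgC⟩) hT hr2 ⟨hfin _, le_refl _⟩ hr3 hl Z hZ1 hZ2 hZ3
    obtain ⟨B1, hB1⟩ := hbound g1 hg1
    obtain ⟨B2, hB2⟩ := hbound g2 hg2
    have hU1 : (Ultrafilter.of (atTop : Filter (Finset G)) : Filter (Finset G)) ≤ atTop :=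
      Ultrafilter.of_le _
    have hmem : ∀ g : G, ∀ᶠ T in (Ultrafilter.of (atTop : Filter (Finset G)) :
        Filter (Finset G)), g ∈ T := by
      intro g
      refine hU1 ?_
      filter_upwards [Filter.eventually_ge_atTop ({g} : Finset G)] with T hT
      exact hT (Finset.mem_singleton_self g)
    set U := Ultrafilter.of (atTop : Filter (Finset G)) with hU
    set N : Subgroup G :=
      { carrier := {g | ∃ B : ℕ, ∀ᶠ T in (U : Filter (Finset G)), ((c T).a g).support.card ≤ B}
        one_mem' := by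
          refine ⟨0, Filter.Eventually.of_forall fun T => ?_⟩
          rw [ACov.a_one]
          simp
        mul_mem' := by
          rintro a b ⟨A, hA⟩ ⟨B, hB⟩
          refine ⟨A + B, ?_⟩
          filter_upwards [hA, hB, hmem a, hmem b] with T h1 h2 h3 h4
          rw [(c T).mul _ (hH T a h3) _ (hH T b h4)]
          refine (Finset.card_le_card (Perm.support_mul_le _ _)).trans ?_
          refine (Finset.card_union_le _ _).trans ?_
          omega
        inv_mem' := by
          rintro a ⟨A, hA⟩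
          refine ⟨A, ?_⟩
          filter_upwards [hA, hmem a] with T h1 h3
          rw [(c T).a_inv (hH T a h3), Perm.support_inv]
          exact h1 } with hN
    have hNn : N.Normal := by
      refine ⟨fun a ha g => ?_⟩
      obtain ⟨A, hA⟩ := ha
      refine ⟨A, ?_⟩
      filter_upwards [hA, hmem a, hmem g] with T h1 h3 h4
      have hg := hH T g h4
      have ha' := hH T a h3
      rw [(c T).mul _ ((c T).H.mul_mem hg ha') _ ((c T).H.inv_mem hg), (c T).mul _ hg _ ha',
        (c T).a_inv hg, Perm.card_support_conj]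
      exact h1
    have hcomm : ⁅g1, g2⁆ ∈ N := by
      refine ⟨8 * orderOf x * orderOf x * max B1 B2, ?_⟩
      filter_upwards [hmem g1, hmem g2] with T h1 h2
      have hg1' := hH T g1 h1
      have hg2' := hH T g2 h2
      have hcm : ∀ g, Commute g x → g ∈ (c T).H → Commute ((c T).a g) ((c T).a x) := by
        intro g hg hgH
        change (c T).a g * (c T).a x = (c T).a x * (c T).a g
        rw [← (c T).mul _ hgH _ (c T).hx, ← (c T).mul _ (c T).hx _ hgH, hg.eq]
      have e : (c T).a ⁅g1, g2⁆ = ⁅(c T).a g1, (c T).a g2⁆ := by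
        rw [commutatorElement_def, commutatorElement_def,
          (c T).mul _ ((c T).H.mul_mem ((c T).H.mul_mem hg1' hg2') ((c T).H.inv_mem hg1')) _
            ((c T).H.inv_mem hg2'),
          (c T).mul _ ((c T).H.mul_mem hg1' hg2') _ ((c T).H.inv_mem hg1'),
          (c T).mul _ hg1' _ hg2', (c T).a_inv hg1', (c T).a_inv hg2']
      rw [e]
      refine card_support_comm_le hx ?_ (hcm g1 hg1 hg1') (hcm g2 hg2 hg2') ?_ ?_
      · rw [← (c T).a_pow (c T).hx, pow_orderOf_eq_one, (c T).a_one]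
      · intro l hl Z hZ1 hZ2 hZ3
        exact (hB1 T hg1' l hl Z hZ1 hZ2 hZ3).trans (le_max_left _ _)
      · intro l hl Z hZ1 hZ2 hZ3
        exact (hB2 T hg2' l hl Z hZ1 hZ2 hZ3).trans (le_max_right _ _)
    have hNtop : N = ⊤ := by
      rcases hs.eq_bot_or_eq_top_of_normal N hNn with h1 | h1
      · exfalso
        apply hg12
        rw [← Subgroup.mem_bot, ← h1]
        exact hcomm
      · exact h1
    refine hend U hU1 fun g => ?_
    have hg : g ∈ N := by
      rw [hNtop]
      exact Subgroup.mem_top g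
    exact hg

end Pool.Agent.Lib.MP_b9166b_al.Ks
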