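import Mathlib

/-!
# Centralizers lift modulo a normal subgroup of coprime order

For x of prime power order p^k: x acts by conjugation on the coset h T (because [h, x] is in T), |h T| = |T| is
prime to p, so x has a fixed point (IsPGroup.nonempty_fixed_point_of_prime_not_dvd_card, for the group of
powers of x). In general: induction on the order m = p^k m' of x (all groups at once). x = s * y with
s = x^e of order p^k (e = 1 mod p^k, 0 mod m'), y = x^(1-e) of order m'. [h, s] is in T; the prime power case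
gives h1 in h T commuting with s. Apply the induction hypothesis to the group C(s), its normal subgroup
T ∩ C(s), the elements y and h1.
-/

set_option autoImplicit false

namespace Pool.Agent.Lib.MP_b9166b_al.Ks

open scoped commutatorElement

/-- Powers of an element commuting with `h` modulo a normal subgroup do so as well. -/
theorem lift_comm_zpow {H : Type} [Group H] (T : Subgroup H) [T.Normal] {x h : H}
    (hh : ⁅h, x⁆ ∈ T) (n : ℤ) :
    Commute (QuotientGroup.mk' T h) (QuotientGroup.mk' T (x ^ n)) := by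
  have h1 : Commute (QuotientGroup.mk' T h) (QuotientGroup.mk' T x) := by
    rw [← commutatorElement_eq_one_iff_commute, ← map_commutatorElement]
    exact (QuotientGroup.eq_one_iff _).2 hh
  rw [map_zpow]
  exact h1.zpow_right n

theorem lift_mem_of_comm {H : Type} [Group H] (T : Subgroup H) [T.Normal] {x h : H}
    (hh : Commute (QuotientGroup.mk' T h) (QuotientGroup.mk' T x)) : ⁅h, x⁆ ∈ T := by
  rw [← QuotientGroup.eq_one_iff]
  change QuotientGroup.mk' T ⁅h, x⁆ = 1
  rw [map_commutatorElement, commutatorElement_eq_one_iff_commute]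
  exact hh

theorem lift_mk_one {H : Type} [Group H] (T : Subgroup H) [T.Normal] {t : H} (ht : t ∈ T) :
    QuotientGroup.mk' T t = 1 :=
  (QuotientGroup.eq_one_iff _).2 ht

/-- The prime power case. -/
theorem lift_prime_pow {H : Type} [Group H] [Finite H] (T : Subgroup H) [T.Normal] {p k : ℕ}
    (hp : p.Prime) {x : H} (hx : orderOf x = p ^ k)
    (hc : (Nat.card T).Coprime (p ^ k)) {h : H} (hh : ⁅h, x⁆ ∈ T) :
    ∃ t ∈ T, Commute (h * t) x := by
  have : Fact p.Prime := ⟨hp⟩
  rcases Nat.eq_zero_or_pos k with hk | hk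
  · rw [hk, pow_zero, orderOf_eq_one_iff] at hx
    exact ⟨1, T.one_mem, by rw [hx]; exact Commute.one_right _⟩
  have hG : IsPGroup p (Subgroup.zpowers x) := by
    rw [IsPGroup.iff_card]
    exact ⟨k, by rw [Nat.card_zpowers, hx]⟩
  let α : Type := {a : H // QuotientGroup.mk' T a = QuotientGroup.mk' T h}
  have hmem : ∀ (g : Subgroup.zpowers x) (a : α),
      QuotientGroup.mk' T (g.1 * a.1 * g.1⁻¹) = QuotientGroup.mk' T h := by
    rintro ⟨g, n, rfl⟩ ⟨a, ha⟩
    have h1 := lift_comm_zpow T hh n
    change QuotientGroup.mk' T (x ^ n * a * (x ^ n)⁻¹) = _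
    rw [map_mul, map_mul, ha, map_inv, ← h1.eq, mul_assoc, mul_inv_cancel, mul_one]
  let _ : MulAction (Subgroup.zpowers x) α :=
    { smul := fun g a => ⟨g.1 * a.1 * g.1⁻¹, hmem g a⟩
      one_smul := by
        rintro ⟨a, ha⟩
        apply Subtype.ext
        change (1 : H) * a * (1 : H)⁻¹ = a
        simp
      mul_smul := by
        rintro ⟨g, hg⟩ ⟨g', hg'⟩ ⟨a, ha⟩
        apply Subtype.ext
        change (g * g') * a * (g * g')⁻¹ = g * (g' * a * g'⁻¹) * g⁻¹
        group }
  have hcard : Nat.card α = Nat.card T := by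
    refine (Nat.card_congr (Equiv.ofBijective
      (fun t : T => (⟨h * t.1, ?_⟩ : α)) ⟨?_, ?_⟩)).symm
    · rw [map_mul, lift_mk_one T t.2, mul_one]
    · intro t t' htt
      have h2 : h * t.1 = h * t'.1 := congrArg Subtype.val htt
      exact Subtype.ext (mul_left_cancel h2)
    · rintro ⟨a, ha⟩
      refine ⟨⟨h⁻¹ * a, ?_⟩, Subtype.ext (mul_inv_cancel_left h a)⟩
      exact QuotientGroup.eq.1 ha.symm
  have hnd : ¬ p ∣ Nat.card α := by
    rw [hcard]
    intro hd
    have h1 : p ∣ p ^ k := dvd_pow_self p hk.ne'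
    exact hp.one_lt.ne' (Nat.dvd_one.1 (hc ▸ Nat.dvd_gcd hd h1))
  obtain ⟨⟨a, ha⟩, hfix⟩ := hG.nonempty_fixed_point_of_prime_not_dvd_card α hnd
  have h1 := hfix ⟨x, Subgroup.mem_zpowers x⟩
  have h2 : x * a * x⁻¹ = a := congrArg Subtype.val h1
  refine ⟨h⁻¹ * a, QuotientGroup.eq.1 ha.symm, ?_⟩
  rw [mul_inv_cancel_left]
  change a * x = x * a
  exact (mul_inv_eq_iff_eq_mul.1 h2).symm

theorem lift_aux (m : ℕ) : ∀ (H : Type) [Group H] [Finite H] (T : Subgroup H) [T.Normal] (x : H),
    orderOf x = m → (Nat.card T).Coprime m → ∀ h : H, ⁅h, x⁆ ∈ T →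
      ∃ t ∈ T, Commute (h * t) x := by
  induction m using Nat.recOnPrimeCoprime with
  | zero =>
    intro H _ _ T _ x hx
    exact absurd hx (orderOf_pos x).ne'
  | prime_pow p n hp =>
    intro H _ _ T _ x hx hc h hh
    exact lift_prime_pow T hp hx hc hh
  | coprime a b ha hb hab iha ihb =>
    intro H _ _ T _ x hx hc h hh
    have hs : orderOf (x ^ b) = a := by
      rw [orderOf_pow' x (by omega), hx, Nat.gcd_mul_left_left]
      exact Nat.mul_div_cancel _ (by omega)
    have hy : orderOf (x ^ a) = b := by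
      rw [orderOf_pow' x (by omega), hx, Nat.gcd_mul_right_left]
      exact Nat.mul_div_cancel_left _ (by omega)
    have hhn : ∀ n : ℕ, ⁅h, x ^ n⁆ ∈ T := by
      intro n
      apply lift_mem_of_comm
      have := lift_comm_zpow T hh n
      rwa [zpow_natCast] at this
    obtain ⟨t1, ht1, hc1⟩ := iha H T (x ^ b) hs hc.coprime_mul_right_right h (hhn b)
    -- the centralizer of the first part
    let Z : Subgroup H := Subgroup.centralizer {x ^ b}
    have hyZ : x ^ a ∈ Z := by
      rw [Subgroup.mem_centralizer_singleton_iff]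
      exact (Commute.refl x).pow_pow a b
    have hhZ : h * t1 ∈ Z := by
      rw [Subgroup.mem_centralizer_singleton_iff]
      exact hc1
    have hcT : (Nat.card (T.subgroupOf Z)).Coprime b := by
      refine Nat.Coprime.coprime_dvd_left ?_ hc.coprime_mul_left_right
      have e := ((T.subgroupOf Z).equivMapOfInjective Z.subtype Z.subtype_injective).toEquiv
      rw [Nat.card_congr e, Subgroup.subgroupOf_map_subtype]
      exact Subgroup.card_dvd_of_le inf_le_left
    have hcomm : ⁅(⟨h * t1, hhZ⟩ : Z), (⟨x ^ a, hyZ⟩ : Z)⁆ ∈ T.subgroupOf Z := by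
      rw [Subgroup.mem_subgroupOf]
      change ⁅h * t1, x ^ a⁆ ∈ T
      apply lift_mem_of_comm
      have h2 := lift_comm_zpow T hh a
      rw [zpow_natCast] at h2
      rw [map_mul, lift_mk_one T ht1, mul_one]
      exact h2
    obtain ⟨t2, ht2, hc2⟩ := ihb Z (T.subgroupOf Z) ⟨x ^ a, hyZ⟩
      (by rw [← hy]; exact Subgroup.orderOf_mk _ _) hcT ⟨h * t1, hhZ⟩ hcomm
    rw [Subgroup.mem_subgroupOf] at ht2
    refine ⟨t1 * t2.1, T.mul_mem ht1 ht2, ?_⟩
    have h3 : Commute (h * t1 * t2.1) (x ^ a) := congrArg Subtype.val hc2.eq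
    have h4 : Commute (h * t1 * t2.1) (x ^ b) :=
      hc1.mul_left ((Subgroup.mem_centralizer_singleton_iff).1 t2.2)
    rw [← mul_assoc]
    -- x is a product of powers
    have hbez := Nat.gcd_eq_gcd_ab a b
    rw [hab] at hbez
    have hx' : x = (x ^ a) ^ (Nat.gcdA a b) * (x ^ b) ^ (Nat.gcdB a b) := by
      rw [← zpow_natCast x a, ← zpow_natCast x b, ← zpow_mul, ← zpow_mul, ← zpow_add, ← hbez]
      simp
    rw [hx']
    exact (h3.zpow_right _).mul_right (h4.zpow_right _)

theorem exists_commute_mul {H : Type} [Group H] [Finite H] (T : Subgroup H) [T.Normal] {x : H}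
    (hc : (Nat.card T).Coprime (orderOf x)) {h : H} (hh : ⁅h, x⁆ ∈ T) :
    ∃ t ∈ T, Commute (h * t) x :=
  lift_aux (orderOf x) H T x rfl hc h hh

end Pool.Agent.Lib.MP_b9166b_al.Ks
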