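import Pool.Agent.Lib.MP_b9166b_al.Ks.Defs
import Pool.Agent.Lib.MP_b9166b_al.Ks.Lift

/-!
# From LinCover to LCov
-/

set_option autoImplicit false

namespace Pool.Agent.Lib.MP_b9166b_al.Ks

open scoped commutatorElement

open Matrix

theorem sl_scalar_of_transv {n : ℕ} {F : Type} [Field F] {b : SpecialLinearGroup (Fin n) F}
    (h : ∀ (i j : Fin n) (_ : i ≠ j) (c : F),
      Matrix.transvection i j c * (b : Matrix (Fin n) (Fin n) F) =
        (b : Matrix (Fin n) (Fin n) F) * Matrix.transvection i j c) :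
    ∃ e : F, (b : Matrix (Fin n) (Fin n) F) = e • 1 := by
  have h1 : (b : Matrix (Fin n) (Fin n) F) ∈ Set.range (Matrix.scalar (Fin n)) := by
    refine Matrix.mem_range_scalar_of_commute_transvectionStruct ?_
    intro t
    exact h t.i t.j t.hij t.c
  obtain ⟨e, he⟩ := h1
  exact ⟨e, by rw [← he, Matrix.scalar_apply, Matrix.smul_one_eq_diagonal]⟩

theorem sl_scalar_central {n : ℕ} {F : Type} [Field F] {b : SpecialLinearGroup (Fin n) F}
    (h : ∀ b' : SpecialLinearGroup (Fin n) F, Commute b b') :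
    ∃ e : F, (b : Matrix (Fin n) (Fin n) F) = e • 1 := by
  apply sl_scalar_of_transv
  intro i j hij c
  have h2 := h ⟨Matrix.transvection i j c, Matrix.det_transvection_of_ne i j hij c⟩
  exact (congrArg Subtype.val h2.eq).symm

/-- If [b, b'] is central for all b' then b is a scalar: b τ b⁻¹ = e τ with a scalar e for every transvection
τ = 1 + N, N² = 0; (b τ b⁻¹ - 1)² = 0 gives (e τ - 1)² = 0, so (e - 1)² = 0 (diagonal entries; n ≥ 2), so b
commutes with all transvections (Matrix.mem_range_scalar_of_commute_transvectionStruct; n ≤ 1 is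
trivial). -/
theorem sl_scalar {n : ℕ} {F : Type} [Field F] {b : SpecialLinearGroup (Fin n) F}
    (h : ∀ b' b'' : SpecialLinearGroup (Fin n) F, Commute ⁅b, b'⁆ b'') :
    ∃ e : F, (b : Matrix (Fin n) (Fin n) F) = e • 1 := by
  apply sl_scalar_of_transv
  intro i j hij c
  let τ : SpecialLinearGroup (Fin n) F :=
    ⟨Matrix.transvection i j c, Matrix.det_transvection_of_ne i j hij c⟩
  obtain ⟨e, he⟩ := sl_scalar_central (h τ)
  -- b τ b⁻¹ = e τ
  have h1 : b * τ * b⁻¹ = ⁅b, τ⁆ * τ := by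
    rw [commutatorElement_def]
    group
  have h2 : ((b * τ * b⁻¹ : SpecialLinearGroup (Fin n) F) : Matrix (Fin n) (Fin n) F) =
      e • Matrix.transvection i j c := by
    rw [h1, Matrix.SpecialLinearGroup.coe_mul, he, smul_mul_assoc, one_mul]
  have hN : Matrix.single i j c * Matrix.single i j c = (0 : Matrix (Fin n) (Fin n) F) :=
    Matrix.single_mul_single_of_ne c i j i hij.symm c
  have h3 : (((b * τ * b⁻¹ : SpecialLinearGroup (Fin n) F) : Matrix (Fin n) (Fin n) F) - 1) *
      (((b * τ * b⁻¹ : SpecialLinearGroup (Fin n) F) : Matrix (Fin n) (Fin n) F) - 1) = 0 := by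
    have h4 : (b : Matrix (Fin n) (Fin n) F) * ((b⁻¹ : SpecialLinearGroup (Fin n) F) :
        Matrix (Fin n) (Fin n) F) = 1 := by
      rw [← Matrix.SpecialLinearGroup.coe_mul, mul_inv_cancel, Matrix.SpecialLinearGroup.coe_one]
    have h4' : ((b⁻¹ : SpecialLinearGroup (Fin n) F) : Matrix (Fin n) (Fin n) F) *
        (b : Matrix (Fin n) (Fin n) F) = 1 := by
      rw [← Matrix.SpecialLinearGroup.coe_mul, inv_mul_cancel, Matrix.SpecialLinearGroup.coe_one]
    have h5 : ((b * τ * b⁻¹ : SpecialLinearGroup (Fin n) F) : Matrix (Fin n) (Fin n) F) - 1 =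
        (b : Matrix (Fin n) (Fin n) F) * Matrix.single i j c *
          ((b⁻¹ : SpecialLinearGroup (Fin n) F) : Matrix (Fin n) (Fin n) F) := by
      rw [Matrix.SpecialLinearGroup.coe_mul, Matrix.SpecialLinearGroup.coe_mul]
      change (b : Matrix (Fin n) (Fin n) F) * (1 + Matrix.single i j c) * _ - 1 = _
      rw [mul_add, mul_one, add_mul, h4, add_sub_cancel_left]
    rw [h5]
    calc _ = (b : Matrix (Fin n) (Fin n) F) * (Matrix.single i j c *
          (((b⁻¹ : SpecialLinearGroup (Fin n) F) : Matrix (Fin n) (Fin n) F) *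
            (b : Matrix (Fin n) (Fin n) F)) * Matrix.single i j c) *
          ((b⁻¹ : SpecialLinearGroup (Fin n) F) : Matrix (Fin n) (Fin n) F) := by
          simp only [mul_assoc]
      _ = 0 := by rw [h4', mul_one, hN, mul_zero, zero_mul]
  rw [h2] at h3
  have h6 : (e - 1) ^ 2 = 0 := by
    have h7 := congrFun (congrFun h3 j) j
    have h8 : ((e • Matrix.transvection i j c - 1) * (e • Matrix.transvection i j c - 1)
        : Matrix (Fin n) (Fin n) F) = ((e - 1) ^ 2) • 1 +
          (2 * e * (e - 1)) • Matrix.single i j c := by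
      have h9 : (e • Matrix.transvection i j c - 1 : Matrix (Fin n) (Fin n) F) =
          (e - 1) • 1 + e • Matrix.single i j c := by
        rw [Matrix.transvection, smul_add, sub_smul, one_smul]
        abel
      rw [h9, mul_add, add_mul, add_mul, smul_mul_smul_comm, smul_mul_smul_comm,
        smul_mul_smul_comm, smul_mul_smul_comm, hN, smul_zero, add_zero, one_mul, one_mul,
        mul_one, add_assoc, ← add_smul]
      congr 1
      · rw [pow_two]
      · congr 1
        ring
    rw [h8, Matrix.add_apply, Matrix.smul_apply, Matrix.smul_apply, Matrix.one_apply_eq,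
      Matrix.single_apply_of_row_ne hij, Matrix.zero_apply, smul_eq_mul, mul_one, smul_zero,
      add_zero] at h7
    exact h7
  have h7 : e = 1 := by
    have := pow_eq_zero_iff (two_ne_zero) |>.1 h6
    exact sub_eq_zero.1 this
  rw [h7, one_smul] at h2
  have h8 : b * τ = τ * b := by
    have h9 : b * τ * b⁻¹ = τ := Subtype.ext h2
    exact mul_inv_eq_iff_eq_mul.1 h9
  exact (congrArg Subtype.val h8).symm

/-- The same with a nonzero scalar. -/
theorem sl_scalar_ne {n : ℕ} {F : Type} [Field F] {b : SpecialLinearGroup (Fin n) F}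
    (h : ∀ b' b'' : SpecialLinearGroup (Fin n) F, Commute ⁅b, b'⁆ b'') :
    ∃ e : F, e ≠ 0 ∧ (b : Matrix (Fin n) (Fin n) F) = e • 1 := by
  rcases Nat.eq_zero_or_pos n with hn | hn
  · subst hn
    exact ⟨1, one_ne_zero, Subsingleton.elim _ _⟩
  · obtain ⟨e, he⟩ := sl_scalar h
    refine ⟨e, ?_, he⟩
    rintro rfl
    have h1 := b.2
    change (b : Matrix (Fin n) (Fin n) F).det = 1 at h1
    have : Nonempty (Fin n) := ⟨⟨0, hn⟩⟩
    rw [he, zero_smul, Matrix.det_zero] at h1
    exact zero_ne_one h1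

variable {G : Type} [Group G] {x : G} {S : Finset G}

/-- The invertible endomorphism of `Fin n → F` given by a matrix of determinant one. -/
noncomputable def slU {n : ℕ} {F : Type} [Field F] (b : SpecialLinearGroup (Fin n) F) :
    ((Fin n → F) →ₗ[F] (Fin n → F))ˣ where
  val := Matrix.toLin' (b : Matrix (Fin n) (Fin n) F)
  inv := Matrix.toLin' ((b⁻¹ : SpecialLinearGroup (Fin n) F) : Matrix (Fin n) (Fin n) F)
  val_inv := by
    rw [Module.End.mul_eq_comp, ← Matrix.toLin'_mul, ← Matrix.SpecialLinearGroup.coe_mul,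
      mul_inv_cancel, Matrix.SpecialLinearGroup.coe_one, Matrix.toLin'_one]
    rfl
  inv_val := by
    rw [Module.End.mul_eq_comp, ← Matrix.toLin'_mul, ← Matrix.SpecialLinearGroup.coe_mul,
      inv_mul_cancel, Matrix.SpecialLinearGroup.coe_one, Matrix.toLin'_one]
    rfl

theorem slU_val {n : ℕ} {F : Type} [Field F] (b : SpecialLinearGroup (Fin n) F) :
    (slU b).val = Matrix.toLin' (b : Matrix (Fin n) (Fin n) F) := rfl

/-- Two decompositions of the same element differ by a scalar. -/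
theorem sl_decomp {Q : Type} [Group Q] {n : ℕ} {F : Type} [Field F]
    (σ : SpecialLinearGroup (Fin n) F →* Q) (hker : ∀ b, σ b = 1 → ∀ b', Commute b b')
    {b₁ b₂ : SpecialLinearGroup (Fin n) F} {c₁ c₂ : Q}
    (h₁ : ∀ b', Commute c₁ (σ b')) (h₂ : ∀ b', Commute c₂ (σ b'))
    (he : σ b₁ * c₁ = σ b₂ * c₂) :
    ∃ e : F, e ≠ 0 ∧ (b₁ : Matrix (Fin n) (Fin n) F) = e • (b₂ : Matrix (Fin n) (Fin n) F) := by
  have h3 : σ (b₂⁻¹ * b₁) = c₂ * c₁⁻¹ := by
    rw [map_mul, map_inv, eq_mul_inv_iff_mul_eq, mul_assoc, he, inv_mul_cancel_left]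
  have h4 : ∀ b' b'' : SpecialLinearGroup (Fin n) F, Commute ⁅b₂⁻¹ * b₁, b'⁆ b'' := by
    intro b' b''
    refine hker _ ?_ b''
    rw [map_commutatorElement, commutatorElement_eq_one_iff_commute, h3]
    exact (h₂ b').mul_left (h₁ b').inv_left
  obtain ⟨e, he0, he1⟩ := sl_scalar_ne h4
  refine ⟨e, he0, ?_⟩
  have h5 : b₁ = b₂ * (b₂⁻¹ * b₁) := by group
  rw [h5, Matrix.SpecialLinearGroup.coe_mul, he1, mul_smul_comm, mul_one]

/-- V = Fin n → F, a_h = the matrix b of a decomposition h T = σ b * c (a_g = 1 outside H). -/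
theorem LinCover.lcov (h : LinCover x S) : Nonempty (LCov x S) := by
  classical
  obtain ⟨H, T, hT, F, fld, n, σ, hx, hfin, hS, hcop, hord, hker, hdec, hsep⟩ := h
  choose B C hC hBC using hdec
  let bb : G → SpecialLinearGroup (Fin n) F := fun g =>
    if hg : g ∈ H then B (QuotientGroup.mk ⟨g, hg⟩) else 1
  have hbb : ∀ (g : G) (hg : g ∈ H), bb g = B (QuotientGroup.mk ⟨g, hg⟩) := fun g hg =>
    dif_pos hg
  refine ⟨{ H := H, fin := hfin, hx := hx, hS := hS, F := F, fld := fld, V := Fin n → F,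
            grp := inferInstance, mod := inferInstance, fd := inferInstance,
            a := fun g => slU (bb g), mul := ?_, sep := ?_, cop := hord, lift := ?_ }⟩
  · intro g hg h hh
    have hgh : g * h ∈ H := H.mul_mem hg hh
    have h1 : σ (bb (g * h)) * C (QuotientGroup.mk ⟨g * h, hgh⟩) =
        σ (bb g * bb h) * (C (QuotientGroup.mk ⟨g, hg⟩) * C (QuotientGroup.mk ⟨h, hh⟩)) := by
      have h2 := hBC (QuotientGroup.mk ⟨g * h, hgh⟩)
      rw [← hbb] at h2
      rw [← h2]
      have h3 : (QuotientGroup.mk ⟨g * h, hgh⟩ : H ⧸ T) =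
          QuotientGroup.mk ⟨g, hg⟩ * QuotientGroup.mk ⟨h, hh⟩ := rfl
      rw [h3]
      conv_lhs => rw [hBC (QuotientGroup.mk ⟨g, hg⟩), hBC (QuotientGroup.mk ⟨h, hh⟩)]
      rw [← hbb, ← hbb, map_mul]
      have h4 := (hC (QuotientGroup.mk ⟨g, hg⟩) (bb h)).eq
      simp only [mul_assoc]
      rw [← mul_assoc (C _) (σ (bb h)), h4]
      simp only [mul_assoc]
    obtain ⟨e, he0, he1⟩ := sl_decomp σ hker (hC _) (fun b' => (hC _ b').mul_left (hC _ b')) h1
    refine ⟨e, he0, ?_⟩
    rw [slU_val, slU_val, slU_val, he1, map_smul, Matrix.SpecialLinearGroup.coe_mul,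
      Matrix.toLin'_mul, Module.End.mul_eq_comp]
  · intro s hs hs1 c hc
    obtain ⟨b, hb⟩ := hsep ⟨s, hS s hs⟩ hs (fun h0 => hs1 (congrArg Subtype.val h0))
    apply hb
    have h1 : (bb s : Matrix (Fin n) (Fin n) F) = c • 1 := by
      apply Matrix.toLin'.injective
      rw [map_smul, Matrix.toLin'_one]
      exact hc
    have h2 : Commute (bb s) b := by
      apply Subtype.ext
      change (bb s : Matrix (Fin n) (Fin n) F) * (b : Matrix (Fin n) (Fin n) F) =
        (b : Matrix (Fin n) (Fin n) F) * (bb s : Matrix (Fin n) (Fin n) F)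
      rw [h1, smul_mul_assoc, mul_smul_comm, one_mul, mul_one]
    rw [hBC (QuotientGroup.mk ⟨s, hS s hs⟩), ← hbb]
    exact (h2.map σ).mul_left (hC _ b)
  · intro u hu hcu
    let U : SpecialLinearGroup (Fin n) F := ⟨LinearMap.toMatrix' u.val, by
      rw [← LinearMap.det_toLin', Matrix.toLin'_toMatrix']
      exact hu⟩
    have hU : Matrix.toLin' (U : Matrix (Fin n) (Fin n) F) = u.val := Matrix.toLin'_toMatrix' _
    have h1 : Commute U (bb x) := by
      apply Subtype.ext
      apply Matrix.toLin'.injective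
      change Matrix.toLin' ((U : Matrix (Fin n) (Fin n) F) * (bb x : Matrix (Fin n) (Fin n) F)) =
        Matrix.toLin' ((bb x : Matrix (Fin n) (Fin n) F) * (U : Matrix (Fin n) (Fin n) F))
      rw [Matrix.toLin'_mul, Matrix.toLin'_mul, hU]
      exact congrArg Units.val hcu.eq
    obtain ⟨h0, hh0⟩ := QuotientGroup.mk_surjective (σ U)
    have h2 : Commute (QuotientGroup.mk' T h0) (QuotientGroup.mk' T ⟨x, hx⟩) := by
      change Commute (QuotientGroup.mk h0 : H ⧸ T) (QuotientGroup.mk ⟨x, hx⟩)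
      rw [hh0, hBC (QuotientGroup.mk ⟨x, hx⟩), ← hbb]
      exact (h1.map σ).mul_right (hC _ U).symm
    obtain ⟨t, ht, hct⟩ := exists_commute_mul T (x := (⟨x, hx⟩ : H))
      (by rw [Subgroup.orderOf_mk]; exact hcop) (lift_mem_of_comm T h2)
    refine ⟨(h0 * t : H), (h0 * t).2, ?_, ?_⟩
    · exact congrArg Subtype.val hct.eq
    · have h3 : (QuotientGroup.mk (h0 * t) : H ⧸ T) = σ U := by
        rw [← hh0]
        exact QuotientGroup.mk_mul_of_mem h0 ht
      have h4 : σ (bb (h0 * t : H)) * C (QuotientGroup.mk (h0 * t)) = σ U * 1 := by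
        rw [hbb _ (h0 * t).2, mul_one, ← h3]
        exact (hBC _).symm
      obtain ⟨e, he0, he1⟩ := sl_decomp σ hker (hC _) (fun b' => Commute.one_left _) h4
      exact ⟨e, he0, by rw [slU_val, he1, map_smul, hU]⟩

end Pool.Agent.Lib.MP_b9166b_al.Ks
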