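import Mathlib

/-!
# The core for alternating covers: cycles of equal length
-/

set_option autoImplicit false

namespace Pool.Agent.Lib.MP_b9166b_al.Ks

open Equiv

section theta

variable {n l : ℕ} [NeZero l] {ι : Type} {u : Perm (Fin n)} {ω : ι → Fin n}

/-- the points of the cycles -/
def iotaG (u : Perm (Fin n)) (ω : ι → Fin n)
    (hl : ∀ i, Function.minimalPeriod u (ω i) = l)
    (hω : ∀ i j, u.SameCycle (ω i) (ω j) → i = j) : ι × ZMod l ↪ Fin n where
  toFun p := (u ^ p.2.val) (ω p.1)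
  inj' := by
    rintro ⟨i, t⟩ ⟨j, t'⟩ h
    simp only at h
    have h1 : i = j := by
      apply hω
      have h2 : u.SameCycle (ω i) ((u ^ t.val) (ω i)) := ⟨t.val, by rw [zpow_natCast]⟩
      have h3 : u.SameCycle (ω j) ((u ^ t'.val) (ω j)) := ⟨t'.val, by rw [zpow_natCast]⟩
      rw [h] at h2
      exact h2.trans h3.symm
    subst h1
    have h4 := Function.iterate_injOn_Iio_minimalPeriod (f := u) (x := ω i)
    have h5 : t.val = t'.val := by
      apply h4
      · rw [Set.mem_Iio, hl]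
        exact ZMod.val_lt t
      · rw [Set.mem_Iio, hl]
        exact ZMod.val_lt t'
      · simp only
        rw [Perm.iterate_eq_pow, Perm.iterate_eq_pow]
        exact h
    have h6 : t = t' := ZMod.val_injective l h5
    rw [h6]

theorem iotaG_apply (hl : ∀ i, Function.minimalPeriod u (ω i) = l)
    (hω : ∀ i j, u.SameCycle (ω i) (ω j) → i = j) (i : ι) (t : ZMod l) :
    iotaG u ω hl hω (i, t) = (u ^ t.val) (ω i) := rfl

theorem iotaG_zero (hl : ∀ i, Function.minimalPeriod u (ω i) = l)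
    (hω : ∀ i j, u.SameCycle (ω i) (ω j) → i = j) (i : ι) :
    iotaG u ω hl hω (i, 0) = ω i := by
  rw [iotaG_apply, ZMod.val_zero, pow_zero, Perm.one_apply]

theorem u_iotaG (hl : ∀ i, Function.minimalPeriod u (ω i) = l)
    (hω : ∀ i j, u.SameCycle (ω i) (ω j) → i = j) (i : ι) (t : ZMod l) :
    u (iotaG u ω hl hω (i, t)) = iotaG u ω hl hω (i, t + 1) := by
  rw [iotaG_apply, iotaG_apply]
  have h1 : (t + 1).val = (t.val + 1) % l := by
    rw [ZMod.val_add, ZMod.val_one_eq_one_mod, Nat.add_mod_mod]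
  have h2 : u ((u ^ t.val) (ω i)) = (u ^ (t.val + 1)) (ω i) := by
    rw [pow_succ', Perm.mul_apply]
  rw [h1, h2]
  have h3 := Function.iterate_mod_minimalPeriod_eq (f := u) (x := ω i) (n := t.val + 1)
  rw [hl, Perm.iterate_eq_pow, Perm.iterate_eq_pow] at h3
  exact h3.symm

/-- permutations of the cycles -/
noncomputable def thetaG (hl : ∀ i, Function.minimalPeriod u (ω i) = l)
    (hω : ∀ i j, u.SameCycle (ω i) (ω j) → i = j) : Perm ι →* Perm (Fin n) :=
  (Perm.viaEmbeddingHom (iotaG u ω hl hω)).comp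
    { toFun := fun σ => Equiv.prodCongr σ (Equiv.refl (ZMod l))
      map_one' := by
        ext x <;> rfl
      map_mul' := fun a b => by
        ext x <;> rfl }

theorem thetaG_iota (hl : ∀ i, Function.minimalPeriod u (ω i) = l)
    (hω : ∀ i j, u.SameCycle (ω i) (ω j) → i = j) (σ : Perm ι) (i : ι) (t : ZMod l) :
    thetaG hl hω σ (iotaG u ω hl hω (i, t)) = iotaG u ω hl hω (σ i, t) := by
  unfold thetaG
  rw [MonoidHom.comp_apply, Perm.viaEmbeddingHom_apply]
  exact Perm.viaEmbedding_apply _ _ _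

theorem thetaG_not (hl : ∀ i, Function.minimalPeriod u (ω i) = l)
    (hω : ∀ i j, u.SameCycle (ω i) (ω j) → i = j) (σ : Perm ι) {x : Fin n}
    (hx : x ∉ Set.range (iotaG u ω hl hω)) : thetaG hl hω σ x = x := by
  unfold thetaG
  rw [MonoidHom.comp_apply, Perm.viaEmbeddingHom_apply]
  exact Perm.viaEmbedding_apply_of_notMem _ _ _ hx

theorem thetaG_comm (hl : ∀ i, Function.minimalPeriod u (ω i) = l)
    (hω : ∀ i j, u.SameCycle (ω i) (ω j) → i = j) (σ : Perm ι) :
    Commute (thetaG hl hω σ) u := by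
  unfold Commute SemiconjBy
  ext1 x
  rw [Perm.mul_apply, Perm.mul_apply]
  by_cases hx : x ∈ Set.range (iotaG u ω hl hω)
  · obtain ⟨⟨i, t⟩, rfl⟩ := hx
    rw [u_iotaG, thetaG_iota, thetaG_iota, u_iotaG]
  · have hux : u x ∉ Set.range (iotaG u ω hl hω) := by
      rintro ⟨⟨i, t⟩, h⟩
      apply hx
      refine ⟨(i, t - 1), ?_⟩
      apply u.injective
      rw [u_iotaG, sub_add_cancel, h]
    rw [thetaG_not hl hω σ hx, thetaG_not hl hω σ hux]

end theta

/-- Permutations of cycles of equal length l with base points ω i (compare Comb.lean, theta, for Fin 5). -/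
theorem exists_cycle_rep' {n l : ℕ} {ι : Type} {u : Perm (Fin n)} (hl : 0 < l)
    {ω : ι → Fin n} (h1 : ∀ i, Function.minimalPeriod u (ω i) = l)
    (h2 : ∀ i j, u.SameCycle (ω i) (ω j) → i = j) :
    ∃ Θ : Perm ι →* Perm (Fin n), (∀ π i, Θ π (ω i) = ω (π i)) ∧ (∀ π, Commute (Θ π) u) ∧
      ∀ π z, (∀ i, ¬ u.SameCycle (ω i) z) → Θ π z = z := by
  have : NeZero l := ⟨hl.ne'⟩
  refine ⟨thetaG h1 h2, fun π i => ?_, fun π => thetaG_comm h1 h2 π, fun π z hz => ?_⟩
  · have h := thetaG_iota h1 h2 π i 0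
    rwa [iotaG_zero, iotaG_zero] at h
  · refine thetaG_not h1 h2 π ?_
    rintro ⟨⟨i, t⟩, h⟩
    refine hz i ⟨t.val, ?_⟩
    rw [zpow_natCast, ← iotaG_apply h1 h2]
    exact h

/-- Permutations of cycles of equal length l with base points ω i (compare Comb.lean, theta, for Fin 5). -/
theorem exists_cycle_rep {n l : ℕ} {ι : Type} [Finite ι] [DecidableEq ι] {u : Perm (Fin n)} (hl : 0 < l)
    {ω : ι → Fin n} (h1 : ∀ i, Function.minimalPeriod u (ω i) = l)
    (h2 : ∀ i j, u.SameCycle (ω i) (ω j) → i = j) :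
    ∃ Θ : Perm ι →* Perm (Fin n), (∀ π i, Θ π (ω i) = ω (π i)) ∧ (∀ π, Commute (Θ π) u) ∧
      ∀ π z, (∀ i, ¬ u.SameCycle (ω i) z) → Θ π z = z :=
  exists_cycle_rep' hl h1 h2

/-- A permutation commuting with `u` maps cycles to cycles. -/
theorem sameCycle_map {n : ℕ} {u y : Perm (Fin n)} (hyu : Commute y u) {a b : Fin n}
    (h : u.SameCycle a b) : u.SameCycle (y a) (y b) := by
  obtain ⟨k, hk⟩ := h
  refine ⟨k, ?_⟩
  have h1 : y * u ^ k = u ^ k * y := (hyu.zpow_right k).eq
  rw [← Perm.mul_apply, ← h1, Perm.mul_apply, hk]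

/-- The greedy choice. -/
theorem exists_subset {n : ℕ} {u y : Perm (Fin n)} (hyu : Commute y u) (Z : Finset (Fin n))
    (hZ1 : ∀ z ∈ Z, ∀ z' ∈ Z, u.SameCycle z z' → z = z')
    (hZy : ∀ z ∈ Z, ¬ u.SameCycle z (y z)) (t : ℕ) (ht : 3 * t ≤ Z.card) :
    ∃ W : Finset (Fin n), W ⊆ Z ∧ W.card = t ∧ ∀ a ∈ W, ∀ b ∈ W, ¬ u.SameCycle a (y⁻¹ b) := by
  classical
  induction t with
  | zero => exact ⟨∅, by simp, rfl, by simp⟩
  | succ t ih =>
    obtain ⟨W, hWZ, hWc, hW⟩ := ih (by omega)
    have hyy : ∀ z, y (y⁻¹ z) = z := fun z => y.apply_symm_apply z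
    have hself : ∀ z ∈ Z, ¬ u.SameCycle z (y⁻¹ z) := by
      intro z hz h
      have h1 := sameCycle_map hyu h
      rw [hyy] at h1
      exact hZy z hz h1.symm
    set B : Fin n → Finset (Fin n) := fun w =>
      (Z.filter fun z => z = w) ∪ ((Z.filter fun z => u.SameCycle z (y⁻¹ w)) ∪
        Z.filter fun z => u.SameCycle w (y⁻¹ z)) with hB
    have hB3 : ∀ w, (B w).card ≤ 3 := by
      intro w
      have h1 : (Z.filter fun z => z = w).card ≤ 1 := by
        rw [Finset.card_le_one]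
        intro a ha b hb
        rw [(Finset.mem_filter.1 ha).2, (Finset.mem_filter.1 hb).2]
      have h2 : (Z.filter fun z => u.SameCycle z (y⁻¹ w)).card ≤ 1 := by
        rw [Finset.card_le_one]
        intro a ha b hb
        rw [Finset.mem_filter] at ha hb
        exact hZ1 a ha.1 b hb.1 (ha.2.trans hb.2.symm)
      have h3 : (Z.filter fun z => u.SameCycle w (y⁻¹ z)).card ≤ 1 := by
        rw [Finset.card_le_one]
        intro a ha b hb
        rw [Finset.mem_filter] at ha hb
        have h4 := sameCycle_map hyu ha.2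
        have h5 := sameCycle_map hyu hb.2
        rw [hyy] at h4 h5
        exact hZ1 a ha.1 b hb.1 (h4.symm.trans h5)
      have h4 := Finset.card_union_le (Z.filter fun z => z = w)
        ((Z.filter fun z => u.SameCycle z (y⁻¹ w)) ∪ Z.filter fun z => u.SameCycle w (y⁻¹ z))
      have h5 := Finset.card_union_le (Z.filter fun z => u.SameCycle z (y⁻¹ w))
        (Z.filter fun z => u.SameCycle w (y⁻¹ z))
      rw [hB]
      simp only
      omega
    have hcard : (W.biUnion B).card < Z.card := by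
      have h1 : (W.biUnion B).card ≤ W.card * 3 :=
        Finset.card_biUnion_le_card_mul _ _ _ fun w _ => hB3 w
      rw [hWc] at h1
      omega
    obtain ⟨z, hzZ, hzB⟩ := Finset.exists_mem_notMem_of_card_lt_card hcard
    have hz : ∀ w ∈ W, z ≠ w ∧ ¬ u.SameCycle z (y⁻¹ w) ∧ ¬ u.SameCycle w (y⁻¹ z) := by
      intro w hw
      refine ⟨fun h => ?_, fun h => ?_, fun h => ?_⟩
      · exact hzB (Finset.mem_biUnion.2 ⟨w, hw, Finset.mem_union_left _
          (Finset.mem_filter.2 ⟨hzZ, h⟩)⟩)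
      · exact hzB (Finset.mem_biUnion.2 ⟨w, hw, Finset.mem_union_right _
          (Finset.mem_union_left _ (Finset.mem_filter.2 ⟨hzZ, h⟩))⟩)
      · exact hzB (Finset.mem_biUnion.2 ⟨w, hw, Finset.mem_union_right _
          (Finset.mem_union_right _ (Finset.mem_filter.2 ⟨hzZ, h⟩))⟩)
    refine ⟨insert z W, ?_, ?_, ?_⟩
    · intro a ha
      rcases Finset.mem_insert.1 ha with rfl | ha
      · exact hzZ
      · exact hWZ ha
    · rw [Finset.card_insert_of_notMem (fun h => (hz z h).1 rfl), hWc]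
    · intro a ha b hb
      rcases Finset.mem_insert.1 ha with rfl | ha'
      · rcases Finset.mem_insert.1 hb with rfl | hb'
        · exact hself _ hzZ
        · exact (hz b hb').2.1
      · rcases Finset.mem_insert.1 hb with rfl | hb'
        · exact (hz a ha').2.2
        · exact hW a ha' b hb'

/-- Many moved cycles of equal length: t of them, pairwise different, such that y⁻¹ maps none of them to one
of them. Z = a set of representatives of the cycles of length l moved by y. Greedy: choosing one cycle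
excludes at most three. -/
theorem exists_cycles {n : ℕ} {u y : Perm (Fin n)} (hyu : Commute y u) (l t : ℕ) (Z : Finset (Fin n))
    (hZl : ∀ z ∈ Z, Function.minimalPeriod u z = l)
    (hZ1 : ∀ z ∈ Z, ∀ z' ∈ Z, u.SameCycle z z' → z = z')
    (hZy : ∀ z ∈ Z, ¬ u.SameCycle z (y z)) (ht : 3 * t ≤ Z.card) :
    ∃ ω : Fin t → Fin n, (∀ i, Function.minimalPeriod u (ω i) = l) ∧
      (∀ i j, u.SameCycle (ω i) (ω j) → i = j) ∧ ∀ i j, ¬ u.SameCycle (ω i) (y⁻¹ (ω j)) := by
  obtain ⟨W, hWZ, hWc, hW⟩ := exists_subset hyu Z hZ1 hZy t ht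
  let e := W.equivFinOfCardEq hWc
  refine ⟨fun i => (e.symm i : Fin n), fun i => hZl _ (hWZ (e.symm i).2), fun i j h => ?_,
    fun i j => hW _ (e.symm i).2 _ (e.symm j).2⟩
  exact e.symm.injective (Subtype.ext (hZ1 _ (hWZ (e.symm i).2) _ (hWZ (e.symm j).2) h))

end Pool.Agent.Lib.MP_b9166b_al.Ks
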