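import Mathlib

/-!
# Vectors v_i such that v_i and y⁻¹ v_i are independent

Greedy: let v_1 .. v_s be chosen, D = span of the v_i and y⁻¹ v_i, dim D = 2s < 2t. Suppose for no v the
vectors v, y⁻¹ v are independent modulo D. With f = mkQ D, g = mkQ D ∘ y⁻¹ : W → W / D, f is onto, dim W / D ≥ 2
and f v, g v are dependent for all v; so g = c f (lemma smul_of_dep), i.e. y⁻¹ v - c v in D for all v, so
c ≠ 0 (dim D < dim W) and the range of y - c⁻¹ is in y D, of dimension ≤ 2s < 2t.
-/

set_option autoImplicit false

namespace Pool.Agent.Lib.MP_b9166b_al.Ks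

private theorem pair_dep {E V : Type} [Field E] [AddCommGroup V] [Module E V] {x y : V}
    (hx : x ≠ 0) (h : ¬ LinearIndependent E ![x, y]) : ∃ a : E, y = a • x := by
  rw [LinearIndependent.pair_iff' hx] at h
  push Not at h
  obtain ⟨a, ha⟩ := h
  exact ⟨a, ha.symm⟩

/-- f onto, dim U ≥ 2, f v and g v dependent for every v: g = c f. (If f v = 0 and g v ≠ 0 take w with f w
not in the span of g v and not 0: f (v + w) = f w and g (v + w) = g v + g w; g w is in span (f w) as well, so
g v is in span (f w), contradiction. So g factors through f, u ↦ g(u) is in span u for all u, so it is a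
scalar.) -/
theorem smul_of_dep {E W U : Type} [Field E] [AddCommGroup W] [Module E W] [AddCommGroup U]
    [Module E U] (f g : W →ₗ[E] U) (hf : Function.Surjective f) (hU : 2 ≤ Module.rank E U)
    (h : ∀ v, ¬ LinearIndependent E ![f v, g v]) : ∃ c : E, g = c • f := by
  have h1 : ∀ v, f v = 0 → g v = 0 := by
    intro v hv
    by_contra hg
    have h2 : ∃ u : U, u ∉ Submodule.span E {g v} := by
      by_contra hc
      push Not at hc
      have h3 : Submodule.span E {g v} = ⊤ := eq_top_iff.2 fun u _ => hc u
      have h4 : Module.rank E U ≤ 1 := by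
        rw [← rank_top, ← h3]
        refine (rank_span_le _).trans ?_
        simp
      have h5 := hU.trans h4
      exact absurd h5 (by norm_num)
    obtain ⟨u, hu⟩ := h2
    obtain ⟨w, hw⟩ := hf u
    have hu0 : u ≠ 0 := fun h0 => hu (by rw [h0]; exact Submodule.zero_mem _)
    obtain ⟨a, ha⟩ := pair_dep (by rw [hw]; exact hu0) (h w)
    obtain ⟨b, hb⟩ := pair_dep (by rw [map_add, hv, zero_add, hw]; exact hu0) (h (v + w))
    rw [map_add, map_add, hv, zero_add, ha, hw] at hb
    have hgv : g v = (b - a) • u := by rw [sub_smul, ← hb, add_sub_cancel_right]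
    have hba : b - a ≠ 0 := fun h0 => hg (by rw [hgv, h0, zero_smul])
    refine hu (Submodule.mem_span_singleton.2 ⟨(b - a)⁻¹, ?_⟩)
    rw [hgv, smul_smul, inv_mul_cancel₀ hba, one_smul]
  obtain ⟨s, hs⟩ := f.exists_rightInverse_of_surjective (LinearMap.range_eq_top.2 hf)
  have hs' : ∀ u, f (s u) = u := fun u => LinearMap.congr_fun hs u
  obtain ⟨c, hc⟩ := LinearMap.exists_eq_smul_id_of_forall_notLinearIndependent (R := E)
    (f := g ∘ₗ s) fun u => by
      have := h (s u)
      rw [hs' u] at this
      exact this
  refine ⟨c, LinearMap.ext fun w => ?_⟩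
  have h2 : g (w - s (f w)) = 0 := h1 _ (by rw [map_sub, hs', sub_self])
  rw [map_sub, sub_eq_zero] at h2
  have h3 := LinearMap.congr_fun hc (f w)
  rw [LinearMap.comp_apply, ← h2] at h3
  rw [h3]
  rfl

theorem exists_indep {E W : Type} [Field E] [AddCommGroup W] [Module E W] [FiniteDimensional E W]
    (y : (W →ₗ[E] W)ˣ) (t : ℕ) (h1 : 2 * t ≤ Module.finrank E W)
    (h2 : ∀ c : E, 2 * t ≤ Module.finrank E (LinearMap.range (y.val - c • 1))) :
    ∃ v : Fin t → W, LinearIndependent E (Sum.elim v (fun i => (y⁻¹).val (v i))) := by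
  have hy1 : ∀ w : W, (y⁻¹).val (y.val w) = w := fun w => by
    rw [← Module.End.mul_apply, Units.inv_mul, Module.End.one_apply]
  have key : ∀ s : ℕ, s ≤ t →
      ∃ v : Fin s → W, LinearIndependent E (Sum.elim v (fun i => (y⁻¹).val (v i))) := by
    intro s
    induction s with
    | zero => exact fun _ => ⟨Fin.elim0, linearIndependent_empty_type⟩
    | succ s ih =>
      intro hs
      obtain ⟨v, hv⟩ := ih (by omega)
      set D : Submodule E W := Submodule.span E (Set.range (Sum.elim v fun i => (y⁻¹).val (v i)))
        with hD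
      have hDr : Module.finrank E D = 2 * s := by
        rw [hD, finrank_span_eq_card hv]
        simp [two_mul]
      have hex : ∃ x : W, LinearIndependent E ![D.mkQ x, D.mkQ ((y⁻¹).val x)] := by
        by_contra hc
        push Not at hc
        obtain ⟨c, hc'⟩ := smul_of_dep D.mkQ (D.mkQ ∘ₗ (y⁻¹).val) (Submodule.mkQ_surjective D)
          (by
            have h3 := Submodule.finrank_quotient_add_finrank D
            have h4 : 2 ≤ Module.finrank E (W ⧸ D) := by omega
            rw [← Module.finrank_eq_rank]
            exact_mod_cast h4) hc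
        have hc2 : ∀ u : W, (y⁻¹).val u - c • u ∈ D := by
          intro u
          have := LinearMap.congr_fun hc' u
          rw [LinearMap.comp_apply, LinearMap.smul_apply, ← map_smul, ← sub_eq_zero, ← map_sub,
            Submodule.mkQ_apply, Submodule.Quotient.mk_eq_zero] at this
          exact this
        have hc0 : c ≠ 0 := by
          rintro rfl
          have : D = ⊤ := by
            refine eq_top_iff.2 fun u _ => ?_
            have h3 := hc2 (y.val u)
            rwa [hy1, zero_smul, sub_zero] at h3
          rw [this, finrank_top] at hDr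
          omega
        have hr : LinearMap.range (y.val - c⁻¹ • 1) ≤ D := by
          rintro _ ⟨u, rfl⟩
          have h3 := D.smul_mem (-c⁻¹) (hc2 (y.val u))
          rw [hy1, smul_sub, smul_smul, neg_mul, inv_mul_cancel₀ hc0, neg_smul, neg_smul,
            one_smul] at h3
          rw [LinearMap.sub_apply, LinearMap.smul_apply, Module.End.one_apply]
          have e : y.val u - c⁻¹ • u = -(c⁻¹ • u) - -(y.val u) := by abel
          rw [e]
          exact h3
        have h3 := Submodule.finrank_mono hr
        have h4 := h2 c⁻¹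
        omega
      obtain ⟨x, hx⟩ := hex
      refine ⟨Fin.snoc v x, ?_⟩
      rw [Fintype.linearIndependent_iff]
      intro g hg
      rw [Fintype.sum_sum_type, Fin.sum_univ_castSucc, Fin.sum_univ_castSucc] at hg
      simp only [Sum.elim_inl, Sum.elim_inr, Fin.snoc_castSucc, Fin.snoc_last] at hg
      have hm : ∑ i : Fin s, g (Sum.inl i.castSucc) • v i +
          ∑ i : Fin s, g (Sum.inr i.castSucc) • (y⁻¹).val (v i) ∈ D := by
        refine D.add_mem (D.sum_mem fun i _ => D.smul_mem _ (Submodule.subset_span ⟨Sum.inl i, rfl⟩))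
          (D.sum_mem fun i _ => D.smul_mem _ (Submodule.subset_span ⟨Sum.inr i, rfl⟩))
      have hq : g (Sum.inl (Fin.last s)) • D.mkQ x + g (Sum.inr (Fin.last s)) •
          D.mkQ ((y⁻¹).val x) = 0 := by
        rw [← map_smul, ← map_smul, ← map_add, Submodule.mkQ_apply,
          Submodule.Quotient.mk_eq_zero]
        have e : g (Sum.inl (Fin.last s)) • x + g (Sum.inr (Fin.last s)) • (y⁻¹).val x =
            -(∑ i : Fin s, g (Sum.inl i.castSucc) • v i +
              ∑ i : Fin s, g (Sum.inr i.castSucc) • (y⁻¹).val (v i)) := by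
          rw [eq_neg_iff_add_eq_zero, ← hg]
          abel
        rw [e]
        exact D.neg_mem hm
      have h00 := LinearIndependent.pair_iff.1 hx _ _ hq
      rw [h00.1, h00.2, zero_smul, zero_smul, add_zero, add_zero] at hg
      rw [Fintype.linearIndependent_iff] at hv
      have hv' := hv (Sum.elim (fun i => g (Sum.inl i.castSucc))
        fun i => g (Sum.inr i.castSucc)) (by
          rw [Fintype.sum_sum_type]
          simpa using hg)
      rintro (i | i)
      · refine Fin.lastCases h00.1 (fun j => ?_) i
        exact hv' (Sum.inl j)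
      · refine Fin.lastCases h00.2 (fun j => ?_) i
        exact hv' (Sum.inr j)
  exact key t le_rfl

private theorem sumExtend_inl {E W ι : Type} [Field E] [AddCommGroup W] [Module E W]
    (w : ι → W) (hw : LinearIndependent E w) (i : ι) :
    Module.Basis.sumExtend hw (Sum.inl i) = w i := by
  rw [Module.Basis.sumExtend, Module.Basis.reindex_apply, Module.Basis.extend_apply_self]
  classical
  exact congrArg Subtype.val
    (Equiv.Set.sumDiffSubset_apply_inl (hw.linearIndepOn_id.subset_extend (Set.subset_univ _))
      ⟨w i, ⟨i, rfl⟩⟩)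

/-- Permutations of the first part of an independent family (extend w to a basis). -/
theorem exists_perm_rep {E W ι κ : Type} [Field E] [AddCommGroup W] [Module E W]
    (w : ι ⊕ κ → W) (hw : LinearIndependent E w) :
    ∃ Θ : Equiv.Perm ι →* (W →ₗ[E] W)ˣ,
      (∀ (π : Equiv.Perm ι) (i : ι), (Θ π).val (w (Sum.inl i)) = w (Sum.inl (π i))) ∧
      ∀ (π : Equiv.Perm ι) (j : κ), (Θ π).val (w (Sum.inr j)) = w (Sum.inr j) := by
  set b := Module.Basis.sumExtend hw with hb
  have hbw : ∀ x, b (Sum.inl x) = w x := fun x => sumExtend_inl w hw x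
  let F : Equiv.Perm ι →* (W →ₗ[E] W) :=
    { toFun := fun π => b.constr ℕ fun x => b (Sum.map (Sum.map π id) id x)
      map_one' := by
        refine b.ext fun x => ?_
        rw [Module.Basis.constr_basis]
        rcases x with (x | x) | x <;> rfl
      map_mul' := fun π ρ => by
        refine b.ext fun x => ?_
        rw [Module.End.mul_apply, Module.Basis.constr_basis, Module.Basis.constr_basis,
          Module.Basis.constr_basis]
        rcases x with (x | x) | x <;> rfl }
  have hF : ∀ π x, F π (b x) = b (Sum.map (Sum.map π id) id x) := fun π x =>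
    Module.Basis.constr_basis _ _ _ _
  refine ⟨F.toHomUnits, fun π i => ?_, fun π j => ?_⟩
  · rw [MonoidHom.coe_toHomUnits, ← hbw, hF, ← hbw]
    rfl
  · rw [MonoidHom.coe_toHomUnits, ← hbw, hF]
    rfl

end Pool.Agent.Lib.MP_b9166b_al.Ks
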