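import Mathlib

/-!
# The Heisenberg group mod r as a permutation group
-/

set_option autoImplicit false

namespace Pool.Agent.Lib.MP_b9166b_al.Ks

/-- (a, b) ↦ (a + 1, b) -/
def hp (r : ℕ) : Equiv.Perm (ZMod r × ZMod r) where
  toFun p := (p.1 + 1, p.2)
  invFun p := (p.1 - 1, p.2)
  left_inv p := by simp
  right_inv p := by simp

/-- (a, b) ↦ (a, b + a) -/
def hq (r : ℕ) : Equiv.Perm (ZMod r × ZMod r) where
  toFun p := (p.1, p.2 + p.1)
  invFun p := (p.1, p.2 - p.1)
  left_inv p := by simp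
  right_inv p := by simp

/-- The maps (a, b) ↦ (a + i, b + j a + k). -/
private def heisG (r : ℕ) : Subgroup (Equiv.Perm (ZMod r × ZMod r)) where
  carrier := {f | ∃ i j k : ZMod r, ∀ p, f p = (p.1 + i, p.2 + j * p.1 + k)}
  one_mem' := ⟨0, 0, 0, fun p => by simp⟩
  mul_mem' := by
    rintro f g ⟨i, j, k, hf⟩ ⟨i', j', k', hg⟩
    refine ⟨i' + i, j' + j, k' + j * i' + k, fun p => ?_⟩
    rw [Equiv.Perm.mul_apply, hg, hf]
    ext
    · simp only
      ring
    · simp only
      ring
  inv_mem' := by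
    rintro f ⟨i, j, k, hf⟩
    refine ⟨-i, -j, j * i - k, fun p => ?_⟩
    rw [Equiv.Perm.inv_eq_iff_eq, hf]
    ext
    · simp only
      ring
    · simp only
      ring

private theorem heis_pow (r : ℕ) {f : Equiv.Perm (ZMod r × ZMod r)} {i j k : ZMod r}
    (hf : ∀ p, f p = (p.1 + i, p.2 + j * p.1 + k)) (n : ℕ) :
    ∃ c : ZMod r, ∀ p, (f ^ n) p = (p.1 + n * i, p.2 + n * (j * p.1 + k) + c) := by
  induction n with
  | zero => exact ⟨0, fun p => by simp⟩
  | succ n ih =>
    obtain ⟨c, hc⟩ := ih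
    refine ⟨c + j * (n * i), fun p => ?_⟩
    rw [pow_succ', Equiv.Perm.mul_apply, hc, hf]
    ext
    · simp only
      push_cast
      ring
    · simp only
      push_cast
      ring

private theorem heis_tr (r : ℕ) {f : Equiv.Perm (ZMod r × ZMod r)} {c : ZMod r}
    (hf : ∀ p, f p = (p.1, p.2 + c)) (n : ℕ) : ∀ p, (f ^ n) p = (p.1, p.2 + n * c) := by
  induction n with
  | zero => intro p; simp
  | succ n ih =>
    intro p
    rw [pow_succ', Equiv.Perm.mul_apply, ih, hf]
    ext
    · rfl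
    · simp only
      push_cast
      ring

/-- Every element of the group is of the form (a, b) ↦ (a + i, b + j a + k); its r-th power fixes a and
translates b by a constant (which does not depend on a when r is odd; in any case the r-th power is
(a, b) ↦ (a, b + k') with k' independent of a), so the r^2-th power is 1. -/
theorem isPGroup_heis (r : ℕ) [Fact r.Prime] :
    IsPGroup r (Subgroup.closure {hp r, hq r} : Subgroup (Equiv.Perm (ZMod r × ZMod r))) := by
  have hle : Subgroup.closure {hp r, hq r} ≤ heisG r := by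
    rw [Subgroup.closure_le]
    rintro f (rfl | rfl)
    · exact ⟨1, 0, 0, fun p => by simp [hp]⟩
    · exact ⟨0, 1, 0, fun p => by simp [hq]⟩
  rintro ⟨f, hf⟩
  refine ⟨2, Subtype.ext ?_⟩
  obtain ⟨i, j, k, hf⟩ := hle hf
  obtain ⟨c, hc⟩ := heis_pow r hf r
  have h1 : ∀ p, (f ^ r) p = (p.1, p.2 + c) := by
    intro p
    rw [hc]
    simp
  have h2 := heis_tr r h1 r
  change f ^ r ^ 2 = 1
  rw [pow_two, pow_mul]
  ext1 p
  rw [h2]
  simp

theorem not_commute_heis (r : ℕ) [Fact r.Prime] : ¬ Commute (hp r) (hq r) := by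
  intro h
  have h1 := congrArg (fun f : Equiv.Perm (ZMod r × ZMod r) => (f (0, 0)).2) h.eq
  simp [hp, hq, Equiv.Perm.mul_apply] at h1

end Pool.Agent.Lib.MP_b9166b_al.Ks
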