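import Mathlib

/-!
# Two operators which commute up to a root of unity of prime order
-/

set_option autoImplicit false

namespace Pool.Agent.Lib.MP_b9166b_al.Ks

open scoped commutatorElement

/-- The case of an algebraically closed field. -/
theorem rgrpB_closed {E W : Type} [Field E] [IsAlgClosed E] [AddCommGroup W] [Module E W]
    [FiniteDimensional E W] [Nontrivial W] {r : ℕ} [Fact r.Prime] (G H Z : Module.End E W)
    (hG : IsUnit G) (hH : IsUnit H) (hZ : IsUnit (1 - Z)) (hr : Z ^ r = 1)
    (hGH : G * H = Z * (H * G)) (c1 : Commute Z G) (c2 : Commute Z H) :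
    r ≤ Module.finrank E W := by
  obtain ⟨ζ, hζ⟩ := Module.End.exists_eigenvalue Z
  obtain ⟨v, hv⟩ := hζ.exists_hasEigenvector
  have hGi : Function.Injective G := LinearMap.ker_eq_bot.1 ((LinearMap.isUnit_iff_ker_eq_bot G).1 hG)
  have hHi : Function.Injective H := LinearMap.ker_eq_bot.1 ((LinearMap.isUnit_iff_ker_eq_bot H).1 hH)
  have hZi : Function.Injective (1 - Z : Module.End E W) :=
    LinearMap.ker_eq_bot.1 ((LinearMap.isUnit_iff_ker_eq_bot (1 - Z)).1 hZ)
  have hζr : ζ ^ r = 1 := by
    have h1 := hv.pow_apply r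
    rw [hr, Module.End.one_apply] at h1
    have h2 : (ζ ^ r - 1) • v = 0 := by rw [sub_smul, one_smul, ← h1, sub_self]
    rcases smul_eq_zero.1 h2 with h3 | h3
    · exact sub_eq_zero.1 h3
    · exact absurd h3 hv.2
  have hζ1 : ζ ≠ 1 := by
    intro h
    apply hv.2
    apply hZi
    rw [map_zero, LinearMap.sub_apply, Module.End.one_apply, hv.apply_eq_smul, h, one_smul,
      sub_self]
  have hD : ∀ (F : Module.End E W), Commute Z F → ∀ v ∈ Module.End.eigenspace Z ζ,
      F v ∈ Module.End.eigenspace Z ζ := by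
    intro F hF v hv
    rw [Module.End.mem_eigenspace_iff] at hv ⊢
    have h1 : Z (F v) = F (Z v) := LinearMap.congr_fun hF.eq v
    rw [h1, hv, map_smul]
  have hdet : ∀ (F : Module.End E W) (hF : Commute Z F), Function.Injective F →
      LinearMap.det (F.restrict (hD F hF)) ≠ 0 := by
    intro F hF hFi
    have h1 : IsUnit (F.restrict (hD F hF)) := by
      rw [LinearMap.isUnit_iff_ker_eq_bot, LinearMap.ker_eq_bot]
      intro x y hxy
      apply Subtype.ext
      apply hFi
      exact congrArg Subtype.val hxy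
    exact (LinearMap.isUnit_det _ h1).ne_zero
  have h1 := hdet G c1 hGi
  have h2 := hdet H c2 hHi
  have h3 : G.restrict (hD G c1) * H.restrict (hD H c2) =
      ζ • (H.restrict (hD H c2) * G.restrict (hD G c1)) := by
    refine LinearMap.ext fun x => Subtype.ext ?_
    have h4 : G (H x) = Z (H (G x)) := LinearMap.congr_fun hGH (x : W)
    have h5 := Module.End.mem_eigenspace_iff.1 (hD H c2 _ (hD G c1 _ x.2))
    exact h4.trans h5
  have h6 := congrArg LinearMap.det h3
  rw [map_mul, LinearMap.det_smul, map_mul] at h6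
  have h7 : ζ ^ Module.finrank E (Module.End.eigenspace Z ζ) = 1 := by
    apply mul_right_cancel₀ (mul_ne_zero h2 h1)
    rw [← h6, one_mul, mul_comm]
  have h8 : orderOf ζ = r := orderOf_eq_prime hζr hζ1
  have h9 : r ∣ Module.finrank E (Module.End.eigenspace Z ζ) := by
    rw [← h8]
    exact orderOf_dvd_of_pow_eq_one h7
  have h10 : 0 < Module.finrank E (Module.End.eigenspace Z ζ) := by
    have : Nontrivial (Module.End.eigenspace Z ζ) := ⟨⟨v, hv.1⟩, 0, fun h => hv.2
      (congrArg Subtype.val h)⟩
    exact Module.finrank_pos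
  exact (Nat.le_of_dvd h10 h9).trans (Submodule.finrank_le _)

open TensorProduct in
/-- Any field. -/
theorem rgrpB_any {K W : Type} [Field K] [AddCommGroup W] [Module K W]
    [FiniteDimensional K W] [Nontrivial W] {r : ℕ} [Fact r.Prime] (G H Z : Module.End K W)
    (hG : IsUnit G) (hH : IsUnit H) (hZ : IsUnit (1 - Z)) (hr : Z ^ r = 1)
    (hGH : G * H = Z * (H * G)) (c1 : Commute Z G) (c2 : Commute Z H) :
    r ≤ Module.finrank K W := by
  set B := Module.End.baseChangeHom K (AlgebraicClosure K) W with hB
  have hfr : Module.finrank (AlgebraicClosure K) (AlgebraicClosure K ⊗[K] W) =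
      Module.finrank K W := Module.finrank_baseChange
  have hnt : Nontrivial (AlgebraicClosure K ⊗[K] W) := by
    apply Module.nontrivial_of_finrank_pos (R := AlgebraicClosure K)
    rw [hfr]
    exact Module.finrank_pos
  rw [← hfr]
  refine rgrpB_closed (B G) (B H) (B Z) (hG.map B) (hH.map B) ?_ ?_ ?_ (c1.map B) (c2.map B)
  · have h1 : 1 - B Z = B (1 - Z) := by rw [map_sub, map_one]
    rw [h1]
    exact hZ.map B
  · rw [← map_pow, hr, map_one]
  · rw [← map_mul, hGH, map_mul, map_mul]

/-- The third theorem of RGrp.lean. -/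
theorem rgrpB_main {K V : Type} [Field K] [AddCommGroup V] [Module K V] {r : ℕ}
    [Fact r.Prime] (hr : (r : K) ≠ 0) {g h : (V →ₗ[K] V)ˣ} (hg : Commute ⁅g, h⁆ g)
    (hh : Commute ⁅g, h⁆ h) (ho : orderOf ⁅g, h⁆ = r) (U : Submodule K V)
    [FiniteDimensional K U] (hU : LinearMap.range (1 - (⁅g, h⁆ : (V →ₗ[K] V)ˣ).val) ≤ U) :
    r ≤ Module.finrank K U := by
  set z : (V →ₗ[K] V)ˣ := ⁅g, h⁆ with hz
  have hfin : FiniteDimensional K (LinearMap.range (1 - z.val)) :=
    Submodule.finiteDimensional_of_le hU
  refine le_trans ?_ (Submodule.finrank_mono hU)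
  have hzr : z ^ r = 1 := by rw [← ho, pow_orderOf_eq_one]
  have hz1 : z ≠ 1 := by
    intro h1
    rw [h1, orderOf_one] at ho
    exact (Fact.out : r.Prime).one_lt.ne ho
  -- operators commuting with `z` act on the range
  have hst : ∀ f : (V →ₗ[K] V)ˣ, Commute z f → ∀ v ∈ LinearMap.range (1 - z.val),
      f.val v ∈ LinearMap.range (1 - z.val) := by
    rintro f hf _ ⟨w, rfl⟩
    refine ⟨f.val w, ?_⟩
    have h1 : z.val (f.val w) = f.val (z.val w) :=
      LinearMap.congr_fun (congrArg Units.val hf.eq) w
    rw [LinearMap.sub_apply, LinearMap.sub_apply, h1, map_sub]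
    rfl
  have hzinj : ∀ v ∈ LinearMap.range (1 - z.val), z.val v = v → v = 0 := by
    rintro _ ⟨w, rfl⟩ h1
    set v := (1 - z.val) w with hv
    have h2 : ∀ n : ℕ, (z.val ^ n) v = v := by
      intro n
      induction n with
      | zero => rfl
      | succ n ih => rw [pow_succ, Module.End.mul_apply, h1, ih]
    have h3 : (∑ i ∈ Finset.range r, z.val ^ i) v = (r : K) • v := by
      rw [LinearMap.sum_apply, Finset.sum_congr rfl fun i _ => h2 i, Finset.sum_const,
        Finset.card_range, Nat.cast_smul_eq_nsmul]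
    have h4 : (∑ i ∈ Finset.range r, z.val ^ i) * (1 - z.val) = 0 := by
      rw [geom_sum_mul_neg, ← Units.val_pow_eq_pow_val, hzr, Units.val_one, sub_self]
    have h5 : (∑ i ∈ Finset.range r, z.val ^ i) v = 0 := by
      rw [hv]
      exact LinearMap.congr_fun h4 w
    rw [h3] at h5
    exact (smul_eq_zero.1 h5).resolve_left hr
  have hunit : ∀ (f : (V →ₗ[K] V)ˣ) (hf : Commute z f),
      IsUnit (f.val.restrict (hst f hf)) := by
    intro f hf
    rw [LinearMap.isUnit_iff_ker_eq_bot, LinearMap.ker_eq_bot]
    intro x y hxy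
    apply Subtype.ext
    have h1 : f.val x = f.val y := congrArg Subtype.val hxy
    have h2 := congrArg (f⁻¹).val h1
    have h3 : ∀ v, (f⁻¹).val (f.val v) = v := fun v => by
      rw [← Module.End.mul_apply, Units.inv_mul, Module.End.one_apply]
    rwa [h3, h3] at h2
  have hne : Nontrivial (LinearMap.range (1 - z.val)) := by
    by_contra hcon
    apply hz1
    rw [not_nontrivial_iff_subsingleton] at hcon
    apply Units.ext
    refine LinearMap.ext fun v => ?_
    have h1 : (⟨(1 - z.val) v, v, rfl⟩ : LinearMap.range (1 - z.val)) = 0 :=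
      Subsingleton.elim _ _
    have h2 := congrArg Subtype.val h1
    have h3 : v - z.val v = 0 := h2
    rw [Units.val_one, Module.End.one_apply]
    exact (sub_eq_zero.1 h3).symm
  refine rgrpB_any (g.val.restrict (hst g hg)) (h.val.restrict (hst h hh))
    (z.val.restrict (hst z (Commute.refl z))) (hunit g hg) (hunit h hh) ?_ ?_ ?_ ?_ ?_
  · rw [LinearMap.isUnit_iff_ker_eq_bot, LinearMap.ker_eq_bot']
    intro x hx
    apply Subtype.ext
    apply hzinj _ x.2
    have h1 := congrArg Subtype.val hx
    have h2 : (x : V) - z.val x = 0 := h1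
    exact (sub_eq_zero.1 h2).symm
  · refine LinearMap.ext fun x => Subtype.ext ?_
    have h1 : ∀ n : ℕ, (((z.val.restrict (hst z (Commute.refl z)) ^ n) x :
        LinearMap.range (1 - z.val)) : V) = (z.val ^ n) x := by
      intro n
      induction n with
      | zero => rfl
      | succ n ih =>
        rw [pow_succ', pow_succ', Module.End.mul_apply, Module.End.mul_apply, ← ih]
        rfl
    rw [h1, ← Units.val_pow_eq_pow_val, hzr]
    rfl
  · refine LinearMap.ext fun x => Subtype.ext ?_
    have h1 : g * h = z * (h * g) := by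
      rw [hz, commutatorElement_def]
      group
    exact LinearMap.congr_fun (congrArg Units.val h1) (x : V)
  · refine LinearMap.ext fun x => Subtype.ext ?_
    exact LinearMap.congr_fun (congrArg Units.val hg.eq) (x : V)
  · refine LinearMap.ext fun x => Subtype.ext ?_
    exact LinearMap.congr_fun (congrArg Units.val hh.eq) (x : V)

end Pool.Agent.Lib.MP_b9166b_al.Ks
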