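import Pool.Agent.Lib.MP_b9166b_al.Ks.RGrpA
import Pool.Agent.Lib.MP_b9166b_al.Ks.RGrpB

/-!
# Nonabelian r-groups need dimension r
-/

set_option autoImplicit false

namespace Pool.Agent.Lib.MP_b9166b_al.Ks

open scoped commutatorElement

/-- z = [g, h], z^r = 1, z ≠ 1, z commutes with g and h. U' = range (1 - z) is finite dimensional, not 0,
stable under g, h, z, and z - 1 is bijective on U' (r ≠ 0 in K). Over the algebraic closure of K (matrices of
g, h, z on U') z has an eigenvalue ζ, ζ^r = 1, ζ ≠ 1; on the eigenspace D of ζ (stable under g, h) one has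
g h = ζ h g, so det g det h = ζ^(dim D) det h det g, so r divides dim D, 0 < dim D ≤ dim U' ≤ dim U. -/
theorem le_finrank_of_comm {K V : Type} [Field K] [AddCommGroup V] [Module K V] {r : ℕ}
    [Fact r.Prime] (hr : (r : K) ≠ 0) {g h : (V →ₗ[K] V)ˣ} (hg : Commute ⁅g, h⁆ g)
    (hh : Commute ⁅g, h⁆ h) (ho : orderOf ⁅g, h⁆ = r) (U : Submodule K V)
    [FiniteDimensional K U] (hU : LinearMap.range (1 - (⁅g, h⁆ : (V →ₗ[K] V)ˣ).val) ≤ U) :
    r ≤ Module.finrank K U :=
  rgrpB_main hr hg hh ho U hU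

end Pool.Agent.Lib.MP_b9166b_al.Ks
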