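import Pool.Agent.Lib.MP_b9166b_al.Ks.Defs
import Pool.Agent.Lib.MP_b9166b_al.Ks.RGrp
import Pool.Agent.Lib.MP_b9166b_al.Ks.Heis

/-!
# Group theoretic half of the core

Γ = closure {(⁅u1, y⁆, π1), (⁅u2, y⁆, π2)} in C × Perm; the first projection is injective on Γ by hinj; the
closure of {π1, π2} is a nonabelian r-group, so exists_comm_of_range gives g, h in Γ; all elements g of C
occurring have range (1 - ρ g) in the sum of the ranges for y, u1 y u1⁻¹, u2 y u2⁻¹, of dimension ≤ 3 d;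
le_finrank_of_comm gives r ≤ 3 d.
-/

set_option autoImplicit false

namespace Pool.Agent.Lib.MP_b9166b_al.Ks

open scoped commutatorElement

/-- The elements of `C` with `range (1 - ρ g)` in `U`. -/
def rangeSub {C K V : Type} [Group C] [Field K] [AddCommGroup V] [Module K V]
    (ρ : C →* (V →ₗ[K] V)ˣ) (U : Submodule K V) : Subgroup C where
  carrier := {g | LinearMap.range (1 - (ρ g).val) ≤ U}
  one_mem' := by
    rintro _ ⟨w, rfl⟩
    rw [map_one, Units.val_one, sub_self, LinearMap.zero_apply]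
    exact U.zero_mem
  mul_mem' := by
    intro a b ha hb
    rintro _ ⟨w, rfl⟩
    have : (1 - (ρ (a * b)).val) w = (1 - (ρ a).val) ((ρ b).val w) + (1 - (ρ b).val) w := by
      rw [map_mul, Units.val_mul]
      simp only [LinearMap.sub_apply, Module.End.one_apply, Module.End.mul_apply]
      abel
    rw [this]
    exact U.add_mem (ha (LinearMap.mem_range_self _ _)) (hb (LinearMap.mem_range_self _ _))
  inv_mem' := by
    intro a ha
    rintro _ ⟨w, rfl⟩
    have h1 : (ρ a).val (((ρ a)⁻¹).val w) = w := by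
      rw [← Module.End.mul_apply, Units.mul_inv, Module.End.one_apply]
    have : (1 - (ρ a⁻¹).val) w = -((1 - (ρ a).val) (((ρ a)⁻¹).val w)) := by
      rw [map_inv]
      simp only [LinearMap.sub_apply, Module.End.one_apply, h1]
      abel
    rw [this]
    exact U.neg_mem (ha (LinearMap.mem_range_self _ _))

theorem le_of_pair {C K V : Type} [Group C] [Field K] [AddCommGroup V] [Module K V]
    (ρ : C →* (V →ₗ[K] V)ˣ) (hρ : Function.Injective ρ) {y u1 u2 : C} {d r : ℕ} [Fact r.Prime]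
    (hr : (r : K) ≠ 0) (hd : Deg (ρ y).val d) {M : Subgroup C} [Finite M] (hy : y ∈ M) (h1 : u1 ∈ M)
    (h2 : u2 ∈ M)
    (Rel : C → Equiv.Perm (ZMod r × ZMod r) → Prop) (hR1 : Rel ⁅u1, y⁆ (hp r))
    (hR2 : Rel ⁅u2, y⁆ (hq r))
    (hone : Rel 1 1)
    (hmul : ∀ g ∈ M, ∀ h ∈ M, ∀ π π', Rel g π → Rel h π' → Rel (g * h) (π * π'))
    (hinv : ∀ g ∈ M, ∀ π, Rel g π → Rel g⁻¹ π⁻¹)
    (hinj : ∀ π, Rel 1 π → π = 1) : r ≤ 3 * d := by
  classical
  have hconj : ∀ u : C, Deg (ρ (u * y * u⁻¹)).val d := by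
    intro u
    have := hd.conj (ρ u)
    rw [map_mul, map_mul, map_inv]
    exact this
  set U1 := LinearMap.range (1 - (ρ y).val) with hU1
  set U2 := LinearMap.range (1 - (ρ (u1 * y * u1⁻¹)).val) with hU2
  set U3 := LinearMap.range (1 - (ρ (u2 * y * u2⁻¹)).val) with hU3
  have f1 : FiniteDimensional K U1 := hd.1
  have f2 : FiniteDimensional K U2 := (hconj u1).1
  have f3 : FiniteDimensional K U3 := (hconj u2).1
  have n1 : Module.finrank K U1 ≤ d := hd.2
  have n2 : Module.finrank K U2 ≤ d := (hconj u1).2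
  have n3 : Module.finrank K U3 ≤ d := (hconj u2).2
  set U : Submodule K V := U1 ⊔ U2 ⊔ U3 with hU
  have nU : Module.finrank K U ≤ 3 * d := by
    have e1 := Submodule.finrank_add_le_finrank_add_finrank (U1 ⊔ U2) U3
    have e2 := Submodule.finrank_add_le_finrank_add_finrank U1 U2
    rw [hU]
    omega
  have my : y ∈ rangeSub ρ U := show U1 ≤ U from le_sup_left.trans le_sup_left
  have mc1 : u1 * y * u1⁻¹ ∈ rangeSub ρ U := show U2 ≤ U from le_sup_right.trans le_sup_left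
  have mc2 : u2 * y * u2⁻¹ ∈ rangeSub ρ U := show U3 ≤ U from le_sup_right
  -- the big subgroup
  let D : Subgroup (C × Equiv.Perm (ZMod r × ZMod r)) :=
    { carrier := {p | p.1 ∈ M ∧ Rel p.1 p.2 ∧ p.1 ∈ rangeSub ρ U}
      one_mem' := ⟨M.one_mem, hone, Subgroup.one_mem _⟩
      mul_mem' := fun {a b} ha hb =>
        ⟨M.mul_mem ha.1 hb.1, hmul _ ha.1 _ hb.1 _ _ ha.2.1 hb.2.1, Subgroup.mul_mem _ ha.2.2 hb.2.2⟩
      inv_mem' := fun {a} ha => ⟨M.inv_mem ha.1, hinv _ ha.1 _ ha.2.1, Subgroup.inv_mem _ ha.2.2⟩ }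
  set Γ : Subgroup (C × Equiv.Perm (ZMod r × ZMod r)) :=
    Subgroup.closure {(⁅u1, y⁆, hp r), (⁅u2, y⁆, hq r)} with hΓ
  have cM : ∀ u ∈ M, ⁅u, y⁆ ∈ M := by
    intro u hu
    rw [commutatorElement_def]
    exact M.mul_mem (M.mul_mem (M.mul_mem hu hy) (M.inv_mem hu)) (M.inv_mem hy)
  have hΓD : Γ ≤ D := by
    rw [hΓ, Subgroup.closure_le]
    rintro p hp'
    rcases hp' with rfl | rfl
    · refine ⟨cM _ h1, hR1, ?_⟩
      change ⁅u1, y⁆ ∈ _
      rw [commutatorElement_def]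
      exact Subgroup.mul_mem _ mc1 (Subgroup.inv_mem _ my)
    · refine ⟨cM _ h2, hR2, ?_⟩
      change ⁅u2, y⁆ ∈ _
      rw [commutatorElement_def]
      exact Subgroup.mul_mem _ mc2 (Subgroup.inv_mem _ my)
  have : Finite Γ := by
    refine Finite.of_injective (β := M × Equiv.Perm (ZMod r × ZMod r))
      (fun γ => (⟨γ.1.1, (hΓD γ.2).1⟩, γ.1.2)) ?_
    rintro ⟨⟨a, b⟩, h⟩ ⟨⟨a', b'⟩, h'⟩ hh
    simp only [Prod.mk.injEq, Subtype.mk.injEq] at hh
    obtain ⟨rfl, rfl⟩ := hh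
    rfl
  let φ : Γ →* Equiv.Perm (ZMod r × ZMod r) := (MonoidHom.snd C _).comp Γ.subtype
  let p1 : Γ →* C := (MonoidHom.fst C _).comp Γ.subtype
  have hφr : φ.range = Subgroup.closure {hp r, hq r} := by
    have e1 : φ.range = Γ.map (MonoidHom.snd C _) := by
      change ((MonoidHom.snd C _).comp Γ.subtype).range = _
      rw [MonoidHom.range_eq_map, ← Subgroup.map_map, ← MonoidHom.range_eq_map,
        Subgroup.range_subtype]
    rw [e1, hΓ, MonoidHom.map_closure, Set.image_pair]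
    rfl
  have hp1 : Function.Injective p1 := by
    rw [injective_iff_map_eq_one]
    rintro ⟨⟨a, b⟩, h⟩ ha
    have ha' : a = 1 := ha
    subst ha'
    have hb : b = 1 := hinj b (hΓD h).2.1
    subst hb
    rfl
  obtain ⟨g, h, hg, hh, ho⟩ := exists_comm_of_range φ (by rw [hφr]; exact isPGroup_heis r)
    ⟨⟨(⁅u1, y⁆, hp r), Subgroup.subset_closure (by simp)⟩,
      ⟨(⁅u2, y⁆, hq r), Subgroup.subset_closure (by simp)⟩, not_commute_heis r⟩
  have hinj' : Function.Injective (ρ.comp p1) := hρ.comp hp1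
  have e : ⁅ρ.comp p1 g, ρ.comp p1 h⁆ = ρ.comp p1 ⁅g, h⁆ := (map_commutatorElement _ g h).symm
  have key := le_finrank_of_comm (K := K) (V := V) hr (g := ρ.comp p1 g) (h := ρ.comp p1 h)
    (by rw [e]; exact hg.map _) (by rw [e]; exact hh.map _)
    (by rw [e, orderOf_injective _ hinj']; exact ho) U
    (by
      rw [e]
      exact (hΓD (⁅g, h⁆ : Γ).2).2.2)
  exact key.trans nU

end Pool.Agent.Lib.MP_b9166b_al.Ks
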