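import Pool.Agent.Lib.MP_b9166b_al.Ks.Part

/-!
# Extension of E-linear maps of a part, and bounds by parts
-/

set_option autoImplicit false

namespace Pool.Agent.Lib.MP_b9166b_al.Ks

section
variable {F V : Type} [Field F] [AddCommGroup V] [Module F V] {a : V →ₗ[F] V} {m : ℕ}

/-- the extension by the identity on the complement -/
noncomputable def Part.X0 (P : Part F V a m) (u : P.W →ₗ[P.E] P.W) : V →ₗ[F] V :=
  P.j ∘ₗ (u.restrictScalars F) ∘ₗ P.q + (1 - P.j ∘ₗ P.q)

theorem Part.X0_apply (P : Part F V a m) (u : P.W →ₗ[P.E] P.W) (v : V) :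
    P.X0 u v = P.j (u (P.q v)) + (v - P.j (P.q v)) := rfl

theorem Part.X0_j (P : Part F V a m) (u : P.W →ₗ[P.E] P.W) (w : P.W) :
    P.X0 u (P.j w) = P.j (u w) := by
  rw [P.X0_apply, P.qj, sub_self, add_zero]

theorem Part.q_X0 (P : Part F V a m) (u : P.W →ₗ[P.E] P.W) (v : V) :
    P.q (P.X0 u v) = u (P.q v) := by
  rw [P.X0_apply, map_add, map_sub, P.qj, P.qj, sub_self, add_zero]

/-- the extension as a monoid homomorphism -/
noncomputable def Part.X0Hom (P : Part F V a m) : (P.W →ₗ[P.E] P.W) →* (V →ₗ[F] V) where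
  toFun := P.X0
  map_one' := by
    refine LinearMap.ext fun v => ?_
    rw [P.X0_apply, Module.End.one_apply, Module.End.one_apply, add_sub_cancel]
  map_mul' u u' := by
    refine LinearMap.ext fun v => ?_
    rw [Module.End.mul_apply, P.X0_apply u, P.q_X0, P.X0_apply (u * u'), Module.End.mul_apply,
      P.X0_apply u' v]
    abel

/-- Extension by the identity on the complement, as a homomorphism. -/
theorem Part.exists_ext (P : Part F V a m) : ∃ X : (P.W →ₗ[P.E] P.W)ˣ →* (V →ₗ[F] V)ˣ,
    (∀ u w, (X u).val (P.j w) = P.j (u.val w)) ∧ ∀ u, Commute (X u).val a :=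
  ⟨Units.map P.X0Hom, fun u w => P.X0_j u.val w, fun u => P.ext_comm u.val⟩

theorem Part.j_inj (P : Part F V a m) : Function.Injective P.j :=
  Function.LeftInverse.injective P.qj

/-- The restriction of a unit. -/
theorem Part.exists_res (P : Part F V a m) (y : (V →ₗ[F] V)ˣ) (hy : Commute y.val a) :
    ∃ u : (P.W →ₗ[P.E] P.W)ˣ, (∀ w, y.val (P.j w) = P.j (u.val w)) ∧
      (∀ w, (y⁻¹).val (P.j w) = P.j ((u⁻¹).val w)) ∧ ∀ v, P.q (y.val v) = u.val (P.q v) := by
  have hy' : Commute (y⁻¹).val a := hy.units_inv_left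
  obtain ⟨u, hu1, hu2⟩ := P.res y.val hy
  obtain ⟨u', hu1', hu2'⟩ := P.res (y⁻¹).val hy'
  have e1 : u * u' = 1 := by
    refine LinearMap.ext fun w => P.j_inj ?_
    rw [Module.End.mul_apply, ← hu1, ← hu1', ← Module.End.mul_apply, Units.mul_inv]
    rfl
  have e2 : u' * u = 1 := by
    refine LinearMap.ext fun w => P.j_inj ?_
    rw [Module.End.mul_apply, ← hu1', ← hu1, ← Module.End.mul_apply, Units.inv_mul]
    rfl
  exact ⟨⟨u, u', e1, e2⟩, hu1, hu1', hu2⟩

end

section
variable {F V : Type} [Field F] [AddCommGroup V] [Module F V] [FiniteDimensional F V]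
  {a : V →ₗ[F] V} {m k : ℕ}

/-- dim_F V ≤ Σ dim_F W_i ≤ Σ m dim_E W_i. -/
theorem exists_large_part (P : Fin k → Part F V a m) (hk : k ≤ m)
    (hP : ∀ v, v = ∑ i, (P i).j ((P i).q v)) {N : ℕ} (hN : m * m * N < Module.finrank F V) :
    ∃ i, N < Module.finrank (P i).E (P i).W := by
  by_contra hcon
  push Not at hcon
  have hfd : ∀ i, FiniteDimensional F (P i).W := fun i =>
    Module.Finite.of_injective (P i).j (P i).j_inj
  let T : (∀ i, (P i).W) →ₗ[F] V := LinearMap.lsum F (fun i => (P i).W) F (fun i => (P i).j)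
  have hT : Function.Surjective T := by
    intro v
    refine ⟨fun i => (P i).q v, ?_⟩
    have h1 : T (fun i => (P i).q v) = ∑ i, (P i).j ((P i).q v) := by
      simp only [T, LinearMap.lsum_apply, LinearMap.sum_apply, LinearMap.comp_apply,
        LinearMap.proj_apply]
    rw [h1, ← hP]
  have h1 : Module.finrank F V ≤ Module.finrank F (∀ i, (P i).W) :=
    LinearMap.finrank_le_finrank_of_surjective hT
  rw [Module.finrank_pi_fintype] at h1
  have h2 : ∑ i, Module.finrank F (P i).W ≤ ∑ i : Fin k, m * N := by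
    refine Finset.sum_le_sum fun i _ => ?_
    rw [← Module.finrank_mul_finrank F (P i).E (P i).W]
    exact Nat.mul_le_mul (P i).hE (hcon i)
  rw [Finset.sum_const, Finset.card_univ, Fintype.card_fin, smul_eq_mul] at h2
  have h3 : k * (m * N) ≤ m * (m * N) := Nat.mul_le_mul_right _ hk
  have h4 : m * (m * N) = m * m * N := by ring
  omega

/-- If y1 is (on every part) of small dimension or a scalar up to small rank then y1 y2 - y2 y1 has small
rank: on a part u1 = c + R, u1 u2 - u2 u1 = R u2 - u2 R has E-rank ≤ 2 B (or ≤ dim W ≤ B), F-rank ≤ 2 B m; the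
range of y1 y2 - y2 y1 is in the sum of the ranges on the parts. -/
theorem finrank_comm_le (P : Fin k → Part F V a m) (hk : k ≤ m)
    (hP : ∀ v, v = ∑ i, (P i).j ((P i).q v)) {B : ℕ} (y1 y2 : V →ₗ[F] V)
    (h1 : Commute y1 a) (h2 : Commute y2 a)
    (hB : ∀ i, ∀ u : (P i).W →ₗ[(P i).E] (P i).W, (∀ w, y1 ((P i).j w) = (P i).j (u w)) →
      Module.finrank (P i).E (P i).W ≤ B ∨
        ∃ c : (P i).E, Module.finrank (P i).E (LinearMap.range (u - c • 1)) ≤ B) :
    Module.finrank F (LinearMap.range (y1 * y2 - y2 * y1)) ≤ 2 * B * m * m := by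
  choose u1 hu1 hu1q using fun i => (P i).res y1 h1
  choose u2 hu2 hu2q using fun i => (P i).res y2 h2
  have hfd : ∀ i, FiniteDimensional F (P i).W := fun i =>
    Module.Finite.of_injective (P i).j (P i).j_inj
  -- the ranks on the parts
  have hD : ∀ i, Module.finrank (P i).E (LinearMap.range (u1 i * u2 i - u2 i * u1 i)) ≤ 2 * B := by
    intro i
    rcases hB i (u1 i) (hu1 i) with hs | ⟨c, hc⟩
    · refine (Submodule.finrank_le _).trans (hs.trans (by omega))
    · have he : u1 i * u2 i - u2 i * u1 i = (u1 i - c • 1) * u2 i - u2 i * (u1 i - c • 1) := by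
        rw [sub_mul, mul_sub, smul_mul_assoc, mul_smul_comm, one_mul, mul_one]
        abel
      set R := u1 i - c • (1 : (P i).W →ₗ[(P i).E] (P i).W) with hR
      have hle : LinearMap.range (R * u2 i - u2 i * R) ≤
          LinearMap.range R ⊔ Submodule.map (u2 i) (LinearMap.range R) := by
        rintro _ ⟨w, rfl⟩
        rw [LinearMap.sub_apply, Module.End.mul_apply, Module.End.mul_apply]
        exact Submodule.sub_mem_sup (LinearMap.mem_range_self R _)
          (Submodule.mem_map_of_mem (LinearMap.mem_range_self R w))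
      rw [he]
      have e1 := Submodule.finrank_mono hle
      have e2 := Submodule.finrank_add_le_finrank_add_finrank (LinearMap.range R)
        (Submodule.map (u2 i) (LinearMap.range R))
      have e3 := Submodule.finrank_map_le (u2 i) (LinearMap.range R)
      omega
  let D : ∀ i, (P i).W →ₗ[(P i).E] (P i).W := fun i => u1 i * u2 i - u2 i * u1 i
  have hfr : ∀ i, Module.Finite F (LinearMap.range (D i)) := fun i =>
    Module.Finite.of_injective ((LinearMap.range (D i)).subtype.restrictScalars F)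
      Subtype.val_injective
  let T : (∀ i, (LinearMap.range (D i))) →ₗ[F] V :=
    LinearMap.lsum F (fun i => (LinearMap.range (D i))) F
      (fun i => (P i).j ∘ₗ ((LinearMap.range (D i)).subtype.restrictScalars F))
  have hT : ∀ x, T x = ∑ i, (P i).j (x i : (P i).W) := by
    intro x
    simp only [T, LinearMap.lsum_apply, LinearMap.sum_apply, LinearMap.comp_apply,
      LinearMap.proj_apply]
    rfl
  have hle : LinearMap.range (y1 * y2 - y2 * y1) ≤ LinearMap.range T := by
    rintro _ ⟨v, rfl⟩
    refine ⟨fun i => ⟨D i ((P i).q v), LinearMap.mem_range_self _ _⟩, ?_⟩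
    rw [hT]
    have e1 : ∀ i, (y1 * y2 - y2 * y1) ((P i).j ((P i).q v)) = (P i).j (D i ((P i).q v)) := by
      intro i
      rw [LinearMap.sub_apply, Module.End.mul_apply, Module.End.mul_apply, hu2, hu1, hu1, hu2,
        ← map_sub]
      rfl
    conv_rhs => rw [hP v, map_sum]
    exact Finset.sum_congr rfl fun i _ => (e1 i).symm
  have e1 := Submodule.finrank_mono hle
  have e2 : Module.finrank F (LinearMap.range T) ≤ Module.finrank F (∀ i, (LinearMap.range (D i))) :=
    LinearMap.finrank_range_le T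
  rw [Module.finrank_pi_fintype] at e2
  have h2 : ∑ i, Module.finrank F (LinearMap.range (D i)) ≤ ∑ i : Fin k, m * (2 * B) := by
    refine Finset.sum_le_sum fun i _ => ?_
    rw [← Module.finrank_mul_finrank F (P i).E (LinearMap.range (D i))]
    exact Nat.mul_le_mul (P i).hE (hD i)
  rw [Finset.sum_const, Finset.card_univ, Fintype.card_fin, smul_eq_mul] at h2
  have h3 : k * (m * (2 * B)) ≤ m * (m * (2 * B)) := Nat.mul_le_mul_right _ hk
  have h4 : m * (m * (2 * B)) = 2 * B * m * m := by ring
  omega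

end

end Pool.Agent.Lib.MP_b9166b_al.Ks
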