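import Pool.Agent.Lib.MP_b9166b_al.Ks.LCov
import Pool.Agent.Lib.MP_b9166b_al.Ks.Pair
import Pool.Agent.Lib.MP_b9166b_al.Ks.LA
import Pool.Agent.Lib.MP_b9166b_al.Ks.PartB

/-!
# The core

y in C_G(x), commuting exactly with a_x, of degree ≤ d in the finitary representation ρ of C_G(x); r > 3 d a
prime, r ≠ 0 in K. Then y is small on every part of (V, a_x).
-/

set_option autoImplicit false

namespace Pool.Agent.Lib.MP_b9166b_al.Ks

open scoped commutatorElement

/-- The determinant of a commutator is 1. -/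
theorem det_commutator {F V : Type} [Field F] [AddCommGroup V] [Module F V]
    (g h : (V →ₗ[F] V)ˣ) : LinearMap.det (⁅g, h⁆ : (V →ₗ[F] V)ˣ).val = 1 := by
  have key : ∀ k : (V →ₗ[F] V)ˣ, LinearMap.det k.val * LinearMap.det (k⁻¹).val = 1 := by
    intro k
    rw [← map_mul, Units.mul_inv, map_one]
  rw [commutatorElement_def, Units.val_mul, Units.val_mul, Units.val_mul, map_mul, map_mul, map_mul]
  calc LinearMap.det g.val * LinearMap.det h.val * LinearMap.det (g⁻¹).val *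
        LinearMap.det (h⁻¹).val
      = (LinearMap.det g.val * LinearMap.det (g⁻¹).val) *
        (LinearMap.det h.val * LinearMap.det (h⁻¹).val) := by ring
    _ = 1 := by rw [key, key, one_mul]

theorem inv_val_smul {F V : Type} [Field F] [AddCommGroup V] [Module F V]
    {g h : (V →ₗ[F] V)ˣ} {e : F} (he : e ≠ 0) (hg : g.val = e • h.val) :
    (g⁻¹).val = e⁻¹ • (h⁻¹).val := by
  have h1 : g.val * (e⁻¹ • (h⁻¹).val) = 1 := by
    rw [hg, smul_mul_smul_comm, mul_inv_cancel₀ he, Units.mul_inv, one_smul]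
  exact Units.inv_eq_of_mul_eq_one_right h1

theorem comm_val_smul {F V : Type} [Field F] [AddCommGroup V] [Module F V]
    {g h k : (V →ₗ[F] V)ˣ} {e : F} (he : e ≠ 0) (hg : g.val = e • h.val) :
    (⁅g, k⁆ : (V →ₗ[F] V)ˣ).val = (⁅h, k⁆ : (V →ₗ[F] V)ˣ).val := by
  rw [commutatorElement_def, commutatorElement_def]
  simp only [Units.val_mul]
  rw [inv_val_smul he hg, hg]
  simp only [smul_mul_assoc, mul_smul_comm, smul_smul]
  rw [inv_mul_cancel₀ he, one_smul]

theorem inv_fix {F V : Type} [Field F] [AddCommGroup V] [Module F V]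
    {b : (V →ₗ[F] V)ˣ} {v w : V} (h : b.val v = w) : (b⁻¹).val w = v := by
  rw [← h, ← Module.End.mul_apply, Units.inv_mul, Module.End.one_apply]

variable {G : Type} [Group G] {x : G} {S : Finset G}

/-- Suppose not: exists_indep with t = 2 r^2 gives w : (ι ⊕ ι) ⊕ (ι ⊕ ι) → W independent (ι = ZMod r × ZMod r),
w (inr i) = u⁻¹ w (inl i), u = the restriction of a_y. Θ = exists_perm_rep, X = exists_ext. For a permutation π of
ι let U_π = X (Θ ⁅sumCongr π 1, swap⁆) = X (Θ (sumCongr π π⁻¹)): its determinant is 1 (it is a commutator), it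
commutes with a_x; lift it. Rel g π := ∃ b, a_g = e b and b (j (w (inl (inl i)))) = j (w (inl (inl (π i)))).
⁅U_π, a_y⁆ maps j w(inl(inl i)) to j w(inl(inl (π i))) because U_π⁻¹ fixes j w(inr i). Apply le_of_pair with
M = elements of C_G(x) in H. -/
theorem core (c : LCov x S) {K VK : Type} [Field K] [AddCommGroup VK] [Module K VK]
    (ρ : Subgroup.centralizer ({x} : Set G) →* (VK →ₗ[K] VK)ˣ) (hρ : Function.Injective ρ)
    {y : Subgroup.centralizer ({x} : Set G)} (hy : (y : G) ∈ c.H) (hyx : Commute (c.a y) (c.a x))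
    {d r : ℕ} [Fact r.Prime] (hr : (r : K) ≠ 0) (hd : Deg (ρ y).val d) (hdr : 3 * d < r)
    {m : ℕ} (P : Part c.F c.V (c.a x).val m) (u : P.W →ₗ[P.E] P.W)
    (hu : ∀ w, (c.a y).val (P.j w) = P.j (u w)) :
    Module.finrank P.E P.W ≤ 4 * r ^ 2 ∨
      ∃ e : P.E, Module.finrank P.E (LinearMap.range (u - e • 1)) ≤ 4 * r ^ 2 := by
  classical
  by_contra hcon
  push Not at hcon
  obtain ⟨hc1, hc2⟩ := hcon
  have jinj : Function.Injective P.j := Function.LeftInverse.injective P.qj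
  have hyx' : Commute (c.a y).val (c.a x).val := by
    have := congrArg Units.val hyx.eq
    exact this
  obtain ⟨uy, hu1, hu2, hu3⟩ := P.exists_res (c.a y) hyx'
  have huy : uy.val = u := by
    ext w
    apply jinj
    rw [← hu1, ← hu]
  obtain ⟨v, hv⟩ := exists_indep uy (2 * r ^ 2) (by omega) (by
    intro e
    have := hc2 e
    rw [huy]
    omega)
  let ι := ZMod r × ZMod r
  have hcard : Fintype.card (ι ⊕ ι) = 2 * r ^ 2 := by
    rw [Fintype.card_sum, Fintype.card_prod, ZMod.card]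
    ring
  let e0 : ι ⊕ ι ≃ Fin (2 * r ^ 2) := Fintype.equivFinOfCardEq hcard
  let w : (ι ⊕ ι) ⊕ (ι ⊕ ι) → P.W := Sum.elim (fun k => v (e0 k)) (fun k => (uy⁻¹).val (v (e0 k)))
  have hw : LinearIndependent P.E w := by
    have h1 := hv.comp (Sum.map e0 e0) (Sum.map_injective.2 ⟨e0.injective, e0.injective⟩)
    have h2 : w = Sum.elim v (fun i => (uy⁻¹).val (v i)) ∘ Sum.map e0 e0 := by
      funext k
      rcases k with k | k <;> rfl
    rw [h2]
    exact h1
  have hwr : ∀ k, w (Sum.inr k) = (uy⁻¹).val (w (Sum.inl k)) := fun k => rfl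
  obtain ⟨Θ, hΘ1, hΘ2⟩ := exists_perm_rep w hw
  obtain ⟨X, hX1, hX2⟩ := P.exists_ext
  let sw : Equiv.Perm (ι ⊕ ι) := Equiv.sumComm ι ι
  let A : Equiv.Perm ι → Equiv.Perm (ι ⊕ ι) := fun π => Equiv.sumCongr π (Equiv.refl ι)
  have hA : ∀ (π : Equiv.Perm ι) (i : ι), (⁅A π, sw⁆ : Equiv.Perm (ι ⊕ ι)) (Sum.inl i) =
      Sum.inl (π i) := by
    intro π i
    rw [commutatorElement_def]
    rfl
  let Uf : Equiv.Perm ι → (c.V →ₗ[c.F] c.V)ˣ := fun π => X (Θ ⁅A π, sw⁆)
  have hUl : ∀ (π : Equiv.Perm ι) (i : ι), (Uf π).val (P.j (w (Sum.inl (Sum.inl i)))) =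
      P.j (w (Sum.inl (Sum.inl (π i)))) := by
    intro π i
    change (X (Θ ⁅A π, sw⁆)).val _ = _
    rw [hX1, hΘ1, hA]
  have hUr : ∀ (π : Equiv.Perm ι) (k : ι ⊕ ι), (Uf π).val (P.j (w (Sum.inr k))) =
      P.j (w (Sum.inr k)) := by
    intro π k
    change (X (Θ ⁅A π, sw⁆)).val _ = _
    rw [hX1, hΘ2]
  have hlift : ∀ π : Equiv.Perm ι, ∃ g : Subgroup.centralizer ({x} : Set G), (g : G) ∈ c.H ∧
      ∃ e : c.F, e ≠ 0 ∧ (c.a g).val = e • (Uf π).val := by
    intro π
    have hdet : LinearMap.det (Uf π).val = 1 := by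
      change LinearMap.det (X (Θ ⁅A π, sw⁆)).val = 1
      rw [map_commutatorElement, map_commutatorElement]
      exact det_commutator _ _
    have hcomm : Commute (Uf π) (c.a x) := by
      have := (hX2 (Θ ⁅A π, sw⁆)).eq
      exact Units.ext this
    obtain ⟨g, hgH, hgx, e, he, hge⟩ := c.lift (Uf π) hdet hcomm
    exact ⟨⟨g, Subgroup.mem_centralizer_singleton_iff.2 hgx.eq⟩, hgH, e, he, hge⟩
  let Rel : Subgroup.centralizer ({x} : Set G) → Equiv.Perm ι → Prop := fun g π =>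
    ∃ b : (c.V →ₗ[c.F] c.V)ˣ, (∃ e : c.F, e ≠ 0 ∧ (c.a g).val = e • b.val) ∧
      ∀ i, b.val (P.j (w (Sum.inl (Sum.inl i)))) = P.j (w (Sum.inl (Sum.inl (π i))))
  let M : Subgroup (Subgroup.centralizer ({x} : Set G)) :=
    c.H.subgroupOf (Subgroup.centralizer ({x} : Set G))
  have hM : ∀ g : Subgroup.centralizer ({x} : Set G), g ∈ M ↔ (g : G) ∈ c.H := fun g =>
    Subgroup.mem_subgroupOf
  have : Finite M := by
    refine Finite.of_injective (β := c.H) (fun g => ⟨(g.1 : G), (hM g.1).1 g.2⟩) ?_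
    intro a b hab
    simp only [Subtype.mk.injEq] at hab
    exact Subtype.ext (Subtype.ext hab)
  -- the commutators
  have hRel : ∀ (π : Equiv.Perm ι) (g : Subgroup.centralizer ({x} : Set G)), (g : G) ∈ c.H →
      (∃ e : c.F, e ≠ 0 ∧ (c.a g).val = e • (Uf π).val) → Rel ⁅g, y⁆ π := by
    rintro π g hg ⟨e, he, hge⟩
    obtain ⟨e1, he1, h1⟩ := c.a_comm hg hy
    refine ⟨⁅Uf π, c.a y⁆, ⟨e1, he1, ?_⟩, ?_⟩
    · have h2 : ((⁅g, y⁆ : Subgroup.centralizer ({x} : Set G)) : G) = ⁅(g : G), (y : G)⁆ := rfl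
      rw [h2, h1, comm_val_smul he hge]
    · intro i
      have s1 : ((c.a y)⁻¹).val (P.j (w (Sum.inl (Sum.inl i)))) =
          P.j (w (Sum.inr (Sum.inl i))) := by
        rw [hu2, hwr]
      have s2 : ((Uf π)⁻¹).val (P.j (w (Sum.inr (Sum.inl i)))) = P.j (w (Sum.inr (Sum.inl i))) :=
        inv_fix (hUr π _)
      have s3 : (c.a y).val (P.j (w (Sum.inr (Sum.inl i)))) = P.j (w (Sum.inl (Sum.inl i))) := by
        rw [hu1, hwr, ← Module.End.mul_apply, Units.mul_inv, Module.End.one_apply]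
      rw [commutatorElement_def]
      simp only [Units.val_mul, Module.End.mul_apply]
      rw [s1, s2, s3, hUl]
  obtain ⟨g1, hg1, hge1⟩ := hlift (hp r)
  obtain ⟨g2, hg2, hge2⟩ := hlift (hq r)
  have key := le_of_pair ρ hρ hr hd (M := M) ((hM y).2 hy) ((hM g1).2 hg1) ((hM g2).2 hg2) Rel
    (hRel _ g1 hg1 hge1) (hRel _ g2 hg2 hge2)
    (by
      obtain ⟨e, he, h1⟩ := c.a_one
      exact ⟨1, ⟨e, he, h1⟩, fun i => rfl⟩)
    (by
      rintro g hg h hh π π' ⟨b, ⟨e, he, hb⟩, hbi⟩ ⟨b', ⟨e', he', hb'⟩, hbi'⟩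
      obtain ⟨f, hf, h1⟩ := c.mul g ((hM g).1 hg) h ((hM h).1 hh)
      refine ⟨b * b', ⟨f * (e * e'), mul_ne_zero hf (mul_ne_zero he he'), ?_⟩, fun i => ?_⟩
      · have h2 : ((g * h : Subgroup.centralizer ({x} : Set G)) : G) = (g : G) * (h : G) := rfl
        rw [h2, h1, hb, hb', smul_mul_smul_comm, smul_smul, Units.val_mul]
      · rw [Units.val_mul, Module.End.mul_apply, hbi', hbi]
        rfl)
    (by
      rintro g hg π ⟨b, ⟨e, he, hb⟩, hbi⟩
      obtain ⟨f, hf, h1⟩ := c.a_inv ((hM g).1 hg)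
      refine ⟨b⁻¹, ⟨f * e⁻¹, mul_ne_zero hf (inv_ne_zero he), ?_⟩, fun i => ?_⟩
      · have h2 : ((g⁻¹ : Subgroup.centralizer ({x} : Set G)) : G) = (g : G)⁻¹ := rfl
        rw [h2, h1, inv_val_smul he hb, smul_smul]
      · apply inv_fix
        rw [hbi]
        congr 4
        exact π.apply_symm_apply i)
    (by
      rintro π ⟨b, ⟨e, he, hb⟩, hbi⟩
      obtain ⟨f, hf, h1⟩ := c.a_one
      have h2 : ((1 : Subgroup.centralizer ({x} : Set G)) : G) = 1 := rfl
      rw [h2, h1] at hb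
      ext1 i
      rw [Equiv.Perm.one_apply]
      have h3 : b.val = (e⁻¹ * f) • (1 : c.V →ₗ[c.F] c.V) := by
        rw [mul_smul, hb, smul_smul, inv_mul_cancel₀ he, one_smul]
      have h4 := hbi i
      rw [h3, LinearMap.smul_apply, Module.End.one_apply, ← map_smul] at h4
      have h5 := jinj h4
      by_contra hne
      have h6 := hw.notMem_span_image (s := {Sum.inl (Sum.inl i)}) (x := Sum.inl (Sum.inl (π i)))
        (by
          intro h
          rw [Set.mem_singleton_iff] at h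
          exact hne (Sum.inl_injective (Sum.inl_injective h)))
      apply h6
      rw [← h5, Set.image_singleton]
      have h7 : (e⁻¹ * f) • w (Sum.inl (Sum.inl i)) =
          (algebraMap c.F P.E (e⁻¹ * f)) • w (Sum.inl (Sum.inl i)) := by
        rw [algebraMap_smul]
      rw [h7]
      exact Submodule.smul_mem _ _ (Submodule.mem_span_singleton_self _))
  omega

end Pool.Agent.Lib.MP_b9166b_al.Ks
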