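import Pool.Agent.Lib.MP_b9166b_al.Ks.Defs
import Pool.Agent.Lib.MP_b9166b_al.Ks.Core
import Pool.Agent.Lib.MP_b9166b_al.Ks.AltCoreA

/-!
# The core for alternating covers
-/

set_option autoImplicit false

namespace Pool.Agent.Lib.MP_b9166b_al.Ks

open scoped commutatorElement

open Equiv

variable {G : Type} [Group G] {x : G} {S : Finset G}

/-- As `core`: at most 6 r² cycles of length l are moved by y. Otherwise exists_cycles with t = 2 r², Θ =
exists_cycle_rep, U_π = Θ ⁅sumCongr π 1, swap⁆ (even), Rel g π := a_g (ω (inl i)) = ω (inl (π i)), le_of_pair. -/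
theorem alt_core (c : ACov x S) {K VK : Type} [Field K] [AddCommGroup VK] [Module K VK]
    (ρ : Subgroup.centralizer ({x} : Set G) →* (VK →ₗ[K] VK)ˣ) (hρ : Function.Injective ρ)
    {y : Subgroup.centralizer ({x} : Set G)} (hy : (y : G) ∈ c.H)
    {d r : ℕ} [Fact r.Prime] (hr : (r : K) ≠ 0) (hd : Deg (ρ y).val d) (hdr : 3 * d < r)
    {l : ℕ} (hl : 0 < l) (Z : Finset (Fin c.n)) (hZl : ∀ z ∈ Z, Function.minimalPeriod (c.a x) z = l)
    (hZ1 : ∀ z ∈ Z, ∀ z' ∈ Z, (c.a x).SameCycle z z' → z = z')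
    (hZy : ∀ z ∈ Z, ¬ (c.a x).SameCycle z (c.a y z)) : Z.card ≤ 6 * r ^ 2 := by
  classical
  by_contra hcon
  push Not at hcon
  have hx : x ∈ c.H := c.hx
  have hyx : Commute (y : G) x := Subgroup.mem_centralizer_singleton_iff.1 y.2
  have ha1 : c.a 1 = 1 := by
    have h := c.mul 1 c.H.one_mem 1 c.H.one_mem
    rw [mul_one] at h
    exact (mul_eq_left.1 h.symm)
  have hainv : ∀ g ∈ c.H, c.a g⁻¹ = (c.a g)⁻¹ := by
    intro g hg
    have h := c.mul g hg g⁻¹ (c.H.inv_mem hg)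
    rw [mul_inv_cancel, ha1] at h
    exact (inv_eq_of_mul_eq_one_right h.symm).symm
  have hcomm : ∀ g ∈ c.H, Commute g x → Commute (c.a g) (c.a x) := by
    intro g hg hgx
    show c.a g * c.a x = c.a x * c.a g
    rw [← c.mul g hg x hx, ← c.mul x hx g hg, hgx.eq]
  obtain ⟨ω, hω1, hω2, hω3⟩ := exists_cycles (hcomm y hy hyx) l (2 * r ^ 2) Z hZl hZ1 hZy
    (by omega)
  have hrpos : 0 < r := (Fact.out : r.Prime).pos
  have : NeZero r := ⟨hrpos.ne'⟩
  have hcard : Fintype.card ((ZMod r × ZMod r) ⊕ (ZMod r × ZMod r)) =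
      Fintype.card (Fin (2 * r ^ 2)) := by
    rw [Fintype.card_sum, Fintype.card_prod, ZMod.card, Fintype.card_fin]
    ring
  obtain e : ((ZMod r × ZMod r) ⊕ (ZMod r × ZMod r)) ≃ Fin (2 * r ^ 2) :=
    Fintype.equivOfCardEq hcard
  obtain ⟨Θ, hΘ1, hΘ2, hΘ3⟩ := exists_cycle_rep (ι := (ZMod r × ZMod r) ⊕ (ZMod r × ZMod r))
    (u := c.a x) hl (ω := fun i => ω (e i)) (fun i => hω1 (e i))
    (fun i j h => e.injective (hω2 _ _ h))
  have hinjw : ∀ i j, ω (e i) = ω (e j) → i = j := by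
    intro i j h
    apply e.injective
    apply hω2
    rw [h]
  -- the elements U_π
  let A : Equiv.Perm (ZMod r × ZMod r) → Equiv.Perm ((ZMod r × ZMod r) ⊕ (ZMod r × ZMod r)) :=
    fun π => Equiv.sumCongr π 1
  let B : Equiv.Perm ((ZMod r × ZMod r) ⊕ (ZMod r × ZMod r)) := Equiv.sumComm _ _
  have hlift : ∀ π, ∃ u : Subgroup.centralizer ({x} : Set G), (u : G) ∈ c.H ∧
      c.a u = Θ ⁅A π, B⁆ := by
    intro π
    have h5 : 5 ≤ Nat.card ((ZMod r × ZMod r) ⊕ (ZMod r × ZMod r)) := by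
      rw [Nat.card_eq_fintype_card, hcard, Fintype.card_fin]
      have h3 : 2 ≤ r := (Fact.out : r.Prime).two_le
      nlinarith
    obtain ⟨h, h1, h2, h3⟩ := c.lift ((alternatingGroup _).map Θ)
      (by rw [← Subgroup.map_commutator, commutator_alternatingGroup_eq_self h5])
      (by
        rintro _ ⟨σ, _, rfl⟩
        exact hΘ2 σ) (Θ ⁅A π, B⁆)
      (Subgroup.mem_map_of_mem Θ (by
        rw [Equiv.Perm.mem_alternatingGroup, map_commutatorElement]
        exact commutatorElement_eq_one_iff_mul_comm.2 (mul_comm _ _)))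
    exact ⟨⟨h, Subgroup.mem_centralizer_singleton_iff.2 h2.eq⟩, h1, h3⟩
  let M : Subgroup (Subgroup.centralizer ({x} : Set G)) :=
    c.H.comap (Subgroup.centralizer ({x} : Set G)).subtype
  have hMfin : Finite M := by
    have := c.fin
    refine Finite.of_injective
      (fun m : M => (⟨((m : Subgroup.centralizer ({x} : Set G)) : G), m.2⟩ : c.H)) ?_
    intro m m' h
    apply Subtype.ext
    apply Subtype.ext
    exact congrArg (fun z : c.H => (z : G)) h
  let Rel : Subgroup.centralizer ({x} : Set G) → Equiv.Perm (ZMod r × ZMod r) → Prop :=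
    fun g π => ∀ i, c.a g (ω (e (Sum.inl i))) = ω (e (Sum.inl (π i)))
  have hRel : ∀ π (u : Subgroup.centralizer ({x} : Set G)), (u : G) ∈ c.H →
      c.a u = Θ ⁅A π, B⁆ → Rel ⁅u, y⁆ π := by
    intro π u hu hau i
    have h1 : c.a ((⁅u, y⁆ : Subgroup.centralizer ({x} : Set G)) : G) =
        c.a u * c.a y * (c.a u)⁻¹ * (c.a y)⁻¹ := by
      have h2 : ((⁅u, y⁆ : Subgroup.centralizer ({x} : Set G)) : G) =
          (u : G) * y * (u : G)⁻¹ * (y : G)⁻¹ := by
        simp [commutatorElement_def]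
      rw [h2, c.mul _ (c.H.mul_mem (c.H.mul_mem hu hy) (c.H.inv_mem hu)) _ (c.H.inv_mem hy),
        c.mul _ (c.H.mul_mem hu hy) _ (c.H.inv_mem hu), c.mul _ hu _ hy, hainv _ hu, hainv _ hy]
    rw [h1, Equiv.Perm.mul_apply, Equiv.Perm.mul_apply, Equiv.Perm.mul_apply]
    have h3 : (c.a u)⁻¹ ((c.a y)⁻¹ (ω (e (Sum.inl i)))) = (c.a y)⁻¹ (ω (e (Sum.inl i))) := by
      rw [hau, ← map_inv]
      apply hΘ3
      intro j
      exact hω3 _ _
    have h4 : c.a y ((c.a y)⁻¹ (ω (e (Sum.inl i)))) = ω (e (Sum.inl i)) :=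
      (c.a y).apply_symm_apply _
    rw [h3, h4, hau, hΘ1]
    rfl
  obtain ⟨u1, hu1, hau1⟩ := hlift (hp r)
  obtain ⟨u2, hu2, hau2⟩ := hlift (hq r)
  have := le_of_pair ρ hρ (u1 := u1) (u2 := u2) hr hd (M := M) hy hu1 hu2 Rel (hRel _ _ hu1 hau1)
    (hRel _ _ hu2 hau2) (by
      intro i
      show c.a 1 _ = _
      rw [ha1]
      rfl) (by
      intro g hg h hh π π' h1 h2 i
      have h3 : c.a ((g * h : Subgroup.centralizer ({x} : Set G)) : G) = c.a g * c.a h :=
        c.mul _ hg _ hh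
      rw [h3, Equiv.Perm.mul_apply, h2, h1]
      rfl) (by
      intro g hg π h1 i
      have h3 : c.a ((g⁻¹ : Subgroup.centralizer ({x} : Set G)) : G) = (c.a g)⁻¹ := hainv _ hg
      rw [h3, Equiv.Perm.inv_eq_iff_eq, h1]
      have h4 : π (π⁻¹ i) = i := π.apply_symm_apply i
      rw [h4]) (by
      intro π h1
      ext1 i
      have h2 := h1 i
      have h3 : c.a ((1 : Subgroup.centralizer ({x} : Set G)) : G) = 1 := ha1
      rw [h3] at h2
      have h4 := hinjw _ _ h2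
      exact (Sum.inl.inj h4).symm)
  omega

end Pool.Agent.Lib.MP_b9166b_al.Ks
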