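import Pool.Agent.Lib.MP_b9166b_al.Ks.Core

/-!
# An element of bounded rank
-/

set_option autoImplicit false

namespace Pool.Agent.Lib.MP_b9166b_al.Ks

open scoped commutatorElement

variable {G : Type} [Group G] {x : G}

/-- A prime larger than n and not 0 in K. -/
theorem exists_prime_ne_b (K : Type) [Field K] (n : ℕ) : ∃ r : ℕ, r.Prime ∧ n < r ∧ (r : K) ≠ 0 := by
  obtain ⟨r1, h1, hp1⟩ := Nat.exists_infinite_primes (n + 1)
  obtain ⟨r2, h2, hp2⟩ := Nat.exists_infinite_primes (r1 + 1)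
  by_cases hr : (r1 : K) = 0
  · refine ⟨r2, hp2, by omega, fun hr2 => ?_⟩
    have hcop : Nat.Coprime r1 r2 := (Nat.coprime_primes hp1 hp2).2 (by omega)
    have h3 : IsCoprime (r1 : ℤ) (r2 : ℤ) := Nat.isCoprime_iff_coprime.2 hcop
    obtain ⟨a, b, hab⟩ := h3
    have h4 := congrArg (fun z : ℤ => (z : K)) hab
    simp only [Int.cast_add, Int.cast_mul, Int.cast_natCast, hr, hr2, mul_zero, add_zero,
      Int.cast_one] at h4
    exact zero_ne_one h4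
  · exact ⟨r1, hp1, by omega, hr⟩

/-- There are y ≠ 1 and B such that, in every cover of a set containing certain elements, a_y is a scalar
times a map b with rank (b - 1) ≤ B: y = ⁅y1, y2⁆, y1 = ⁅g1, g2⁆, y2 = ⁅g3, g4⁆ of exists_comm_comm; r a prime
> 3 d, r ≠ 0 in K (Nat.exists_infinite_primes, and not the characteristic of K), B = 2 (4 r²) m m; core and
finrank_comm_le; b = ⁅a_y1, a_y2⁆, b - 1 = (a_y1 a_y2 - a_y2 a_y1) a_y1⁻¹ a_y2⁻¹. -/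
theorem exists_bounded (hx : 0 < orderOf x) {K VK : Type} [Field K] [AddCommGroup VK] [Module K VK]
    (ρ : Subgroup.centralizer ({x} : Set G) →* (VK →ₗ[K] VK)ˣ) (hρ : Function.Injective ρ)
    (hfin : ∀ h, FinMap (ρ h).val)
    (hex : ∃ g1 g2 g3 g4 : G, Commute g1 x ∧ Commute g2 x ∧ Commute g3 x ∧ Commute g4 x ∧
      ⁅⁅g1, g2⁆, ⁅g3, g4⁆⁆ ≠ 1) :
    ∃ (y : G) (B : ℕ) (S₀ : Finset G), y ≠ 1 ∧ ∀ (S : Finset G), S₀ ⊆ S → ∀ c : LCov x S,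
      ∃ e : c.F, e ≠ 0 ∧
        Module.finrank c.F (LinearMap.range (e • (c.a y).val - 1)) ≤ B := by
  classical
  obtain ⟨g1, g2, g3, g4, h1, h2, h3, h4, hne⟩ := hex
  let G1 : Subgroup.centralizer ({x} : Set G) := ⟨g1, Subgroup.mem_centralizer_singleton_iff.2 h1.eq⟩
  let G2 : Subgroup.centralizer ({x} : Set G) := ⟨g2, Subgroup.mem_centralizer_singleton_iff.2 h2.eq⟩
  let y1 : Subgroup.centralizer ({x} : Set G) := ⁅G1, G2⁆
  have hy1 : (y1 : G) = ⁅g1, g2⁆ := rfl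
  obtain ⟨r, hrp, hrd, hrK⟩ := exists_prime_ne_b K
    (3 * Module.finrank K (LinearMap.range (1 - (ρ y1).val)))
  have : Fact r.Prime := ⟨hrp⟩
  refine ⟨⁅⁅g1, g2⁆, ⁅g3, g4⁆⁆, 2 * (4 * r ^ 2) * orderOf x * orderOf x, {g1, g2, g3, g4}, hne, ?_⟩
  intro S hS c
  have m1 : g1 ∈ c.H := c.hS _ (hS (by simp))
  have m2 : g2 ∈ c.H := c.hS _ (hS (by simp))
  have m3 : g3 ∈ c.H := c.hS _ (hS (by simp))
  have m4 : g4 ∈ c.H := c.hS _ (hS (by simp))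
  have mc : ∀ {a b : G}, a ∈ c.H → b ∈ c.H → ⁅a, b⁆ ∈ c.H := by
    intro a b ha hb
    rw [commutatorElement_def]
    exact c.H.mul_mem (c.H.mul_mem (c.H.mul_mem ha hb) (c.H.inv_mem ha)) (c.H.inv_mem hb)
  have k1 : Commute (c.a ⁅g1, g2⁆) (c.a x) := c.commute_comm m1 m2 h1 h2
  have k2 : Commute (c.a ⁅g3, g4⁆) (c.a x) := c.commute_comm m3 m4 h3 h4
  obtain ⟨e0, he0, hax⟩ := c.a_x_pow
  obtain ⟨k, P, hk, hP⟩ := exists_parts (c.a x).val c.cop he0 hax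
  have hB := finrank_comm_le P hk hP (B := 4 * r ^ 2) (c.a ⁅g1, g2⁆).val (c.a ⁅g3, g4⁆).val
    (congrArg Units.val k1.eq) (congrArg Units.val k2.eq) (fun i u hu =>
      core c ρ hρ (y := y1) (by rw [hy1]; exact mc m1 m2) (by rw [hy1]; exact k1) hrK
        ⟨hfin y1, le_rfl⟩ hrd (P i) u (by rw [hy1]; exact hu))
  obtain ⟨e, he, hae⟩ := c.a_comm (mc m1 m2) (mc m3 m4)
  refine ⟨e⁻¹, inv_ne_zero he, ?_⟩
  rw [hae, smul_smul, inv_mul_cancel₀ he, one_smul]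
  refine le_trans ?_ hB
  have h5 : (⁅c.a ⁅g1, g2⁆, c.a ⁅g3, g4⁆⁆ : (c.V →ₗ[c.F] c.V)ˣ).val - 1 =
      ((c.a ⁅g1, g2⁆).val * (c.a ⁅g3, g4⁆).val - (c.a ⁅g3, g4⁆).val * (c.a ⁅g1, g2⁆).val) *
        (((c.a ⁅g1, g2⁆)⁻¹).val * ((c.a ⁅g3, g4⁆)⁻¹).val) := by
    rw [commutatorElement_def]
    simp only [Units.val_mul]
    have h6 : (c.a ⁅g3, g4⁆).val * (c.a ⁅g1, g2⁆).val *
        (((c.a ⁅g1, g2⁆)⁻¹).val * ((c.a ⁅g3, g4⁆)⁻¹).val) = 1 := by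
      rw [mul_assoc, ← mul_assoc (c.a ⁅g1, g2⁆).val, Units.mul_inv, one_mul, Units.mul_inv]
    rw [sub_mul, h6, mul_assoc ((c.a ⁅g1, g2⁆).val * (c.a ⁅g3, g4⁆).val)]
  rw [h5]
  exact Submodule.finrank_mono (LinearMap.range_comp_le_range _ _)

end Pool.Agent.Lib.MP_b9166b_al.Ks
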