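import Pool.Agent.Lib.MP_b9166b_al.Ks.Defs
import Pool.Agent.Lib.MP_b9166b_al.Ks.Lift

/-!
# From AltCover to ACov
-/

set_option autoImplicit false

namespace Pool.Agent.Lib.MP_b9166b_al.Ks

open scoped commutatorElement

/-- The centre of an alternating group of degree ≥ 4 is trivial. -/
theorem alt_center {n : ℕ} (hn : 4 ≤ n) {b : alternatingGroup (Fin n)}
    (h : ∀ b' : alternatingGroup (Fin n), Commute b b') : b = 1 := by
  have h1 : b ∈ Subgroup.center (alternatingGroup (Fin n)) :=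
    Subgroup.mem_center_iff.2 fun g => (h g).eq.symm
  rw [alternatingGroup.center_eq_bot (by simpa using hn)] at h1
  exact Subgroup.mem_bot.1 h1

variable {G : Type} [Group G] {x : G} {S : Finset G}

/-- the alternating part of a decomposition is unique -/
theorem cov_unique {Q : Type} [Group Q] {n : ℕ} (hn : 4 ≤ n)
    {σ : alternatingGroup (Fin n) →* Q} (hσ : ∀ b, σ b = 1 → b = 1)
    {b b' : alternatingGroup (Fin n)} {c c' : Q} (hc : ∀ d, Commute c (σ d))
    (hc' : ∀ d, Commute c' (σ d)) (h : σ b * c = σ b' * c') : b = b' := by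
  have h1 : σ (b'⁻¹ * b) = c' * c⁻¹ := by
    rw [map_mul, map_inv, inv_mul_eq_iff_eq_mul, ← mul_assoc, eq_mul_inv_iff_mul_eq]
    exact h
  have h2 : b'⁻¹ * b = 1 := by
    refine alt_center hn fun d => ?_
    rw [← commutatorElement_eq_one_iff_commute]
    apply hσ
    rw [map_commutatorElement, commutatorElement_eq_one_iff_commute, h1]
    exact (hc' d).mul_left (hc d).inv_left
  exact (inv_mul_eq_one.1 h2).symm

/-- If S contains some s ≠ 1 then n ≥ 4 (for n ≤ 3 the group H / T is generated by the abelian image of σ and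
its centralizer, so the image of σ is central). a_h = the permutation b of a decomposition h T = σ b * c, unique
because σ b in the centralizer of the image gives b central, b = 1. -/
theorem AltCover.acov (h : AltCover x S) (hS : ∃ s ∈ S, s ≠ 1) : Nonempty (ACov x S) := by
  classical
  obtain ⟨H, T, hT, n, σ, hx, hfin, hSH, hcop, hinj, hdec, hsep⟩ := h
  have hn : 4 ≤ n := by
    by_contra hn
    obtain ⟨s, hs, hs1⟩ := hS
    obtain ⟨b, hb⟩ := hsep ⟨s, hSH s hs⟩ hs fun h0 => hs1 (congrArg Subtype.val h0)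
    apply hb
    obtain ⟨b', c, hc, he⟩ := hdec (QuotientGroup.mk ⟨s, hSH s hs⟩ : H ⧸ T)
    rw [he]
    have hab := alternatingGroup.isMulCommutative_of_card_le_three (α := Fin n)
      (by rw [Nat.card_eq_fintype_card, Fintype.card_fin]; omega)
    refine Commute.mul_left ?_ (hc b)
    have h1 : Commute b' b := hab.is_comm.comm b' b
    exact h1.map σ
  choose A c hc hA using hdec
  have hAu : ∀ (q : H ⧸ T) (b : alternatingGroup (Fin n)) (d : H ⧸ T), (∀ e, Commute d (σ e)) →
      q = σ b * d → A q = b := fun q b d hd hq =>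
    cov_unique hn hinj (hc q) hd ((hA q).symm.trans hq)
  have hAm : ∀ q q' : H ⧸ T, A (q * q') = A q * A q' := by
    intro q q'
    refine hAu _ _ (c q * c q') (fun e => (hc q e).mul_left (hc q' e)) ?_
    rw [map_mul]
    conv_lhs => rw [hA q, hA q']
    rw [mul_assoc, mul_assoc, ← mul_assoc (c q), (hc q (A q')).eq, mul_assoc]
  let a : G → Equiv.Perm (Fin n) := fun g =>
    if hg : g ∈ H then (A (QuotientGroup.mk ⟨g, hg⟩ : H ⧸ T) : Equiv.Perm (Fin n)) else 1
  have ha : ∀ g (hg : g ∈ H), a g = A (QuotientGroup.mk ⟨g, hg⟩ : H ⧸ T) := fun g hg => dif_pos hg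
  refine ⟨⟨H, hfin, hx, hSH, n, a, ?_, ?_, ?_⟩⟩
  · intro g hg h hh
    rw [ha g hg, ha h hh, ha (g * h) (H.mul_mem hg hh)]
    have h1 := hAm (QuotientGroup.mk ⟨g, hg⟩) (QuotientGroup.mk ⟨h, hh⟩)
    exact congrArg Subtype.val h1
  · intro s hs hs1 h0
    rw [ha s (hSH s hs)] at h0
    have h1 : A (QuotientGroup.mk ⟨s, hSH s hs⟩ : H ⧸ T) = 1 := Subtype.ext h0
    obtain ⟨b, hb⟩ := hsep ⟨s, hSH s hs⟩ hs fun h0 => hs1 (congrArg Subtype.val h0)
    apply hb
    have h2 := hA (QuotientGroup.mk ⟨s, hSH s hs⟩ : H ⧸ T)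
    rw [h1, map_one, one_mul] at h2
    rw [h2]
    exact hc _ b
  · intro D hD hDx u huD
    have hux : Commute u (a x) := hDx u huD
    have hu : u ∈ alternatingGroup (Fin n) := by
      rw [← hD] at huD
      exact alternatingGroup.commutator_perm_le
        (Subgroup.commutator_mono le_top le_top huD)
    let u' : alternatingGroup (Fin n) := ⟨u, hu⟩
    obtain ⟨h0, hh0⟩ := QuotientGroup.mk_surjective (σ u')
    rw [ha x hx] at hux
    have h1 : Commute u' (A (QuotientGroup.mk ⟨x, hx⟩ : H ⧸ T)) := Subtype.ext hux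
    have h2 : Commute (QuotientGroup.mk' T h0) (QuotientGroup.mk' T ⟨x, hx⟩) := by
      change Commute (QuotientGroup.mk h0 : H ⧸ T) (QuotientGroup.mk ⟨x, hx⟩ : H ⧸ T)
      rw [hh0, hA (QuotientGroup.mk ⟨x, hx⟩ : H ⧸ T)]
      exact (h1.map σ).mul_right (hc _ u').symm
    obtain ⟨t, ht, hcomm⟩ := exists_commute_mul T (x := ⟨x, hx⟩)
      (by rw [Subgroup.orderOf_mk]; exact hcop) (lift_mem_of_comm T h2)
    refine ⟨(h0 * t : H), (h0 * t).2, congrArg Subtype.val hcomm.eq, ?_⟩
    rw [ha _ (h0 * t).2]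
    have h3 : (QuotientGroup.mk (h0 * t) : H ⧸ T) = σ u' * 1 := by
      rw [mul_one, ← hh0]
      exact QuotientGroup.eq.2 (by
        rw [mul_inv_rev, mul_assoc, inv_mul_cancel, mul_one]
        exact T.inv_mem ht)
    have h4 := hAu _ u' 1 (fun e => Commute.one_left _) h3
    exact congrArg Subtype.val h4

end Pool.Agent.Lib.MP_b9166b_al.Ks
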