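import Pool.Agent.Lib.MP_b9166b_al.Germ
import Pool.Agent.Lib.MP_b9166b_al.Deg

/-!
# MP_b9166b_al, KSS: covers of semisimple type relative to an element

`LinCover x S` and `AltCover x S` are the local conditions of the theorem; `LCov`, `ACov` are the
internal forms used in the proofs (a projective representation, resp. a permutation representation, for
which the centralizers of x lift).
-/

set_option autoImplicit false

namespace Pool.Agent.Lib.MP_b9166b_al.Ks

variable {G : Type} [Group G]

/-- The finite set `S` and `x` lie in a finite subgroup `H` of `G` which has a normal subgroup `T` of order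
prime to the order of `x`, such that `H / T` is the central product of the image of `SL_n(F)` (`F` a field
whose characteristic does not divide the order of `x`, and the kernel of `SL_n(F) → H / T` is central) and
of the centralizer of this image, and no element `s ≠ 1` of `S` maps into this centralizer. -/
def LinCover (x : G) (S : Finset G) : Prop :=
  ∃ (H : Subgroup G) (T : Subgroup H) (_ : T.Normal) (F : Type) (_ : Field F) (n : ℕ)
    (σ : Matrix.SpecialLinearGroup (Fin n) F →* H ⧸ T) (_ : x ∈ H),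
    Finite H ∧ (∀ s ∈ S, s ∈ H) ∧ (Nat.card T).Coprime (orderOf x) ∧ (orderOf x : F) ≠ 0 ∧
    (∀ b, σ b = 1 → ∀ b', Commute b b') ∧
    (∀ q : H ⧸ T, ∃ b c, (∀ b', Commute c (σ b')) ∧ q = σ b * c) ∧
    (∀ s : H, (s : G) ∈ S → s ≠ 1 → ∃ b, ¬ Commute (QuotientGroup.mk s : H ⧸ T) (σ b))

/-- The same with an alternating group in place of `SL_n(F)`. -/
def AltCover (x : G) (S : Finset G) : Prop :=
  ∃ (H : Subgroup G) (T : Subgroup H) (_ : T.Normal) (n : ℕ)
    (σ : alternatingGroup (Fin n) →* H ⧸ T) (_ : x ∈ H),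
    Finite H ∧ (∀ s ∈ S, s ∈ H) ∧ (Nat.card T).Coprime (orderOf x) ∧
    (∀ b, σ b = 1 → b = 1) ∧
    (∀ q : H ⧸ T, ∃ b c, (∀ b', Commute c (σ b')) ∧ q = σ b * c) ∧
    (∀ s : H, (s : G) ∈ S → s ≠ 1 → ∃ b, ¬ Commute (QuotientGroup.mk s : H ⧸ T) (σ b))

/-- Internal form of `LinCover`: a projective representation `a` of the finite group `H` on the finite
dimensional space `V`, such that every `u` in `SL(V)` commuting with `a x` is, up to a scalar, the image of
an element of `H` commuting with `x`. -/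
structure LCov (x : G) (S : Finset G) where
  H : Subgroup G
  fin : Finite H
  hx : x ∈ H
  hS : ∀ s ∈ S, s ∈ H
  F : Type
  fld : Field F
  V : Type
  grp : AddCommGroup V
  mod : Module F V
  fd : FiniteDimensional F V
  a : G → (V →ₗ[F] V)ˣ
  mul : ∀ g ∈ H, ∀ h ∈ H, ∃ c : F, c ≠ 0 ∧ (a (g * h)).val = c • ((a g).val * (a h).val)
  sep : ∀ s ∈ S, s ≠ 1 → ∀ c : F, (a s).val ≠ c • 1
  cop : (orderOf x : F) ≠ 0
  lift : ∀ u : (V →ₗ[F] V)ˣ, LinearMap.det u.val = 1 → Commute u (a x) →
    ∃ h ∈ H, Commute h x ∧ ∃ c : F, c ≠ 0 ∧ (a h).val = c • u.val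

attribute [instance] LCov.fin LCov.fld LCov.grp LCov.mod LCov.fd

/-- Internal form of `AltCover`; the elements of perfect subgroups commuting with `a x` have lifts. -/
structure ACov (x : G) (S : Finset G) where
  H : Subgroup G
  fin : Finite H
  hx : x ∈ H
  hS : ∀ s ∈ S, s ∈ H
  n : ℕ
  a : G → Equiv.Perm (Fin n)
  mul : ∀ g ∈ H, ∀ h ∈ H, a (g * h) = a g * a h
  sep : ∀ s ∈ S, s ≠ 1 → a s ≠ 1
  lift : ∀ D : Subgroup (Equiv.Perm (Fin n)), ⁅D, D⁆ = D → (∀ u ∈ D, Commute u (a x)) → ∀ u ∈ D,
    ∃ h ∈ H, Commute h x ∧ a h = u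

attribute [instance] ACov.fin

end Pool.Agent.Lib.MP_b9166b_al.Ks
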