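import Pool.Agent.Lib.MP_b9166b_al.Ks.LCov
import Pool.Agent.Lib.MP_b9166b_al.Ks.LA
import Pool.Agent.Lib.MP_b9166b_al.Ks.PartB

/-!
# Large covers give noncommuting commutators in the centralizer of x
-/

set_option autoImplicit false

namespace Pool.Agent.Lib.MP_b9166b_al.Ks

open scoped commutatorElement

/-- Four even permutations of five points, each a commutator; decide. -/
theorem exists_perm_five : ∃ α β : Fin 4 → Equiv.Perm (Fin 5),
    ⁅⁅⁅α 0, β 0⁆, ⁅α 1, β 1⁆⁆, ⁅⁅α 2, β 2⁆, ⁅α 3, β 3⁆⁆⁆ ≠ 1 := by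
  refine ⟨![Equiv.swap 0 1, Equiv.swap 0 3, Equiv.swap 0 2, Equiv.swap 0 3],
    ![Equiv.swap 1 2, Equiv.swap 3 4, Equiv.swap 2 1, Equiv.swap 3 4], ?_⟩
  decide +kernel

private theorem ex_det_commutator {F V : Type} [Field F] [AddCommGroup V] [Module F V]
    (g h : (V →ₗ[F] V)ˣ) : LinearMap.det (⁅g, h⁆ : (V →ₗ[F] V)ˣ).val = 1 := by
  have key : ∀ k : (V →ₗ[F] V)ˣ, LinearMap.det k.val * LinearMap.det (k⁻¹).val = 1 := by
    intro k
    rw [← map_mul, Units.mul_inv, map_one]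
  rw [commutatorElement_def, Units.val_mul, Units.val_mul, Units.val_mul, map_mul, map_mul, map_mul]
  calc LinearMap.det g.val * LinearMap.det h.val * LinearMap.det (g⁻¹).val *
        LinearMap.det (h⁻¹).val
      = (LinearMap.det g.val * LinearMap.det (g⁻¹).val) *
        (LinearMap.det h.val * LinearMap.det (h⁻¹).val) := by ring
    _ = 1 := by rw [key, key, one_mul]

private theorem ex_inv {F V : Type} [Field F] [AddCommGroup V] [Module F V]
    {g h : (V →ₗ[F] V)ˣ} (hg : lcPr F g.val h.val) : lcPr F (g⁻¹).val (h⁻¹).val := by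
  obtain ⟨e, he, hg⟩ := hg
  refine ⟨e⁻¹, inv_ne_zero he, ?_⟩
  have h1 : g.val * (e⁻¹ • (h⁻¹).val) = 1 := by
    rw [hg, smul_mul_smul_comm, mul_inv_cancel₀ he, Units.mul_inv, one_smul]
  exact Units.inv_eq_of_mul_eq_one_right h1

private theorem ex_comm {F V : Type} [Field F] [AddCommGroup V] [Module F V]
    {g h g' h' : (V →ₗ[F] V)ˣ} (hg : lcPr F g.val g'.val) (hh : lcPr F h.val h'.val) :
    lcPr F (⁅g, h⁆ : (V →ₗ[F] V)ˣ).val (⁅g', h'⁆ : (V →ₗ[F] V)ˣ).val := by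
  rw [commutatorElement_def, commutatorElement_def]
  simp only [Units.val_mul]
  exact ((hg.mul hh).mul (ex_inv hg)).mul (ex_inv hh)

variable {G : Type} [Group G] {x : G} {S : Finset G}

private theorem ex_acomm (c : LCov x S) {g h : G} (hg : g ∈ c.H) (hh : h ∈ c.H)
    {u v : (c.V →ₗ[c.F] c.V)ˣ} (h1 : lcPr c.F (c.a g).val u.val)
    (h2 : lcPr c.F (c.a h).val v.val) :
    ⁅g, h⁆ ∈ c.H ∧ lcPr c.F (c.a ⁅g, h⁆).val (⁅u, v⁆ : (c.V →ₗ[c.F] c.V)ˣ).val := by
  refine ⟨?_, ?_⟩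
  · rw [commutatorElement_def]
    exact c.H.mul_mem (c.H.mul_mem (c.H.mul_mem hg hh) (c.H.inv_mem hg)) (c.H.inv_mem hh)
  · have h3 : lcPr c.F (c.a ⁅g, h⁆).val (⁅c.a g, c.a h⁆ : (c.V →ₗ[c.F] c.V)ˣ).val :=
      c.a_comm hg hh
    exact h3.trans (ex_comm h1 h2)

/-- m = order of x. exists_parts (a_x_pow), exists_large_part with N = 4, five independent vectors of W,
Θ = exists_perm_rep (κ = Empty), X = exists_ext; the four elements X (Θ ⁅α_i, β_i⁆) have determinant 1, lift them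
to g_i; if the commutator of the g's is 1 then a_1, a scalar, is a multiple of X (Θ (π)) with π ≠ 1,
contradiction on the vectors j (w i). -/
theorem exists_comm_comm (c : LCov x S) (hx : 0 < orderOf x)
    (hV : orderOf x * orderOf x * 4 < Module.finrank c.F c.V) :
    ∃ g1 g2 g3 g4 : G, Commute g1 x ∧ Commute g2 x ∧ Commute g3 x ∧ Commute g4 x ∧
      ⁅⁅g1, g2⁆, ⁅g3, g4⁆⁆ ≠ 1 := by
  classical
  obtain ⟨e0, he0, hax⟩ := c.a_x_pow
  obtain ⟨k, P0, hk, hP⟩ := exists_parts (c.a x).val c.cop he0 hax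
  obtain ⟨i0, hi0⟩ := exists_large_part P0 hk hP hV
  set P := P0 i0 with hPdef
  have jinj : Function.Injective P.j := P.j_inj
  obtain ⟨v, hv⟩ := exists_linearIndependent_of_le_finrank (R := P.E) (M := P.W) (n := 5) hi0
  let w : Fin 5 ⊕ Empty → P.W := Sum.elim v Empty.elim
  have hw : LinearIndependent P.E w := by
    rw [← linearIndependent_equiv (Equiv.sumEmpty (Fin 5) Empty).symm]
    exact hv
  obtain ⟨Θ, hΘ1, -⟩ := exists_perm_rep w hw
  obtain ⟨X, hX1, hX2⟩ := P.exists_ext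
  obtain ⟨α, β, hαβ⟩ := exists_perm_five
  have hUl : ∀ (π : Equiv.Perm (Fin 5)) (i : Fin 5), (X (Θ π)).val (P.j (v i)) =
      P.j (v (π i)) := by
    intro π i
    rw [hX1]
    exact congrArg P.j (hΘ1 π i)
  have hlift : ∀ i : Fin 4, ∃ g : G, g ∈ c.H ∧ Commute g x ∧
      lcPr c.F (c.a g).val (X (Θ ⁅α i, β i⁆)).val := by
    intro i
    have hdet : LinearMap.det (X (Θ ⁅α i, β i⁆)).val = 1 := by
      rw [map_commutatorElement, map_commutatorElement]
      exact ex_det_commutator _ _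
    have hcomm : Commute (X (Θ ⁅α i, β i⁆)) (c.a x) := Units.ext (hX2 (Θ ⁅α i, β i⁆)).eq
    obtain ⟨g, hgH, hgx, hge⟩ := c.lift _ hdet hcomm
    exact ⟨g, hgH, hgx, hge⟩
  choose g hgH hgx hge using hlift
  refine ⟨g 0, g 1, g 2, g 3, hgx 0, hgx 1, hgx 2, hgx 3, fun h1 => ?_⟩
  obtain ⟨m1, r1⟩ := ex_acomm c (hgH 0) (hgH 1) (hge 0) (hge 1)
  obtain ⟨m2, r2⟩ := ex_acomm c (hgH 2) (hgH 3) (hge 2) (hge 3)
  obtain ⟨-, r3⟩ := ex_acomm c m1 m2 r1 r2
  rw [h1] at r3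
  have r4 := r3.symm.trans c.pr_one
  rw [← map_commutatorElement, ← map_commutatorElement, ← map_commutatorElement,
    ← map_commutatorElement, ← map_commutatorElement, ← map_commutatorElement] at r4
  set π := ⁅⁅⁅α 0, β 0⁆, ⁅α 1, β 1⁆⁆, ⁅⁅α 2, β 2⁆, ⁅α 3, β 3⁆⁆⁆ with hπ
  obtain ⟨e, he, h5⟩ := r4
  apply hαβ
  ext1 i
  rw [Equiv.Perm.one_apply]
  by_contra hne
  have h6 := hUl π i
  rw [h5, LinearMap.smul_apply, Module.End.one_apply, ← map_smul] at h6
  have h7 := jinj h6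
  have h8 := hv.notMem_span_image (s := {i}) (x := π i) (by
    intro h
    exact hne (Set.mem_singleton_iff.1 h))
  apply h8
  rw [← h7, Set.image_singleton]
  have h9 : e • v i = (algebraMap c.F P.E e) • v i := by
    rw [algebraMap_smul]
  rw [h9]
  exact Submodule.smul_mem _ _ (Submodule.mem_span_singleton_self _)

end Pool.Agent.Lib.MP_b9166b_al.Ks
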