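import Pool.Agent.Lib.MP_b9166b_al.Germ

/-!
# Ultraproducts of linear groups of bounded degrees

A = Π F_i, M a maximal ideal of A containing all elements which are eventually 0, 𝒱 = Π V_i (an A-module),
V* = 𝒱 / M 𝒱 over A / M. g acts on 𝒱 componentwise; two products differ only on a set of i not in l, so they
agree on V* (v eventually 0: v = e v with e in M). If eventually rank (a_i g - 1) ≤ B, then
a_i g - 1 = Σ_{k < B} φ_k,i ⊗ w_k,i, so the range on V* is spanned by the classes of the w_k. If eventually
a_i g ≠ 1 take v with (a_i g - 1) v_i ≠ 0 and functionals ψ_i with value 1 there: ψ : 𝒱 → A is A-linear,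
maps M 𝒱 into M, and 1 (eventually) is not in M. Finally add a trivial summand of infinite dimension.
-/

set_option autoImplicit false

namespace Pool.Agent.Lib.MP_b9166b_al.Ks

open Filter

namespace UltraAux

/-- a trivial summand of infinite dimension -/
theorem finLin_of_finRep {K V G : Type} [Field K] [AddCommGroup V] [Module K V] [Group G]
    (h : FinRep K V G) : FinLin G := by
  obtain ⟨ρ, hinj, hfin⟩ := h
  let W : Type := ℕ →₀ K
  let R : G →* Module.End K (V × W) :=
    { toFun := fun g => LinearMap.prodMap (ρ g).val LinearMap.id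
      map_one' := by
        rw [map_one]
        refine LinearMap.ext fun x => ?_
        rfl
      map_mul' := fun g h => by
        rw [map_mul]
        refine LinearMap.ext fun x => ?_
        rfl }
  have hR : ∀ g x, R g x = ((ρ g).val x.1, x.2) := fun g x => rfl
  refine ⟨K, inferInstance, V × W, inferInstance, inferInstance, ?_, ⟨R.toHomUnits, ?_, ?_⟩⟩
  · intro h
    have h1 : FiniteDimensional K W :=
      Module.Finite.of_surjective (LinearMap.snd K V W) LinearMap.snd_surjective
    have := Module.Finite.finite_basis (Finsupp.basisSingleOne (R := K) (ι := ℕ))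
    exact not_finite ℕ
  · rw [injective_iff_map_eq_one]
    intro g hg
    apply hinj
    rw [map_one]
    have h1 : R g = 1 := congrArg Units.val hg
    refine Units.ext (LinearMap.ext fun v => ?_)
    have h2 := congrArg (fun T : Module.End K (V × W) => (T (v, 0)).1) h1
    exact h2
  · intro g
    have h1 : LinearMap.range (1 - R g) ≤
        Submodule.map (LinearMap.inl K V W) (LinearMap.range (1 - (ρ g).val)) := by
      rintro _ ⟨x, rfl⟩
      refine ⟨(1 - (ρ g).val) x.1, LinearMap.mem_range_self _ _, ?_⟩
      rw [LinearMap.sub_apply, LinearMap.sub_apply, hR]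
      refine Prod.ext rfl ?_
      change (0 : W) = x.2 - x.2
      rw [sub_self]
    have h2 : FiniteDimensional K (LinearMap.range (1 - (ρ g).val)) := hfin g
    have h3 : FiniteDimensional K
        (Submodule.map (LinearMap.inl K V W) (LinearMap.range (1 - (ρ g).val))) := inferInstance
    exact Submodule.finiteDimensional_of_le h1

theorem exists_span {K V : Type} [Field K] [AddCommGroup V] [Module K V] [FiniteDimensional K V]
    (R : Submodule K V) {B : ℕ} (hB : Module.finrank K R ≤ B) :
    ∃ w : Fin B → V, ∀ x ∈ R, ∃ c : Fin B → K, ∑ k, c k • w k = x := by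
  let b := Module.finBasis K R
  refine ⟨fun k => if h : (k : ℕ) < Module.finrank K R then (b ⟨k, h⟩ : V) else 0, ?_⟩
  intro x hx
  rw [← Submodule.mem_span_range_iff_exists_fun]
  have h1 : (⟨x, hx⟩ : R) ∈ Submodule.span K (Set.range b) := by
    rw [b.span_eq]; exact Submodule.mem_top
  have h2 : x ∈ Submodule.map R.subtype (Submodule.span K (Set.range b)) := ⟨⟨x, hx⟩, h1, rfl⟩
  rw [Submodule.map_span] at h2
  refine Submodule.span_mono ?_ h2
  rintro _ ⟨_, ⟨j, rfl⟩, rfl⟩
  refine ⟨⟨j, j.2.trans_le hB⟩, ?_⟩
  simp

section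
variable {I : Type} (U : Ultrafilter I) (F : I → Type) (V : I → Type) [∀ i, Field (F i)]
  [∀ i, AddCommGroup (V i)] [∀ i, Module (F i) (V i)]

/-- the ideal of the eventually vanishing families -/
def Mi : Ideal (∀ i, F i) where
  carrier := {f | ∀ᶠ i in (U : Filter I), f i = 0}
  add_mem' := by
    intro f g hf hg
    filter_upwards [hf, hg] with i h1 h2
    rw [Pi.add_apply, h1, h2, add_zero]
  zero_mem' := Filter.Eventually.of_forall fun i => rfl
  smul_mem' := by
    intro c f hf
    filter_upwards [hf] with i h1
    rw [Pi.smul_apply', h1, smul_zero]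

theorem mem_Mi (f : ∀ i, F i) : f ∈ Mi U F ↔ ∀ᶠ i in (U : Filter I), f i = 0 := Iff.rfl

instance Mi_max : (Mi U F).IsMaximal := by
  classical
  rw [Ideal.isMaximal_iff]
  constructor
  · rw [mem_Mi]
    intro h
    obtain ⟨i, hi⟩ := h.exists
    exact one_ne_zero hi
  · intro J x hJ hx hxJ
    rw [mem_Mi, ← Ultrafilter.eventually_not] at hx
    have h1 : (fun i => (x i)⁻¹) * x ∈ J := J.mul_mem_left _ hxJ
    have h2 : 1 - (fun i => (x i)⁻¹) * x ∈ J := by
      apply hJ
      rw [mem_Mi]
      filter_upwards [hx] with i hi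
      rw [Pi.sub_apply, Pi.mul_apply, Pi.one_apply, inv_mul_cancel₀ hi, sub_self]
    have h3 := J.add_mem h2 h1
    rwa [sub_add_cancel] at h3

/-- the ultraproduct field -/
abbrev KU : Type := (∀ i, F i) ⧸ Mi U F

noncomputable instance KU_field : Field (KU U F) := Ideal.Quotient.field _

/-- the ultraproduct space -/
abbrev VU : Type := (∀ i, V i) ⧸ (Mi U F • ⊤ : Submodule (∀ i, F i) (∀ i, V i))

theorem mem_smul_top (v : ∀ i, V i) :
    v ∈ (Mi U F • ⊤ : Submodule (∀ i, F i) (∀ i, V i)) ↔ ∀ᶠ i in (U : Filter I), v i = 0 := by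
  classical
  constructor
  · intro h
    refine Submodule.smul_induction_on h ?_ ?_
    · intro c hc w _
      filter_upwards [hc] with i hi
      rw [Pi.smul_apply', hi, zero_smul]
    · intro x y hx hy
      filter_upwards [hx, hy] with i h1 h2
      rw [Pi.add_apply, h1, h2, add_zero]
  · intro h
    have h1 : v = (fun i => if v i = 0 then (0 : F i) else 1 : ∀ i, F i) • v := by
      funext i
      rw [Pi.smul_apply']
      by_cases hv : v i = 0
      · rw [hv, smul_zero]
      · rw [if_neg hv, one_smul]
    rw [h1]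
    refine Submodule.smul_mem_smul ?_ Submodule.mem_top
    rw [mem_Mi]
    filter_upwards [h] with i hi
    rw [if_pos hi]

theorem mk_eq_mk (v w : ∀ i, V i) :
    (Submodule.Quotient.mk v : VU U F V) = Submodule.Quotient.mk w ↔
      ∀ᶠ i in (U : Filter I), v i = w i := by
  rw [Submodule.Quotient.eq, mem_smul_top]
  simp only [Pi.sub_apply, sub_eq_zero]

variable {F V}

/-- the componentwise map -/
def pm (T : ∀ i, V i →ₗ[F i] V i) : (∀ i, V i) →ₗ[∀ i, F i] (∀ i, V i) where
  toFun v := fun i => T i (v i)
  map_add' v w := by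
    funext i
    exact map_add _ _ _
  map_smul' c v := by
    funext i
    exact map_smul _ _ _

theorem pm_mem (T : ∀ i, V i →ₗ[F i] V i) :
    (Mi U F • ⊤ : Submodule (∀ i, F i) (∀ i, V i)) ≤
      Submodule.comap (pm T) (Mi U F • ⊤ : Submodule (∀ i, F i) (∀ i, V i)) := by
  intro v hv
  rw [mem_smul_top] at hv
  rw [Submodule.mem_comap, mem_smul_top]
  filter_upwards [hv] with i hi
  change T i (v i) = 0
  rw [hi, map_zero]

/-- the map of the ultraproduct -/
noncomputable def um (T : ∀ i, V i →ₗ[F i] V i) : VU U F V →ₗ[KU U F] VU U F V where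
  toFun := Submodule.mapQ _ _ (pm T) (pm_mem U T)
  map_add' v w := map_add _ _ _
  map_smul' c v := by
    obtain ⟨c, rfl⟩ := Ideal.Quotient.mk_surjective c
    exact map_smul (Submodule.mapQ _ _ (pm T) (pm_mem U T)) c v

theorem um_mk (T : ∀ i, V i →ₗ[F i] V i) (v : ∀ i, V i) :
    um U T (Submodule.Quotient.mk v) = Submodule.Quotient.mk (fun i => T i (v i)) := rfl

theorem um_congr {T S : ∀ i, V i →ₗ[F i] V i} (h : ∀ᶠ i in (U : Filter I), T i = S i) :
    um U T = um U S := by
  refine LinearMap.ext fun x => ?_
  obtain ⟨v, rfl⟩ := Submodule.Quotient.mk_surjective _ x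
  rw [um_mk, um_mk, mk_eq_mk]
  filter_upwards [h] with i hi
  rw [hi]

theorem um_one : um U (fun i => (1 : V i →ₗ[F i] V i)) = 1 := by
  refine LinearMap.ext fun x => ?_
  obtain ⟨v, rfl⟩ := Submodule.Quotient.mk_surjective _ x
  rfl

theorem um_mul (T S : ∀ i, V i →ₗ[F i] V i) : um U (fun i => T i * S i) = um U T * um U S := by
  refine LinearMap.ext fun x => ?_
  obtain ⟨v, rfl⟩ := Submodule.Quotient.mk_surjective _ x
  rfl

end

end UltraAux

open UltraAux in
theorem finLin_of_linear_family {I : Type} {G : Type} [Group G] (l : Filter I) [l.NeBot]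
    (F : I → Type) (V : I → Type) [∀ i, Field (F i)] [∀ i, AddCommGroup (V i)]
    [∀ i, Module (F i) (V i)] [∀ i, FiniteDimensional (F i) (V i)]
    (a : ∀ i, G → (V i →ₗ[F i] V i)ˣ)
    (hmul : ∀ g h, ∀ᶠ i in l, a i (g * h) = a i g * a i h)
    (hfin : ∀ g, ∃ B : ℕ, ∀ᶠ i in l,
      Module.finrank (F i) (LinearMap.range ((a i g).val - 1)) ≤ B)
    (hne : ∀ g, g ≠ 1 → ∀ᶠ i in l, a i g ≠ 1) : FinLin G := by
  classical
  let U : Ultrafilter I := Ultrafilter.of l
  have hU : (U : Filter I) ≤ l := Ultrafilter.of_le l
  have hone : ∀ᶠ i in (U : Filter I), a i 1 = 1 := by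
    filter_upwards [hU (hmul 1 1)] with i hi
    rw [mul_one] at hi
    exact left_eq_mul.1 hi
  let R : G →* (VU U F V →ₗ[KU U F] VU U F V) :=
    { toFun := fun g => um U (fun i => (a i g).val)
      map_one' := by
        rw [← um_one]
        refine um_congr U ?_
        filter_upwards [hone] with i hi
        rw [hi]
        rfl
      map_mul' := fun g h => by
        rw [← um_mul]
        refine um_congr U ?_
        filter_upwards [hU (hmul g h)] with i hi
        rw [hi]
        rfl }
  have hR : ∀ g (v : ∀ i, V i), R g (Submodule.Quotient.mk v) =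
      Submodule.Quotient.mk (fun i => (a i g).val (v i)) := fun g v => rfl
  refine finLin_of_finRep (K := KU U F) (V := VU U F V) ⟨R.toHomUnits, ?_, ?_⟩
  · rw [injective_iff_map_eq_one]
    intro g hg
    by_contra hg1
    have h0 : R g = 1 := congrArg Units.val hg
    have h1 : ∀ i, ∃ v : V i, a i g ≠ 1 → (a i g).val v ≠ v := by
      intro i
      by_cases h : a i g = 1
      · exact ⟨0, fun h' => absurd h h'⟩
      · by_contra hc
        push Not at hc
        apply h
        exact Units.ext (LinearMap.ext fun v => (hc v).2)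
    choose v hv using h1
    have h2 := hR g v
    rw [h0, Module.End.one_apply, mk_eq_mk] at h2
    obtain ⟨i, hi1, hi2⟩ := (h2.and (hU (hne g hg1))).exists
    exact hv i hi2 hi1.symm
  · intro g
    obtain ⟨B, hB⟩ := hfin g
    have h1 : ∀ i, ∃ w : Fin B → V i,
        Module.finrank (F i) (LinearMap.range ((a i g).val - 1)) ≤ B →
        ∀ x : V i, ∃ c : Fin B → F i, ∑ k, c k • w k = x - (a i g).val x := by
      intro i
      by_cases h : Module.finrank (F i) (LinearMap.range ((a i g).val - 1)) ≤ B
      · obtain ⟨w, hw⟩ := exists_span (LinearMap.range ((a i g).val - 1)) h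
        refine ⟨w, fun _ x => hw _ ?_⟩
        refine ⟨-x, ?_⟩
        rw [LinearMap.sub_apply, map_neg, Module.End.one_apply]
        abel
      · exact ⟨0, fun h' => absurd h' h⟩
    choose w hw using h1
    let S : Set (VU U F V) := Set.range fun k : Fin B =>
      (Submodule.Quotient.mk (fun i => w i k) : VU U F V)
    have hS : S.Finite := Set.finite_range _
    have hle : LinearMap.range (1 - R g) ≤ Submodule.span (KU U F) S := by
      rintro _ ⟨x, rfl⟩
      obtain ⟨v, rfl⟩ := Submodule.Quotient.mk_surjective _ x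
      have h2 : ∀ i, ∃ c : Fin B → F i,
          Module.finrank (F i) (LinearMap.range ((a i g).val - 1)) ≤ B →
          ∑ k, c k • w i k = v i - (a i g).val (v i) := by
        intro i
        by_cases h : Module.finrank (F i) (LinearMap.range ((a i g).val - 1)) ≤ B
        · obtain ⟨c, hc⟩ := hw i h (v i)
          exact ⟨c, fun _ => hc⟩
        · exact ⟨0, fun h' => absurd h' h⟩
      choose c hc using h2
      have h3 : (1 - R g) (Submodule.Quotient.mk v) =
          ∑ k : Fin B, (Ideal.Quotient.mk (Mi U F) (fun i => c i k)) •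
            (Submodule.Quotient.mk (fun i => w i k) : VU U F V) := by
        have h4 : ∀ k : Fin B, (Ideal.Quotient.mk (Mi U F) (fun i => c i k)) •
            (Submodule.Quotient.mk (fun i => w i k) : VU U F V) =
            Submodule.Quotient.mk (fun i => c i k • w i k) := fun k => rfl
        rw [Finset.sum_congr rfl fun k _ => h4 k]
        have h5 : ∑ k : Fin B, (Submodule.Quotient.mk (fun i => c i k • w i k) : VU U F V) =
            Submodule.Quotient.mk (∑ k : Fin B, fun i => c i k • w i k) :=
          (map_sum (Submodule.mkQ (Mi U F • ⊤ : Submodule (∀ i, F i) (∀ i, V i)))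
            (fun k : Fin B => fun i => c i k • w i k) Finset.univ).symm
        rw [h5, LinearMap.sub_apply, Module.End.one_apply, hR, ← Submodule.Quotient.mk_sub, mk_eq_mk]
        filter_upwards [hU hB] with i hi
        rw [Finset.sum_apply, hc i hi]
        rfl
      rw [h3]
      exact Submodule.sum_mem _ fun k _ => Submodule.smul_mem _ _ (Submodule.subset_span ⟨k, rfl⟩)
    have := FiniteDimensional.span_of_finite (KU U F) hS
    exact Submodule.finiteDimensional_of_le hle

end Pool.Agent.Lib.MP_b9166b_al.Ks
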