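import Pool.Agent.Lib.MP_b9166b_al.Ks.Bounded
import Pool.Agent.Lib.MP_b9166b_al.Ks.Exist
import Pool.Agent.Lib.MP_b9166b_al.Ks.Ultra
import Pool.Agent.Lib.MP_b9166b_al.Ks.LinMainA

/-!
# The theorem for linear covers
-/

set_option autoImplicit false

namespace Pool.Agent.Lib.MP_b9166b_al.Ks

open scoped commutatorElement

open Filter

variable {G : Type} [Group G] {x : G}

theorem finLin_of_lcov (hs : IsSimpleGroup G) (hx : 0 < orderOf x)
    (h : ∀ S : Finset G, Nonempty (LCov x S))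
    (hc : FinLin (Subgroup.centralizer ({x} : Set G))) : FinLin G := by
  by_cases hN : ∀ (S : Finset G) (N : ℕ), ∃ c : LCov x S, N ≤ Module.finrank c.F c.V
  · obtain ⟨K, _, VK, _, _, _, ρ, hρ, hfin⟩ := hc
    obtain ⟨c, hcV⟩ := hN ∅ (orderOf x * orderOf x * 4 + 1)
    exact finLin_of_unbounded hs hN (exists_bounded hx ρ hρ hfin (exists_comm_comm c hx hcV))
  · push Not at hN
    obtain ⟨S₀, N, hN⟩ := hN
    refine finLin_of_bounded (x := x) N fun S => ?_
    classical
    obtain ⟨c⟩ := h (S ∪ S₀)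
    exact ⟨c.mono Finset.subset_union_left, (hN (c.mono Finset.subset_union_right)).le⟩

end Pool.Agent.Lib.MP_b9166b_al.Ks
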