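import Pool.Agent.Lib.MP_b9166b_al.Ks.LinMain
import Pool.Agent.Lib.MP_b9166b_al.Ks.AltMain
import Pool.Agent.Lib.MP_b9166b_al.Ks.CovLin
import Pool.Agent.Lib.MP_b9166b_al.Ks.CovAlt

/-!
# KSS: the theorem
-/

set_option autoImplicit false

namespace Pool.Agent.Lib.MP_b9166b_al.Ks

variable {G : Type} [Group G] {x : G}

theorem LinCover.mono {S S' : Finset G} (h : LinCover x S) (hS : S' ⊆ S) : LinCover x S' := by
  obtain ⟨H, T, hT, F, hF, n, σ, hx, hfin, h1, h2, h3, h4, h5, h6⟩ := h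
  exact ⟨H, T, hT, F, hF, n, σ, hx, hfin, fun s hs => h1 s (hS hs), h2, h3, h4, h5,
    fun s hs => h6 s (hS hs)⟩

theorem AltCover.mono {S S' : Finset G} (h : AltCover x S) (hS : S' ⊆ S) : AltCover x S' := by
  obtain ⟨H, T, hT, n, σ, hx, hfin, h1, h2, h3, h4, h5⟩ := h
  exact ⟨H, T, hT, n, σ, hx, hfin, fun s hs => h1 s (hS hs), h2, h3, h4, fun s hs => h5 s (hS hs)⟩

theorem kss (hs : IsSimpleGroup G) (hx : 0 < orderOf x)
    (h : ∀ S : Finset G, LinCover x S ∨ AltCover x S)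
    (hc : FinLin (Subgroup.centralizer ({x} : Set G))) : FinLin G := by
  classical
  by_cases hL : ∀ S : Finset G, LinCover x S
  · exact finLin_of_lcov hs hx (fun S => (hL S).lcov) hc
  · push Not at hL
    obtain ⟨S₀, hS₀⟩ := hL
    refine (finPerm_of_acov hs hx (fun S hS => ?_) hc).finLin
    refine AltCover.acov ?_ hS
    rcases h (S ∪ S₀) with h1 | h1
    · exact absurd (h1.mono Finset.subset_union_right) hS₀
    · exact h1.mono Finset.subset_union_left

end Pool.Agent.Lib.MP_b9166b_al.Ks
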