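import Mathlib

/-!
# The isotypic parts of a semisimple linear map

a ∈ End V, a^m = c • 1, c ≠ 0, m ≠ 0 in F. For an irreducible factor f of X^m - c let E = AdjoinRoot f and
W = ker (aeval a f), an E-space (via AdjoinRoot.liftHom applied to the restriction of a to W). V is the direct
sum of the W (X^m - c is separable, so it is a unit times the product of its distinct irreducible factors,
which are pairwise coprime; there are at most m of them, each of degree ≤ m).
-/

set_option autoImplicit false

namespace Pool.Agent.Lib.MP_b9166b_al.Ks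

/-- A part of `(V, a)`: a vector space `W` over a finite extension `E` of `F` of degree at most `m`, embedded
in `V` (by `j`, with a projection `q`), such that the `E`-linear maps of `W` extend (by the identity on the
complement) to maps of `V` commuting with `a`, and maps of `V` commuting with `a` restrict to `E`-linear maps
of `W`. -/
structure Part (F V : Type) [Field F] [AddCommGroup V] [Module F V] (a : V →ₗ[F] V) (m : ℕ) where
  E : Type
  fld : Field E
  alg : Algebra F E
  fdE : FiniteDimensional F E
  hE : Module.finrank F E ≤ m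
  W : Type
  grp : AddCommGroup W
  modF : Module F W
  modE : Module E W
  tow : IsScalarTower F E W
  fdW : FiniteDimensional E W
  j : W →ₗ[F] V
  q : V →ₗ[F] W
  qj : ∀ w, q (j w) = w
  ext_comm : ∀ u : W →ₗ[E] W, Commute (j ∘ₗ (u.restrictScalars F) ∘ₗ q + (1 - j ∘ₗ q)) a
  res : ∀ y : V →ₗ[F] V, Commute y a → ∃ u : W →ₗ[E] W,
    (∀ w, y (j w) = j (u w)) ∧ ∀ v, q (y v) = u (q v)

attribute [instance] Part.fld Part.alg Part.fdE Part.grp Part.modF Part.modE Part.tow Part.fdW

namespace PartAux

open Polynomial

variable {F V : Type} [Field F] [AddCommGroup V] [Module F V]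

theorem aeval_comm {a y : V →ₗ[F] V} (h : Commute y a) (p : F[X]) : Commute y (aeval a p) := by
  induction p using Polynomial.induction_on' with
  | add p q hp hq => rw [map_add]; exact hp.add_right hq
  | monomial n c =>
    rw [aeval_monomial]
    exact Commute.mul_right (Algebra.commutes c y).symm (h.pow_right n)

/-- the kernel of `f(a)` -/
noncomputable abbrev Wk (a : V →ₗ[F] V) (f : F[X]) : Submodule F V := LinearMap.ker (aeval a f)

theorem mem_Wk (a : V →ₗ[F] V) (f : F[X]) (v : V) : v ∈ Wk a f ↔ aeval a f v = 0 := Iff.rfl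

theorem map_Wk {a y : V →ₗ[F] V} (h : Commute y a) (f : F[X]) : ∀ v ∈ Wk a f, y v ∈ Wk a f := by
  intro v hv
  rw [mem_Wk] at hv ⊢
  have h2 := congrArg (fun z : V →ₗ[F] V => z v) (aeval_comm h f).eq
  simp only [Module.End.mul_apply] at h2
  rw [← h2, hv, map_zero]

/-- restriction to the kernel -/
noncomputable def rst {a y : V →ₗ[F] V} (h : Commute y a) (f : F[X]) : Module.End F (Wk a f) :=
  LinearMap.restrict y (map_Wk h f)

theorem rst_coe {a y : V →ₗ[F] V} (h : Commute y a) (f : F[X]) (w : Wk a f) :
    ((rst h f w : Wk a f) : V) = y w := rfl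

theorem aeval_rst (a : V →ₗ[F] V) (f p : F[X]) (w : Wk a f) :
    ((aeval (rst (Commute.refl a) f) p w : Wk a f) : V) = aeval a p (w : V) := by
  induction p using Polynomial.induction_on' with
  | add p q hp hq => simp only [map_add, LinearMap.add_apply, Submodule.coe_add, hp, hq]
  | monomial n c =>
    rw [aeval_monomial, aeval_monomial]
    simp only [Module.End.mul_apply, Module.algebraMap_end_apply, Submodule.coe_smul]
    congr 1
    induction n with
    | zero => simp
    | succ n ih =>
      rw [pow_succ', pow_succ']
      simp only [Module.End.mul_apply]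
      rw [rst_coe, ih]

/-- the action of `F[X]/(f)` on the kernel of `f(a)` -/
noncomputable def phi (a : V →ₗ[F] V) (f : F[X]) : AdjoinRoot f →ₐ[F] Module.End F (Wk a f) :=
  Ideal.Quotient.liftₐ (Ideal.span {f}) (aeval (rst (Commute.refl a) f)) (by
    intro p hp
    rw [Ideal.mem_span_singleton] at hp
    obtain ⟨g, rfl⟩ := hp
    ext w
    rw [aeval_rst, mul_comm, map_mul, Module.End.mul_apply, (mem_Wk a f w).1 w.2, map_zero]
    rfl)

theorem phi_mk (a : V →ₗ[F] V) (f p : F[X]) (w : Wk a f) :
    ((phi a f (AdjoinRoot.mk f p) w : Wk a f) : V) = aeval a p (w : V) := by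
  rw [← aeval_rst]
  rfl

/-- the module structure -/
noncomputable abbrev modK (a : V →ₗ[F] V) (f : F[X]) : Module (AdjoinRoot f) (Wk a f) :=
  Module.compHom (Wk a f) (phi a f).toRingHom

theorem exists_part [FiniteDimensional F V] (a : V →ₗ[F] V) (m : ℕ) (f e : F[X]) (hf : Irreducible f)
    (hm : f.natDegree ≤ m) (h1 : ∀ v, aeval a f (aeval a e v) = 0)
    (h2 : ∀ v, aeval a f v = 0 → aeval a e v = v) :
    ∃ P : Part F V a m, ∀ v, P.j (P.q v) = aeval a e v := by
  haveI : Fact (Irreducible f) := ⟨hf⟩
  letI : Module (AdjoinRoot f) (Wk a f) := modK a f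
  have hsm : ∀ (p : F[X]) (w : Wk a f), ((AdjoinRoot.mk f p • w : Wk a f) : V) = aeval a p (w : V) :=
    fun p w => phi_mk a f p w
  have tow : IsScalarTower F (AdjoinRoot f) (Wk a f) := by
    refine ⟨fun r x w => ?_⟩
    change phi a f (r • x) w = r • phi a f x w
    rw [map_smul]; rfl
  have fdE : FiniteDimensional F (AdjoinRoot f) := by
    exact (AdjoinRoot.powerBasis hf.ne_zero).finite
  have hE : Module.finrank F (AdjoinRoot f) ≤ m := by
    have : Module.finrank F (AdjoinRoot f) = f.natDegree := finrank_quotient_span_eq_natDegree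
    rw [this]; exact hm
  have fdW : FiniteDimensional (AdjoinRoot f) (Wk a f) :=
    Module.Finite.of_restrictScalars_finite F (AdjoinRoot f) (Wk a f)
  let q : V →ₗ[F] Wk a f := LinearMap.codRestrict (Wk a f) (aeval a e) (fun v => h1 v)
  have hq : ∀ v, ((q v : Wk a f) : V) = aeval a e v := fun v => rfl
  -- maps of V commuting with a
  have hqy : ∀ (y : V →ₗ[F] V) (hy : Commute y a) (v : V), q (y v) = rst hy f (q v) := by
    intro y hy v
    apply Subtype.ext
    rw [hq, rst_coe, hq]
    have h3 := congrArg (fun z : V →ₗ[F] V => z v) (aeval_comm hy e).eq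
    simp only [Module.End.mul_apply] at h3
    exact h3.symm
  have hXw : ∀ w : Wk a f, AdjoinRoot.mk f X • w = rst (Commute.refl a) f w := by
    intro w
    apply Subtype.ext
    rw [hsm, rst_coe, aeval_X]
  refine ⟨{ E := AdjoinRoot f
            fld := inferInstance
            alg := inferInstance
            fdE := fdE
            hE := hE
            W := Wk a f
            grp := inferInstance
            modF := inferInstance
            modE := inferInstance
            tow := tow
            fdW := fdW
            j := (Wk a f).subtype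
            q := q
            qj := ?_
            ext_comm := ?_
            res := ?_ }, ?_⟩
  · intro w
    apply Subtype.ext
    rw [hq]
    exact h2 w w.2
  · intro u
    have h4 : ∀ v, q (a v) = AdjoinRoot.mk f X • q v := by
      intro v
      rw [hqy a (Commute.refl a) v, hXw]
    have h5 : ∀ v, (((u (q (a v)) : Wk a f)) : V) = a ((u (q v) : Wk a f) : V) := by
      intro v
      rw [h4, map_smul, hsm, aeval_X]
    have h6 : ∀ v, ((q (a v) : Wk a f) : V) = a ((q v : Wk a f) : V) := by
      intro v
      rw [h4, hsm, aeval_X]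
    refine LinearMap.ext fun v => ?_
    simp only [Module.End.mul_apply, LinearMap.add_apply, LinearMap.comp_apply,
      LinearMap.restrictScalars_apply, LinearMap.sub_apply, Module.End.one_apply, Submodule.subtype_apply,
      map_add, map_sub]
    rw [h5, h6]
  · intro y hy
    refine ⟨{ toFun := fun w => rst hy f w
              map_add' := fun w w' => map_add _ _ _
              map_smul' := ?_ }, fun w => rfl, fun v => hqy y hy v⟩
    intro x w
    obtain ⟨p, rfl⟩ := AdjoinRoot.mk_surjective x
    apply Subtype.ext
    rw [RingHom.id_apply, hsm, rst_coe, rst_coe, hsm]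
    have h3 := congrArg (fun z : V →ₗ[F] V => z w) (aeval_comm hy p).eq
    simp only [Module.End.mul_apply] at h3
    exact h3
  · intro v
    rfl

end PartAux

open Polynomial PartAux in
theorem exists_parts {F V : Type} [Field F] [AddCommGroup V] [Module F V] [FiniteDimensional F V]
    (a : V →ₗ[F] V) {m : ℕ} (hm : (m : F) ≠ 0) {c : F} (hc : c ≠ 0) (ha : a ^ m = c • 1) :
    ∃ (k : ℕ) (P : Fin k → Part F V a m), k ≤ m ∧ ∀ v, v = ∑ i, (P i).j ((P i).q v) := by
  classical
  have hm0 : m ≠ 0 := by rintro rfl; exact hm (by simp)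
  set p : F[X] := X ^ m - C c with hp
  have hsep : p.Separable := separable_X_pow_sub_C c hm hc
  have hmon : p.Monic := monic_X_pow_sub_C c hm0
  have hp0 : p ≠ 0 := hmon.ne_zero
  have hdeg : p.natDegree = m := natDegree_X_pow_sub_C
  have hpa : aeval a p = 0 := by
    rw [hp, map_sub, map_pow, aeval_X, aeval_C, ha, Algebra.algebraMap_eq_smul_one, sub_self]
  let M := UniqueFactorizationMonoid.normalizedFactors p
  let S := M.toFinset
  have hnd : M.Nodup :=
    (UniqueFactorizationMonoid.squarefree_iff_nodup_normalizedFactors hp0).1 hsep.squarefree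
  have hirr : ∀ f ∈ S, Irreducible f := fun f hf =>
    UniqueFactorizationMonoid.irreducible_of_normalized_factor f (Multiset.mem_toFinset.1 hf)
  have hprod : Associated (∏ f ∈ S, f) p := by
    have h1 : ∏ f ∈ S, f = M.prod := by
      rw [Finset.prod_multiset_count_of_subset M S (fun x hx => hx)] 
      refine Finset.prod_congr rfl fun f hf => ?_
      rw [Multiset.count_eq_one_of_mem hnd (Multiset.mem_toFinset.1 hf), pow_one]
    rw [h1]
    exact UniqueFactorizationMonoid.prod_normalizedFactors hp0
  let k := S.card
  let s : Fin k → F[X] := fun i => (S.equivFin.symm i).1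
  have hsS : ∀ i, s i ∈ S := fun i => (S.equivFin.symm i).2
  have hsinj : Function.Injective s := fun i i' h => S.equivFin.symm.injective (Subtype.ext h)
  have hprods : ∏ i, s i = ∏ f ∈ S, f := by
    rw [← Finset.prod_coe_sort S (fun f => f)]
    exact Fintype.prod_equiv S.equivFin.symm _ _ (fun i => rfl)
  have hk : k ≤ m := by
    have h1 : (∏ i, s i).natDegree = m := by
      rw [hprods, natDegree_eq_of_degree_eq (degree_eq_degree_of_associated hprod), hdeg]
    rw [natDegree_prod _ _ (fun i _ => (hirr _ (hsS i)).ne_zero)] at h1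
    rw [← h1]
    calc k = ∑ i : Fin k, 1 := by simp
      _ ≤ ∑ i : Fin k, (s i).natDegree := by
        refine Finset.sum_le_sum fun i _ => ?_
        exact (hirr _ (hsS i)).natDegree_pos
  have hcop : Pairwise (Function.onFun IsCoprime s) := by
    intro i i' hii
    refine (Irreducible.coprime_iff_not_dvd (hirr _ (hsS i))).2 ?_
    intro hd
    have h1 : Associated (s i) (s i') := (hirr _ (hsS i)).associated_of_dvd (hirr _ (hsS i')) hd
    have h2 : s i = s i' := by
      have e1 := UniqueFactorizationMonoid.normalize_normalized_factor (s i) (Multiset.mem_toFinset.1 (hsS i))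
      have e2 := UniqueFactorizationMonoid.normalize_normalized_factor (s i') (Multiset.mem_toFinset.1 (hsS i'))
      rw [← e1, ← e2]
      exact normalize_eq_normalize_iff_associated.2 h1
    exact hii (hsinj h2)
  have hk0 : Nonempty (Fin k) := by
    rw [← Fin.pos_iff_nonempty]
    by_contra h0
    have h1 : (∏ i, s i).natDegree = m := by
      rw [hprods, natDegree_eq_of_degree_eq (degree_eq_degree_of_associated hprod), hdeg]
    have : IsEmpty (Fin k) := by
      rw [Nat.eq_zero_of_not_pos h0]; infer_instance
    rw [Finset.univ_eq_empty, Finset.prod_empty, natDegree_one] at h1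
    exact hm0 h1.symm
  obtain ⟨μ, hμ⟩ := exists_sum_eq_one_iff_pairwise_coprime'.2 hcop
  let e : Fin k → F[X] := fun i => μ i * ∏ j ∈ {i}ᶜ, s j
  have hpz : aeval a (∏ i, s i) = 0 := by
    rw [hprods]
    obtain ⟨u, hu⟩ := hprod.symm
    rw [← hu, map_mul, hpa, zero_mul]
  have hfe : ∀ i v, aeval a (s i) (aeval a (e i) v) = 0 := by
    intro i v
    rw [← Module.End.mul_apply, ← map_mul]
    have : s i * e i = μ i * ∏ i, s i := by
      rw [← Finset.mul_prod_erase Finset.univ s (Finset.mem_univ i)]
      have : ({i}ᶜ : Finset (Fin k)) = Finset.univ.erase i := by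
        ext; simp
      simp only [e, this]
      ring
    rw [this, map_mul, hpz, mul_zero]; rfl
  have hsum : ∀ v, v = ∑ i, aeval a (e i) v := by
    intro v
    have h1 : aeval a (∑ i, e i) v = v := by
      rw [hμ, map_one]; rfl
    rw [map_sum, LinearMap.sum_apply] at h1
    exact h1.symm
  have hid : ∀ i v, aeval a (s i) v = 0 → aeval a (e i) v = v := by
    intro i v hv
    conv_rhs => rw [hsum v]
    rw [Finset.sum_eq_single_of_mem i (Finset.mem_univ i)]
    intro j _ hji
    have : e j = (μ j * ∏ l ∈ ({j}ᶜ : Finset (Fin k)).erase i, s l) * s i := by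
      simp only [e]
      rw [← Finset.mul_prod_erase ({j}ᶜ : Finset (Fin k)) s (a := i) (by simp [Ne.symm hji])]
      ring
    rw [this, map_mul, Module.End.mul_apply, hv, map_zero]
  have hnat : ∀ i, (s i).natDegree ≤ m := by
    intro i
    rw [← hdeg]
    exact natDegree_le_of_dvd (UniqueFactorizationMonoid.dvd_of_mem_normalizedFactors
      (Multiset.mem_toFinset.1 (hsS i))) hp0
  choose P hP using fun i => exists_part a m (s i) (e i) (hirr _ (hsS i)) (hnat i) (hfe i) (hid i)
  refine ⟨k, P, hk, fun v => ?_⟩
  conv_lhs => rw [hsum v]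
  exact Finset.sum_congr rfl fun i _ => (hP i v).symm

end Pool.Agent.Lib.MP_b9166b_al.Ks
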