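import Mathlib

/-!
# Commutators in nonabelian r-groups
-/

set_option autoImplicit false

namespace Pool.Agent.Lib.MP_b9166b_al.Ks

open scoped commutatorElement

theorem comm_pow_left {G : Type*} [Group G] {g h : G} (hc : Commute ⁅g, h⁆ g) (n : ℕ) :
    ⁅g ^ n, h⁆ = ⁅g, h⁆ ^ n := by
  have h0 : g * h = ⁅g, h⁆ * h * g := by
    rw [commutatorElement_def]
    group
  have h1 : ∀ m : ℕ, g ^ m * h = ⁅g, h⁆ ^ m * h * g ^ m := by
    intro m
    induction m with
    | zero => simp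
    | succ m ih =>
      calc g ^ (m + 1) * h = g * (g ^ m * h) := by rw [pow_succ', mul_assoc]
        _ = g * ⁅g, h⁆ ^ m * h * g ^ m := by rw [ih]; group
        _ = ⁅g, h⁆ ^ m * (g * h) * g ^ m := by
          rw [← (hc.pow_left m).eq]
          group
        _ = ⁅g, h⁆ ^ m * (⁅g, h⁆ * h * g) * g ^ m := by rw [← h0]
        _ = ⁅g, h⁆ ^ (m + 1) * h * g ^ (m + 1) := by
          rw [pow_succ, pow_succ']
          group
  rw [commutatorElement_def (g ^ n) h, h1]
  group

/-- A nonabelian finite r-group contains g, h such that z = [g, h] is central in ⟨g, h⟩ of order r.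
R / Z(R) is a nontrivial r-group, so its centre is not trivial: g not central with g Z(R) in the centre of
R / Z(R); h with z = [g, h] ≠ 1; z is in Z(R), of order r^k; [g^n, h] = z^n, take n = r^(k-1). -/
theorem exists_central_comm {R : Type} [Group R] [Finite R] {r : ℕ} [Fact r.Prime]
    (hR : IsPGroup r R) (hab : ∃ a b : R, ¬ Commute a b) :
    ∃ g h : R, Commute ⁅g, h⁆ g ∧ Commute ⁅g, h⁆ h ∧ orderOf ⁅g, h⁆ = r := by
  obtain ⟨a, b, hab⟩ := hab
  have hq : IsPGroup r (R ⧸ Subgroup.center R) := hR.to_quotient _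
  have hnt : Nontrivial (R ⧸ Subgroup.center R) := by
    refine ⟨⟨QuotientGroup.mk a, 1, fun he => hab ?_⟩⟩
    have h1 : a ∈ Subgroup.center R := (QuotientGroup.eq_one_iff a).1 he
    exact ((Subgroup.mem_center_iff.1 h1) b).symm
  have hc := hq.center_nontrivial
  obtain ⟨⟨q, hqc⟩, hq1⟩ := exists_ne (1 : Subgroup.center (R ⧸ Subgroup.center R))
  obtain ⟨g, rfl⟩ := QuotientGroup.mk_surjective q
  have hg : g ∉ Subgroup.center R := by
    intro hg
    apply hq1
    apply Subtype.ext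
    exact (QuotientGroup.eq_one_iff g).2 hg
  obtain ⟨h, hh⟩ : ∃ h : R, h * g ≠ g * h := by
    by_contra hcon
    push Not at hcon
    exact hg (Subgroup.mem_center_iff.2 hcon)
  have hz : ⁅g, h⁆ ∈ Subgroup.center R := by
    rw [← QuotientGroup.eq_one_iff, commutatorElement_def]
    have h1 := Subgroup.mem_center_iff.1 hqc (QuotientGroup.mk h)
    rw [QuotientGroup.mk_mul, QuotientGroup.mk_mul, QuotientGroup.mk_mul, ← h1,
      QuotientGroup.mk_inv, QuotientGroup.mk_inv]
    group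
  have hz1 : ⁅g, h⁆ ≠ 1 := by
    intro h1
    rw [commutatorElement_eq_one_iff_mul_comm] at h1
    exact hh h1.symm
  have hcz : ∀ x, Commute ⁅g, h⁆ x := fun x => (Subgroup.mem_center_iff.1 hz x).symm
  obtain ⟨k, hk⟩ := IsPGroup.iff_orderOf.1 hR ⁅g, h⁆
  have hk0 : k ≠ 0 := by
    rintro rfl
    rw [pow_zero, orderOf_eq_one_iff] at hk
    exact hz1 hk
  have hr0 : r ≠ 0 := (Fact.out : r.Prime).ne_zero
  refine ⟨g ^ r ^ (k - 1), h, ?_, ?_, ?_⟩
  · rw [comm_pow_left (hcz g)]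
    exact (hcz _).pow_left _
  · rw [comm_pow_left (hcz g)]
    exact (hcz _).pow_left _
  · rw [comm_pow_left (hcz g), orderOf_pow_of_dvd (pow_ne_zero _ hr0)
      (by rw [hk]; exact pow_dvd_pow r (Nat.sub_le k 1)), hk, Nat.pow_div (Nat.sub_le k 1)
      (Nat.pos_of_ne_zero hr0)]
    have : k - (k - 1) = 1 := by omega
    rw [this, pow_one]

/-- The same in a finite group Γ which maps onto a nonabelian r-group: a Sylow r-subgroup P of Γ maps onto
φ.range (Sylow.mapSurjective), so P is a nonabelian r-group. -/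
theorem exists_comm_of_range {Γ Q : Type} [Group Γ] [Finite Γ] [Group Q] {r : ℕ} [Fact r.Prime]
    (φ : Γ →* Q) (hφ : IsPGroup r φ.range) (hab : ∃ a b : Γ, ¬ Commute (φ a) (φ b)) :
    ∃ g h : Γ, Commute ⁅g, h⁆ g ∧ Commute ⁅g, h⁆ h ∧ orderOf ⁅g, h⁆ = r := by
  obtain ⟨a, b, hab⟩ := hab
  obtain ⟨P⟩ : Nonempty (Sylow r Γ) := inferInstance
  let P' : Sylow r φ.range := P.mapSurjective φ.rangeRestrict_surjective
  have htop : (P' : Subgroup φ.range) = ⊤ := by
    have h1 : (⊤ : Subgroup φ.range) ≤ P' → (P' : Subgroup φ.range) = ⊤ := fun h => top_le_iff.1 h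
    have h2 : IsPGroup r (⊤ : Subgroup φ.range) := hφ.to_subgroup ⊤
    exact (P'.is_maximal' h2 le_top).symm
  have hsurj : ∀ x : Γ, ∃ y ∈ P, φ y = φ x := by
    intro x
    have h1 : φ.rangeRestrict x ∈ (P' : Subgroup φ.range) := by
      rw [htop]
      exact Subgroup.mem_top _
    have h2 : (P' : Subgroup φ.range) = (P : Subgroup Γ).map φ.rangeRestrict :=
      Sylow.coe_mapSurjective _ _
    rw [h2] at h1
    obtain ⟨y, hy, hyx⟩ := h1
    exact ⟨y, hy, congrArg Subtype.val hyx⟩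
  obtain ⟨a', ha', haa⟩ := hsurj a
  obtain ⟨b', hb', hbb⟩ := hsurj b
  have hP : ∃ c d : P, ¬ Commute c d := by
    refine ⟨⟨a', ha'⟩, ⟨b', hb'⟩, fun hc => hab ?_⟩
    have h1 : a' * b' = b' * a' := congrArg Subtype.val hc.eq
    have h2 := congrArg φ h1
    rw [map_mul, map_mul, haa, hbb] at h2
    exact h2
  obtain ⟨g, h, h1, h2, h3⟩ := exists_central_comm P.isPGroup' hP
  have hcomm : ((⁅g, h⁆ : P) : Γ) = ⁅(g : Γ), (h : Γ)⁆ := rfl
  refine ⟨g, h, ?_, ?_, ?_⟩
  · have := congrArg Subtype.val h1.eq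
    exact this
  · have := congrArg Subtype.val h2.eq
    exact this
  · rw [← hcomm, Subgroup.orderOf_coe, h3]

end Pool.Agent.Lib.MP_b9166b_al.Ks
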